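import Pool.Agent.Lib.PP2.E10
import Pool.Agent.Lib.PP2.S0

/-!
# Part D: definitions

Input: a system all of whose links lie in strips (no specials). Output of Part D (`D/Final.lean`): the constraints
`LS` are exactly the pairs `(y_k, u)` of the strips with `k ≥ 1`.
-/

namespace Pool.PP2

open Finset Classical MvPolynomial

/-- a strip in a system. Component in `S`: the zigzag `u, y 0, w 0, …, y k, w k`; component in `R`: the zigzag
`p, u, y 0, w 0, …, w (k-1), y k`; `p` is isolated in `S`, `w k` is isolated in `R` -/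
structure JStrip {M : Type*} (σ : Sys0 M) where
  k : ℕ
  y : ℕ → M
  w : ℕ → M
  p : M
  u : M
  dl : σ.DL p u
  cl : σ.CL (y k) (w k)
  yu : σ.S.s (y 0) u
  yw : ∀ j ≤ k, σ.S.w (y j) (w j)
  ywR : ∀ j < k, σ.R.w (y j) (w j)
  yw' : ∀ j < k, σ.S.s (y (j + 1)) (w j)
  ymin : ∀ j ≤ k, ∀ z, ¬ σ.S.e z (y j)
  wmax : ∀ j ≤ k, ∀ z, ¬ σ.S.e (w j) z
  umax : ∀ z, ¬ σ.S.e u z
  uW : ∀ z, ¬ σ.S.w z u
  wN : ∀ z, ¬ σ.S.s z (w k)
  pS : ∀ z, ¬ σ.S.e z p ∧ ¬ σ.S.e p z
  wR : ∀ z, ¬ σ.R.e z (w k) ∧ ¬ σ.R.e (w k) z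

namespace JStrip

variable {M : Type*} {σ : Sys0 M} (t : JStrip σ)

/-- the component in `S` -/
noncomputable def kap : Finset M :=
  insert t.u ((range (t.k + 1)).image t.y ∪ (range (t.k + 1)).image t.w)

/-- the component of `u` in `R` -/
noncomputable def rho : Finset M :=
  insert t.p (insert t.u ((range (t.k + 1)).image t.y ∪ (range t.k).image t.w))

/-- all elements of the strip -/
noncomputable def cls : Finset M := insert t.p t.kap

/-- `{p, u, y 0}` -/
noncomputable def tri : Finset M := {t.p, t.u, t.y 0}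

/-- strips with `k ≥ 1` without constraint on `u` -/
def bad : Prop := 1 ≤ t.k ∧ ∀ x, ¬ σ.LS x t.u

end JStrip

/-- a system with strips -/
structure DSys {M : Type*} (σ : Sys0 M) where
  ι : Type
  fin : Fintype ι
  st : ι → JStrip σ
  inj : Function.Injective (fun i => (st i).u)
  hC : ∀ y w, σ.CL y w → ∃ i, y = (st i).y (st i).k ∧ w = (st i).w (st i).k
  hD : ∀ p u, σ.DL p u → ∃ i, p = (st i).p ∧ u = (st i).u
  /-- from Part B: closedness of the `R`-components -/
  closed : ∀ i, σ.JJ (st i).rho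
  /-- from Part B -/
  lsN : ∀ {s t}, σ.LS s t → ∃ q, σ.S.s q t
  /-- from Part B -/
  lsW : ∀ {s t}, σ.LS s t → (∀ p, ¬ σ.DL p t) → ∃ r, σ.S.w r t

namespace DSys

variable {M : Type*} {σ : Sys0 M} (D : DSys σ)

instance : Fintype D.ι := D.fin

/-- the exact family -/
def JJX (L : Finset M) : Prop :=
  σ.S.Low L ∧ σ.R.Low L ∧ ∀ i, 1 ≤ (D.st i).k → (D.st i).u ∈ L → (D.st i).y (D.st i).k ∈ L

/-- exactness of the constraints on `G` -/
def ExactOn (G : Finset M) : Prop :=
  (∀ x y, σ.LS x y → y ∈ G → ∃ i, 1 ≤ (D.st i).k ∧ x = (D.st i).y (D.st i).k ∧ y = (D.st i).u) ∧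
  (∀ i, 1 ≤ (D.st i).k → (D.st i).u ∈ G → σ.LS ((D.st i).y (D.st i).k) (D.st i).u)

variable [Fintype M]

/-- the strips inside `G` -/
noncomputable def stripsIn (G : Finset M) : Finset D.ι := univ.filter (fun i => (D.st i).u ∈ G)

/-- the bad strips inside `G` -/
noncomputable def badIn (G : Finset M) : Finset D.ι := (D.stripsIn G).filter (fun i => (D.st i).bad)

/-- a stage: obtained by peeling strips of `S`-components from the top -/
structure Stage (G : Finset M) : Prop where
  jj : σ.JJ G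
  star : σ.StarOn G
  /-- components of maximal elements are intact -/
  max : ∀ x ∈ G, σ.maxS x → σ.kS x ⊆ G
  /-- strips are intact or gone -/
  strip : ∀ i, ∀ x ∈ (D.st i).kap, x ∈ G → (D.st i).kap ⊆ G

end DSys

namespace Sys0

variable {M : Type*} (σ : Sys0 M) [Fintype M]

/-- triples `(t, n, r)`: `t ∈ G` target of a constraint, `n`, `r` its north and west neighbours, both minimal -/
noncomputable def trip (G : Finset M) : Finset (M × M × M) :=
  univ.filter (fun q => q.1 ∈ G ∧ (∃ x, σ.LS x q.1) ∧ σ.S.s q.2.1 q.1 ∧ σ.S.w q.2.2 q.1 ∧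
    σ.minS q.2.1 ∧ σ.minS q.2.2)

/-- the elements of `G` without north neighbour -/
noncomputable def Top (G : Finset M) : Finset M := G.filter (fun x => ∀ z, ¬ σ.S.s z x)

end Sys0

/-- the value at `p_1 = c`, `p_j = 0` for `j ≥ 2` -/
noncomputable def epsc {A : Type*} [CommRing A] [Algebra ℚ A] (c : A) : Lam ℚ →ₐ[ℚ] A :=
  aeval (fun j => if j = 1 then c else 0)

/-- the infinite zigzag: odd elements `x` are minimal, `x - 1` is the south neighbour and `x + 1` the east neighbour of `x` -/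
noncomputable def Zz : Skew ℤ where
  s x y := y = x - 1 ∧ x % 2 = 1
  w x y := y = x + 1 ∧ x % 2 = 1
  lab x := x
  rk x := if x % 2 = 1 then 0 else 1
  lab_s h := by omega
  lab_w h := by omega
  rk_s {x y} h := by
    obtain ⟨h1, h2⟩ := h
    rw [if_pos h2, if_neg (by omega)]
    norm_num
  rk_w {x y} h := by
    obtain ⟨h1, h2⟩ := h
    rw [if_pos h2, if_neg (by omega)]
    norm_num
  ls h1 h2 := by omega
  us h1 h2 := by omega
  lw h1 h2 := by omega
  uw h1 h2 := by omega
  sw h1 h2 := by omega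
  ws h1 h2 := by omega

end Pool.PP2
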