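import Pool.Agent.Lib.PP2.D.Defs

/-!
# Chunk D-Deg1: leading monomials with the south east strips
-/

namespace Pool.PP2

open Finset Classical MvPolynomial

namespace Skew

variable {M : Type*} (Q : Skew M)

/-- one component -/
theorem deg1_comp {F : Finset M} (hF : Q.Cvx F) {x : M} (hx : x ∈ F) :
    mo.degree (K Q.toEG (Q.comp F x)) = Finsupp.single (Q.comp F x ∩ Q.B1 F).card 1 +
        mo.degree (K Q.toEG (Q.comp F x \ Q.B1 F)) := by
  obtain ⟨g, hg, hK⟩ := Q.K_linear1 hF hx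
  obtain ⟨z, h2, _, h3⟩ := Q.e7_end hF hx
  have hpos : 0 < (Q.comp F x ∩ Q.B1 F).card :=
    Finset.card_pos.2 ⟨z, Finset.mem_inter.2 ⟨h2, h3⟩⟩
  have hcr := Q.cr_strip1 hF hx
  have hc : Q.cr (Q.comp F x ∩ Q.B1 F) / ((Q.comp F x ∩ Q.B1 F).card : ℚ) ≠ 0 := by
    rw [hcr]
    apply div_ne_zero
    · exact pow_ne_zero _ (by norm_num)
    · exact_mod_cast hpos.ne'
  have h := mo_degree_linear hc (K_ne_zero Q.toEG (Q.comp F x \ Q.B1 F))
    (Q.K_linear_supported1 hF hx) hg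
  rw [← hK] at h
  exact h.1

private theorem deg1_ends_mem {F : Finset M} {z : M} (hz : z ∈ Q.ends F) : z ∈ F :=
  (Finset.mem_filter.mp hz).1

private theorem deg1_cover {F : Finset M} (hF : Q.Cvx F) :
    (Q.ends F).biUnion (fun z => Q.comp F z \ Q.B1 F) = F \ Q.B1 F := by
  ext x
  rw [Finset.mem_biUnion, Finset.mem_sdiff]
  constructor
  · rintro ⟨z, _, hx⟩
    rw [Finset.mem_sdiff, EG.mem_comp] at hx
    exact ⟨hx.1.1, hx.2⟩
  · rintro ⟨hx, hx'⟩
    obtain ⟨z, hz, hc⟩ := Q.exists_end hF hx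
    refine ⟨z, hz, ?_⟩
    rw [Finset.mem_sdiff, EG.mem_comp]
    exact ⟨⟨hx, EG.conn_symm hc⟩, hx'⟩

/-- the version of `degree_K` with `B1`: `K_comps`, `K_linear1`, `K_linear_supported1`, `strip_card`, `mo_degree_linear`, `K_union` -/
theorem degree_K1 {F : Finset M} (hF : Q.Cvx F) :
    mo.degree (K Q.toEG F) = Q.wts F + mo.degree (K Q.toEG (F \ Q.B1 F)) := by
  have h1 : K Q.toEG (F \ Q.B1 F) = ∏ z ∈ Q.ends F, K Q.toEG (Q.comp F z \ Q.B1 F) := by
    rw [← deg1_cover Q hF]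
    exact Q.e7_K_biUnion hF _ _ (Finset.Subset.refl _) (fun z _ => Finset.sdiff_subset)
  rw [Q.K_comps hF, h1, MonomialOrder.degree_prod (fun z _ => K_ne_zero _ _),
    MonomialOrder.degree_prod (fun z _ => K_ne_zero _ _), wts, ← Finset.sum_add_distrib]
  refine Finset.sum_congr rfl fun z hz => ?_
  rw [deg1_comp Q hF (deg1_ends_mem Q hz), Q.strip_card hF (deg1_ends_mem Q hz)]

/-- a component `T` of `F` with strip size `N`; `L ⊆ B1 F` lower in `F`, inside `T`, with `n` elements. Then `wts (T \ L)` lives on `j ≤ N - n` (`B1_sdiff`, the strips of the components of `T \ L` are disjoint subsets of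
`B1 T \ L`), and `deg K (T \ L) = wts (T \ L) + deg K (T \ B1)`, `deg K T = single N 1 + deg K (T \ B1)` -/
theorem degree_comp_sdiff {F : Finset M} (hF : Q.Cvx F) {x : M} (hx : x ∈ F) {L : Finset M}
    (hL : Q.LowIn F L) (hLT : L ⊆ Q.comp F x) (hLB : L ⊆ Q.B1 F) :
    ∃ d e : ℕ →₀ ℕ, (∀ j, d j ≠ 0 → j + L.card ≤ (Q.comp F x ∩ Q.B1 F).card) ∧
      mo.degree (K Q.toEG (Q.comp F x \ L)) = d + e ∧
      mo.degree (K Q.toEG (Q.comp F x)) = Finsupp.single (Q.comp F x ∩ Q.B1 F).card 1 + e := by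
  have hT : Q.Cvx (Q.comp F x) := Q.e6_cvx_comp hF x
  have hB : Q.B1 (Q.comp F x) = Q.comp F x ∩ Q.B1 F := Q.B1_comp hF x
  have hLT' : Q.LowIn (Q.comp F x) L :=
    ⟨hLT, fun a ha b hb hab => hL.2 a (EG.mem_comp.1 ha).1 b hb hab⟩
  have hLB' : L ⊆ Q.B1 (Q.comp F x) := by
    rw [hB]
    exact Finset.subset_inter hLT hLB
  have hTL : Q.Cvx (Q.comp F x \ L) := hT.up hLT'
  have hB' : Q.B1 (Q.comp F x \ L) = Q.B1 (Q.comp F x) \ L := Q.B1_sdiff hT hLT'
  refine ⟨Q.wts (Q.comp F x \ L), mo.degree (K Q.toEG (Q.comp F x \ Q.B1 F)), ?_, ?_, ?_⟩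
  · intro j hj
    unfold wts at hj
    rw [Finsupp.finsetSum_apply] at hj
    obtain ⟨z, hz, hzj⟩ := Finset.exists_ne_zero_of_sum_ne_zero hj
    rw [Finsupp.single_apply] at hzj
    have hzj' : (Q.comp (Q.comp F x \ L) z ∩ Q.B0 (Q.comp F x \ L)).card = j := by
      by_contra h
      rw [if_neg h] at hzj
      exact hzj rfl
    rw [Q.strip_card hTL (deg1_ends_mem Q hz), hB'] at hzj'
    have h1 : (Q.comp (Q.comp F x \ L) z ∩ (Q.B1 (Q.comp F x) \ L)).card ≤
        (Q.B1 (Q.comp F x) \ L).card := Finset.card_le_card Finset.inter_subset_right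
    have h2 := Finset.card_sdiff_add_card_eq_card hLB'
    rw [← hB]
    omega
  · rw [Q.degree_K1 hTL, hB']
    congr 3
    rw [hB]
    ext y
    simp only [Finset.mem_sdiff, Finset.mem_inter]
    constructor
    · rintro ⟨⟨h1, h2⟩, h3⟩
      exact ⟨h1, fun h4 => h3 ⟨⟨h1, h4⟩, h2⟩⟩
    · rintro ⟨h1, h2⟩
      exact ⟨⟨h1, fun h3 => h2 (hLB h3)⟩, fun h3 => h2 h3.1.2⟩
  · exact deg1_comp Q hF hx

end Skew

/-- every finite set is convex in the zigzag -/
theorem deg1_cvx_Zg (F : Finset ℤ) : Zz.Cvx F := by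
  set A : Finset ℤ := F ∪ (F.image (fun x => x + 1) ∪ F.image (fun x => x - 1)).filter
    (fun x => x % 2 = 1) with hA
  have hodd : ∀ x y, Zz.e x y → x % 2 = 1 ∧ (y = x - 1 ∨ y = x + 1) := by
    intro x y h
    rcases h with h | h
    · exact ⟨h.2, Or.inl h.1⟩
    · exact ⟨h.2, Or.inr h.1⟩
  have hmem : ∀ x ∈ A \ F, x % 2 = 1 := by
    intro x hx
    rw [Finset.mem_sdiff, hA, Finset.mem_union, Finset.mem_filter] at hx
    rcases hx.1 with h | h
    · exact (hx.2 h).elim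
    · exact h.2
  refine ⟨A \ F, A, ?_, ?_, Finset.sdiff_subset, ?_⟩
  · intro x y hxy hy
    have h1 := hmem y hy
    obtain ⟨h2, h3⟩ := hodd x y hxy
    omega
  · intro x y hxy hy
    obtain ⟨h2, h3⟩ := hodd x y hxy
    have hyF : y ∈ F := by
      by_contra hcon
      have h1 := hmem y (Finset.mem_sdiff.2 ⟨hy, hcon⟩)
      omega
    rw [hA, Finset.mem_union, Finset.mem_filter, Finset.mem_union, Finset.mem_image,
      Finset.mem_image]
    right
    refine ⟨?_, h2⟩
    rcases h3 with h3 | h3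
    · exact Or.inl ⟨y, hyF, by omega⟩
    · exact Or.inr ⟨y, hyF, by omega⟩
  · ext y
    have hy : y ∈ F → y ∈ A := fun h => by
      rw [hA]
      exact Finset.mem_union_left _ h
    simp only [Finset.mem_sdiff]
    tauto

theorem deg1_B1_Zg (F : Finset ℤ) : Zz.B1 F = F := by
  ext x
  rw [EG.e6_mem_B1]
  refine ⟨fun h => h.1, fun h => ⟨h, fun y _ z _ h1 h2 => ?_⟩⟩
  have h3 := h1.1
  have h4 := h1.2
  have h5 := h2.2
  omega

theorem deg1_conn_Zg (a : ℤ) (n k : ℕ) (hk : k ≤ n) : Zz.conn (Icc a (a + n)) a (a + k) := by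
  induction k with
  | zero =>
    simp only [Nat.cast_zero, add_zero]
    exact EG.conn_refl _ _
  | succ k ih =>
    refine (ih (by omega)).tail ⟨?_, ?_, ?_⟩
    · rw [Finset.mem_Icc]
      constructor <;> omega
    · rw [Finset.mem_Icc]
      constructor <;> push_cast <;> omega
    · by_cases h : (a + k) % 2 = 1
      · left
        right
        refine ⟨?_, h⟩
        push_cast
        ring
      · right
        left
        refine ⟨?_, ?_⟩
        · push_cast
          ring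
        · push_cast
          omega

/-- the zigzag with `n + 1` elements has leading monomial `X (n + 1)` (it is its own strip; `degree_K1`) -/
theorem degree_Zg (a : ℤ) (n : ℕ) :
    mo.degree (K Zz.toEG (Icc a (a + n))) = Finsupp.single (n + 1) 1 := by
  have hF := deg1_cvx_Zg (Icc a (a + n))
  have ha : a ∈ Icc a (a + n) := by
    rw [Finset.mem_Icc]
    omega
  have hc : Zz.comp (Icc a (a + n)) a = Icc a (a + n) := by
    ext x
    rw [EG.mem_comp]
    refine ⟨fun h => h.1, fun h => ⟨h, ?_⟩⟩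
    rw [Finset.mem_Icc] at h
    have h1 := deg1_conn_Zg a n (x - a).toNat (by omega)
    have h2 : a + ((x - a).toNat : ℤ) = x := by omega
    rwa [h2] at h1
  have h := Zz.deg1_comp hF ha
  rw [hc, deg1_B1_Zg, @Finset.inter_self ℤ (fun a b => propDecidable (a = b)),
    @Finset.sdiff_self ℤ (fun a b => propDecidable (a = b)), K_empty, MonomialOrder.degree_one,
    add_zero] at h
  rw [h]
  congr 1
  rw [Int.card_Icc]
  omega

end Pool.PP2
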