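import Pool.Agent.Lib.PP2.D.P3
import Pool.Agent.Lib.PP2.D.Deg1

/-!
# Chunk D-Deg: the leading monomials in `p3`
-/

namespace Pool.PP2

open Finset Classical MvPolynomial

namespace JStrip

variable {M : Type*} {σ : Sys0 M} (t : JStrip σ)

/-- a single point -/
theorem deg_K_point {M : Type*} (Q : EG M) (x : M) : K Q {x} = K Zz.toEG {(0 : ℤ)} := by
  have hs : ∀ y, ¬ Q.s y y := fun y h => lt_irrefl _ (Q.lab_s h)
  have hw : ∀ y, ¬ Q.w y y := fun y h => lt_irrefl _ (Q.lab_w h)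
  have hs' : ∀ y, ¬ Zz.s y y := fun y h => lt_irrefl _ (Zz.lab_s h)
  have hw' : ∀ y, ¬ Zz.w y y := fun y h => lt_irrefl _ (Zz.lab_w h)
  have h := K_image Q Zz.toEG {x} (fun _ => (0 : ℤ))
    (by
      intro a ha b hb _
      rw [Finset.mem_coe, Finset.mem_singleton] at ha hb
      rw [ha, hb])
    (by
      intro a ha b hb
      rw [Finset.mem_singleton] at ha hb
      subst ha
      subst hb
      exact ⟨fun h => (hs _ h).elim, fun h => (hs' _ h).elim⟩)
    (by
      intro a ha b hb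
      rw [Finset.mem_singleton] at ha hb
      subst ha
      subst hb
      exact ⟨fun h => (hw _ h).elim, fun h => (hw' _ h).elim⟩)
  rw [h]
  congr 1

theorem deg_q0 : t.q 0 = t.u := by
  unfold q
  rw [if_neg (by norm_num), if_pos rfl]

theorem deg_q1 : t.q 1 = t.y 0 := by
  unfold q
  rw [if_neg (by norm_num), if_neg (by norm_num), if_pos (by norm_num)]
  norm_num

theorem deg_kap_sdiff : t.kap \ {t.u, t.y 0} = (Icc (2 : ℤ) (2 * t.k + 2)).image t.q := by
  ext x
  rw [t.q_kap, Finset.mem_sdiff, Finset.mem_image, Finset.mem_image, Finset.mem_insert,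
    Finset.mem_singleton, ← t.deg_q0, ← t.deg_q1]
  constructor
  · rintro ⟨⟨a, ha, rfl⟩, h2⟩
    refine ⟨a, ?_, rfl⟩
    rw [Finset.mem_Icc] at ha ⊢
    refine ⟨?_, ha.2⟩
    by_contra h3
    apply h2
    have : a = 0 ∨ a = 1 := by omega
    rcases this with rfl | rfl
    · exact Or.inl rfl
    · exact Or.inr rfl
  · rintro ⟨a, ha, rfl⟩
    rw [Finset.mem_Icc] at ha
    refine ⟨⟨a, ?_, rfl⟩, ?_⟩
    · rw [Finset.mem_Icc]
      omega
    · have hinj := t.q_inj
      have hk : (0 : ℤ) ≤ t.k := Int.natCast_nonneg _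
      have h0 : (0 : ℤ) ∈ ((Icc (-1 : ℤ) (2 * t.k + 2) : Finset ℤ) : Set ℤ) := by
        rw [Finset.mem_coe, Finset.mem_Icc]
        omega
      have h1 : (1 : ℤ) ∈ ((Icc (-1 : ℤ) (2 * t.k + 2) : Finset ℤ) : Set ℤ) := by
        rw [Finset.mem_coe, Finset.mem_Icc]
        omega
      have h2 : a ∈ ((Icc (-1 : ℤ) (2 * t.k + 2) : Finset ℤ) : Set ℤ) := by
        rw [Finset.mem_coe, Finset.mem_Icc]
        omega
      rintro (h | h)
      · have := hinj h2 h0 h
        omega
      · have := hinj h2 h1 h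
        omega

end JStrip

namespace DSys

variable {M : Type*} {σ : Sys0 M} (D : DSys σ) [Fintype M]

/-- for a bad strip: `K G = K kap * K {p} * K (G \ cls)` and `K (G \ tri) = K (kap \ {u, y 0}) * K (G \ cls)`, with `K kap = K Zz [0, N-1]`, `K (kap \ {u, y 0}) = K Zz [2, N-1]` (`K_S`) -/
theorem K_sdiff_tri {G : Finset M} (hG : D.Stage G) {i : D.ι} (hi : (D.st i).u ∈ G)
    {N : ℕ} (hN : 2 * (D.st i).k + 3 = N) (hk : 1 ≤ (D.st i).k) :
    K σ.S.toEG (G \ (D.st i).tri) * (K Zz.toEG (Icc (0 : ℤ) (N - 1)) * K Zz.toEG {0}) =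
      K σ.S.toEG G * K Zz.toEG (Icc (2 : ℤ) (N - 1)) := by
  have hcls := hG.cls_subset hi
  set t := D.st i with ht
  have hNk : ((N : ℤ) - 1) = 2 * t.k + 2 := by
    rw [← hN]
    push_cast
    ring
  have hpk : t.p ∉ t.kap := t.p_notMem_kap
  -- the two products
  have h1 : K Zz.toEG (Icc (0 : ℤ) (N - 1)) = K σ.S.toEG t.kap := by
    rw [hNk, t.q_kap, t.K_S (Finset.Subset.refl _)]
  have h2 : K Zz.toEG (Icc (2 : ℤ) (N - 1)) = K σ.S.toEG (t.kap \ {t.u, t.y 0}) := by
    rw [hNk, t.deg_kap_sdiff, t.K_S]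
    intro x hx
    rw [Finset.mem_Icc] at hx ⊢
    omega
  have hsub : t.kap ⊆ t.cls := Finset.subset_insert _ _
  have hG1 : G = (t.kap ∪ {t.p}) ∪ (G \ t.cls) := by
    ext x
    simp only [Finset.mem_union, Finset.mem_sdiff, Finset.mem_singleton, JStrip.cls,
      Finset.mem_insert, not_or]
    constructor
    · intro hx
      by_cases h3 : x ∈ t.kap
      · exact Or.inl (Or.inl h3)
      · by_cases h4 : x = t.p
        · exact Or.inl (Or.inr h4)
        · exact Or.inr ⟨hx, h4, h3⟩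
    · rintro ((h3 | h3) | h3)
      · exact hcls (hsub h3)
      · rw [h3]
        exact hcls (Finset.mem_insert_self _ _)
      · exact h3.1
  have hG2 : G \ t.tri = (t.kap \ {t.u, t.y 0}) ∪ (G \ t.cls) := by
    have hu : t.u ∈ t.kap := by
      unfold JStrip.kap
      exact Finset.mem_insert_self _ _
    have hy : t.y 0 ∈ t.kap := by
      unfold JStrip.kap
      refine Finset.mem_insert_of_mem (Finset.mem_union_left _ (Finset.mem_image_of_mem _ ?_))
      rw [Finset.mem_range]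
      omega
    ext x
    simp only [Finset.mem_union, Finset.mem_sdiff, Finset.mem_singleton, JStrip.cls,
      Finset.mem_insert, not_or, JStrip.tri]
    constructor
    · rintro ⟨hx, h3, h4, h5⟩
      by_cases h6 : x ∈ t.kap
      · exact Or.inl ⟨h6, h4, h5⟩
      · exact Or.inr ⟨hx, h3, h6⟩
    · rintro (⟨h3, h4, h5⟩ | ⟨h3, h4, h5⟩)
      · refine ⟨hcls (hsub h3), ?_, h4, h5⟩
        rintro rfl
        exact hpk h3
      · refine ⟨h3, h4, ?_, ?_⟩
        · rintro rfl
          exact h5 hu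
        · rintro rfl
          exact h5 hy
  have hedge : ∀ x ∈ t.kap, ∀ y, y ∉ t.kap → ¬ σ.S.e x y ∧ ¬ σ.S.e y x := fun x hx y hy =>
    ⟨fun h => hy (t.kap_closed hx (Or.inl h)), fun h => hy (t.kap_closed hx (Or.inr h))⟩
  have hK1 : K σ.S.toEG G = K σ.S.toEG t.kap * K σ.S.toEG {t.p} * K σ.S.toEG (G \ t.cls) := by
    conv_lhs => rw [hG1]
    rw [K_union, K_union]
    · rw [Finset.disjoint_singleton_right]
      exact hpk
    · intro x hx y hy
      rw [Finset.mem_singleton] at hy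
      rw [hy]
      exact hedge x hx _ hpk
    · rw [Finset.disjoint_left]
      intro x hx hx'
      apply (Finset.mem_sdiff.1 hx').2
      rw [Finset.mem_union, Finset.mem_singleton] at hx
      rcases hx with hx | hx
      · exact hsub hx
      · rw [hx]
        exact Finset.mem_insert_self _ _
    · intro x hx y hy
      have hy' := (Finset.mem_sdiff.1 hy).2
      rw [Finset.mem_union, Finset.mem_singleton] at hx
      rcases hx with hx | hx
      · exact hedge x hx y (fun h => hy' (hsub h))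
      · rw [hx]
        exact ⟨(t.pS y).2, (t.pS y).1⟩
  have hK2 : K σ.S.toEG (G \ t.tri) =
      K σ.S.toEG (t.kap \ {t.u, t.y 0}) * K σ.S.toEG (G \ t.cls) := by
    rw [hG2, K_union]
    · rw [Finset.disjoint_left]
      intro x hx hx'
      exact (Finset.mem_sdiff.1 hx').2 (hsub (Finset.mem_sdiff.1 hx).1)
    · intro x hx y hy
      exact hedge x (Finset.mem_sdiff.1 hx).1 y
        (fun h => (Finset.mem_sdiff.1 hy).2 (hsub h))
  rw [hK1, hK2, h1, h2, JStrip.deg_K_point σ.S.toEG t.p]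
  ring

/-- for a triple in a component with strip size `N`: `K G = K T * K (G \ T)`, `K (G \ {t,n,r}) = K (T \ {t,n,r}) * K (G \ T)` with `T = comp G t`. `{t, n, r} ⊆ B1 G`, it is lower in `G` (`n`, `r` are minimal,
the lower neighbours of `t` are `n`, `r`). So by `degree_comp_sdiff`: `deg K (G \ {t,n,r}) + single N 1 = deg K G + d` with `d` on indices `≤ N - 3` -/
theorem degree_trip (hL : σ.Links) {G : Finset M} (hG : σ.S.Low G) {q : M × M × M} (hq : q ∈ σ.trip G)
    (hmax : σ.maxS q.1) {N : ℕ} (hN : (σ.S.comp G q.1 ∩ σ.S.B1 G).card = N) :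
    ∃ d : ℕ →₀ ℕ, (∀ j, d j ≠ 0 → j + 3 ≤ N) ∧
      mo.degree (K σ.S.toEG (G \ {q.1, q.2.1, q.2.2})) + Finsupp.single N 1 =
        mo.degree (K σ.S.toEG G) + d := by
  obtain ⟨t, n, r⟩ := q
  simp only [Sys0.trip, Finset.mem_filter, Finset.mem_univ, true_and] at hq
  obtain ⟨ht, _, hn, hr, hnm, hrm⟩ := hq
  dsimp only at hmax hN ⊢
  have hcv : σ.S.Cvx G := EG.Low.cvx hG
  have hnG : n ∈ G := hG n t (Or.inl hn) ht
  have hrG : r ∈ G := hG r t (Or.inr hr) ht
  have htT : t ∈ σ.S.comp G t := EG.mem_comp.2 ⟨ht, EG.conn_refl _ _⟩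
  have hnT : n ∈ σ.S.comp G t := EG.comp_edge htT hnG (Or.inr (Or.inl hn))
  have hrT : r ∈ σ.S.comp G t := EG.comp_edge htT hrG (Or.inr (Or.inr hr))
  set L : Finset M := {t, n, r} with hLdef
  have hmemL : ∀ x, x ∈ L ↔ x = t ∨ x = n ∨ x = r := by
    intro x
    simp [hLdef]
  have hLT : L ⊆ σ.S.comp G t := by
    intro x hx
    rcases (hmemL x).1 hx with rfl | rfl | rfl
    · exact htT
    · exact hnT
    · exact hrT
  have hLG : L ⊆ G := fun x hx => (EG.mem_comp.1 (hLT hx)).1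
  have hlow : σ.S.LowIn G L := by
    refine ⟨hLG, fun x _ y hy hxy => ?_⟩
    rw [hmemL]
    rcases (hmemL y).1 hy with rfl | rfl | rfl
    · rcases hxy with h | h
      · exact Or.inr (Or.inl (σ.S.ls h hn))
      · exact Or.inr (Or.inr (σ.S.lw h hr))
    · exact (hnm x hxy).elim
    · exact (hrm x hxy).elim
  have hLB : L ⊆ σ.S.B1 G := by
    intro x hx
    rw [EG.e6_mem_B1]
    refine ⟨hLG hx, fun y _ z _ h1 h2 => ?_⟩
    rcases (hmemL x).1 hx with rfl | rfl | rfl
    · exact hmax y (Or.inl h1)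
    · have : y = t := σ.S.us h1 hn
      subst this
      exact hmax z (Or.inr h2)
    · obtain ⟨t', h3, h4⟩ := σ.S.sw h1 h2
      have : t' = t := σ.S.uw h3 hr
      subst this
      exact hmax z (Or.inl h4)
  have hcard : L.card = 3 := by
    have h1 := σ.S.lab_s hn
    have h2 := σ.S.lab_w hr
    have h3 : t ≠ n := by
      rintro rfl
      exact lt_irrefl _ h1
    have h4 : t ≠ r := by
      rintro rfl
      exact lt_irrefl _ h2
    have h5 : n ≠ r := by
      rintro rfl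
      exact lt_irrefl _ (h1.trans h2)
    rw [hLdef, Finset.card_insert_of_notMem (by simp [h3, h4]),
      Finset.card_insert_of_notMem (by simp [h5]), Finset.card_singleton]
  obtain ⟨d, e, hd, h1, h2⟩ := σ.S.degree_comp_sdiff hcv ht hlow hLT hLB
  rw [hN] at h2
  rw [hN, hcard] at hd
  refine ⟨d, hd, ?_⟩
  have hnedge : ∀ x ∈ σ.S.comp G t, ∀ y ∈ G \ σ.S.comp G t, ¬ σ.S.e x y ∧ ¬ σ.S.e y x := by
    intro x hx y hy
    rw [Finset.mem_sdiff] at hy
    exact ⟨fun h => hy.2 (EG.comp_edge hx hy.1 (Or.inl h)),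
      fun h => hy.2 (EG.comp_edge hx hy.1 (Or.inr h))⟩
  have hTG : σ.S.comp G t ⊆ G := fun x hx => (EG.mem_comp.1 hx).1
  have hK1 : K σ.S.toEG G = K σ.S.toEG (σ.S.comp G t) * K σ.S.toEG (G \ σ.S.comp G t) := by
    rw [← K_union _ Finset.disjoint_sdiff hnedge, Finset.union_sdiff_of_subset hTG]
  have hK2 : K σ.S.toEG (G \ L) =
      K σ.S.toEG (σ.S.comp G t \ L) * K σ.S.toEG (G \ σ.S.comp G t) := by
    rw [← K_union]
    · congr 1
      ext x
      simp only [Finset.mem_union, Finset.mem_sdiff]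
      constructor
      · rintro ⟨h3, h4⟩
        by_cases h5 : x ∈ σ.S.comp G t
        · exact Or.inl ⟨h5, h4⟩
        · exact Or.inr ⟨h3, h5⟩
      · rintro (⟨h3, h4⟩ | ⟨h3, h4⟩)
        · exact ⟨hTG h3, h4⟩
        · exact ⟨h3, fun h5 => h4 (hLT h5)⟩
    · rw [Finset.disjoint_left]
      intro x hx hx'
      exact (Finset.mem_sdiff.1 hx').2 (Finset.mem_sdiff.1 hx).1
    · intro x hx y hy
      exact hnedge x (Finset.mem_sdiff.1 hx).1 y hy
  rw [hK1, hK2, MonomialOrder.degree_mul (K_ne_zero _ _) (K_ne_zero _ _),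
    MonomialOrder.degree_mul (K_ne_zero _ _) (K_ne_zero _ _), h1, h2]
  abel

/-- Multiply the identity by `K Zz [0, N-1] * K Zz {0}`: the left side is `#bad * K G * K Zz [2, N-1]` of degree `deg K G + single (N-2) 1` (if `#bad ≠ 0`), each term on the right has degree
`deg K G + d + single 1 1` with `d` on indices `≤ N - 3` (`degree_Zg`, `mo.degree_mul` in the domain `MvPolynomial ℕ ℚ`), which is smaller (`mo_lt`, difference at the index `N - 2 ≥ 3`). -/
theorem no_bad (hL : σ.Links) (hA : σ.LSax) {G : Finset M} (hG : D.Stage G) {N : ℕ}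
    (hb : ∀ i ∈ D.badIn G, 2 * (D.st i).k + 3 = N)
    (ht : ∀ q ∈ σ.trip G, (σ.S.comp G q.1 ∩ σ.S.B1 G).card = N) : D.badIn G = ∅ := by
  by_contra hne
  obtain ⟨i0, hi0⟩ := Finset.nonempty_iff_ne_empty.2 hne
  have hmem : ∀ i ∈ D.badIn G, (D.st i).u ∈ G ∧ 1 ≤ (D.st i).k := by
    intro i hi
    simp only [badIn, stripsIn, Finset.mem_filter, Finset.mem_univ, true_and] at hi
    exact ⟨hi.1, hi.2.1⟩
  have hN5 : 5 ≤ N := by
    have h1 := hb i0 hi0
    have h2 := (hmem i0 hi0).2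
    omega
  have hp3 := D.p3 hL hA hG
  have hdeg0 : mo.degree (K Zz.toEG (Icc (0 : ℤ) (N - 1))) = Finsupp.single N 1 := by
    have h := degree_Zg 0 (N - 1)
    have h1 : ((0 : ℤ) + ((N - 1 : ℕ) : ℤ)) = (N : ℤ) - 1 := by omega
    have h2 : N - 1 + 1 = N := by omega
    rw [h1, h2] at h
    exact h
  have hdeg1 : mo.degree (K Zz.toEG {(0 : ℤ)}) = Finsupp.single 1 1 := by
    have h := degree_Zg 0 0
    have h1 : Icc (0 : ℤ) (0 + ((0 : ℕ) : ℤ)) = {0} := by simp
    rw [h1] at h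
    exact h
  have hdeg2 : mo.degree (K Zz.toEG (Icc (2 : ℤ) (N - 1))) = Finsupp.single (N - 2) 1 := by
    have h := degree_Zg 2 (N - 3)
    have h1 : ((2 : ℤ) + ((N - 3 : ℕ) : ℤ)) = (N : ℤ) - 1 := by omega
    have h2 : N - 3 + 1 = N - 2 := by omega
    rw [h1, h2] at h
    exact h
  have hmul : (K σ.S.toEG G * K Zz.toEG (Icc (2 : ℤ) (N - 1))) * C ((D.badIn G).card : ℚ) =
      ∑ q ∈ σ.trip G, K σ.S.toEG (G \ {q.1, q.2.1, q.2.2}) *
        (K Zz.toEG (Icc (0 : ℤ) (N - 1)) * K Zz.toEG {0}) := by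
    rw [← Finset.sum_mul, ← hp3, Finset.sum_mul]
    rw [Finset.sum_congr rfl (fun i hi => D.K_sdiff_tri hG (hmem i hi).1 (hb i hi) (hmem i hi).2)]
    rw [Finset.sum_const, nsmul_eq_mul, map_natCast, mul_comm]
  set P := K σ.S.toEG G * K Zz.toEG (Icc (2 : ℤ) (N - 1)) with hP
  have hPne : P ≠ 0 := mul_ne_zero (K_ne_zero _ _) (K_ne_zero _ _)
  have hPdeg : mo.degree P = mo.degree (K σ.S.toEG G) + Finsupp.single (N - 2) 1 := by
    rw [hP, MonomialOrder.degree_mul (K_ne_zero _ _) (K_ne_zero _ _), hdeg2]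
  have hcoeff : P.coeff (mo.degree P) ≠ 0 := by
    intro h
    exact hPne (mo.leadingCoeff_eq_zero_iff.1 h)
  have hcard : ((D.badIn G).card : ℚ) ≠ 0 := by
    exact_mod_cast (Finset.card_pos.2 ⟨i0, hi0⟩).ne'
  have h1 := congrArg (coeff (mo.degree P)) hmul
  rw [mul_comm P, coeff_C_mul, coeff_sum] at h1
  have h2 : ∑ q ∈ σ.trip G, coeff (mo.degree P) (K σ.S.toEG (G \ {q.1, q.2.1, q.2.2}) *
        (K Zz.toEG (Icc (0 : ℤ) (N - 1)) * K Zz.toEG {0})) = 0 := by
    refine Finset.sum_eq_zero fun q hq => ?_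
    have hmax : σ.maxS q.1 := by
      have hq' := hq
      simp only [Sys0.trip, Finset.mem_filter, Finset.mem_univ, true_and] at hq'
      obtain ⟨x, hx⟩ := hq'.2.1
      exact hA.tmax hx
    obtain ⟨d, hd, hdeg⟩ := degree_trip hL hG.jj.1 hq hmax (ht q hq)
    apply MonomialOrder.coeff_eq_zero_of_lt (m := mo)
    rw [MonomialOrder.degree_mul (K_ne_zero _ _) (mul_ne_zero (K_ne_zero _ _) (K_ne_zero _ _)),
      MonomialOrder.degree_mul (K_ne_zero _ _) (K_ne_zero _ _), hdeg0, hdeg1, ← add_assoc, hdeg,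
      hPdeg]
    apply mo_lt
    refine ⟨N - 2, fun j hj => ?_, ?_⟩
    · have h3 : d j = 0 := by
        by_contra h4
        have := hd j h4
        omega
      rw [Finsupp.add_apply, Finsupp.add_apply, Finsupp.add_apply, h3,
        Finsupp.single_eq_of_ne (by omega), Finsupp.single_eq_of_ne (by omega), add_zero,
        add_zero]
    · have h3 : d (N - 2) = 0 := by
        by_contra h4
        have := hd _ h4
        omega
      rw [Finsupp.add_apply, Finsupp.add_apply, Finsupp.add_apply, h3,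
        Finsupp.single_eq_of_ne (by omega), Finsupp.single_eq_same]
      omega
  rw [h2] at h1
  exact (mul_ne_zero hcard hcoeff) h1

end DSys

end Pool.PP2
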