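import Pool.Agent.Lib.PP2.D.Defs

/-!
# Chunk D-ZId: sums over lower sets of zigzags (linear extensions)
-/

namespace Pool.PP2

open Finset Classical MvPolynomial

section

variable {M : Type*}

/-- `coprod` at `p_1 = a`, `p_1 = b` -/
theorem Skew.epsc_add (Q : Skew M) {A : Type*} [CommRing A] [Algebra ℚ A] (a b : A) {F : Finset M} (hF : Q.Cvx F) :
    epsc (a + b) (K Q.toEG F) = ∑ L ∈ Q.lows F, epsc a (K Q.toEG L) * epsc b (K Q.toEG (F \ L)) := by
  have h := congrArg (aeval (Sum.elim (fun j => if j = 1 then a else 0)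
    (fun j => if j = 1 then b else 0)) : MvPolynomial (ℕ ⊕ ℕ) ℚ →ₐ[ℚ] A) (Q.coprod hF)
  rw [aeval_bind₁, map_sum] at h
  have h1 : (fun j : ℕ => aeval (Sum.elim (fun j => if j = 1 then a else 0)
      (fun j => if j = 1 then b else 0)) (X (Sum.inl j) + X (Sum.inr j) : MvPolynomial (ℕ ⊕ ℕ) ℚ)) =
      fun j => if j = 1 then a + b else 0 := by
    funext j
    rw [map_add, aeval_X, aeval_X, Sum.elim_inl, Sum.elim_inr]
    by_cases hj : j = 1
    · rw [if_pos hj, if_pos hj, if_pos hj]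
    · rw [if_neg hj, if_neg hj, if_neg hj, add_zero]
  rw [h1] at h
  unfold epsc
  rw [h]
  apply sum_congr rfl
  intro L _
  rw [map_mul, aeval_rename, aeval_rename, Sum.elim_comp_inl, Sum.elim_comp_inr]

theorem dzid_epsc_X {A : Type*} [CommRing A] [Algebra ℚ A] (a : A) (j : ℕ) :
    epsc a (X j : Lam ℚ) = if j = 1 then a else 0 := by
  unfold epsc
  rw [aeval_X]

theorem dzid_K_single (Q : EG M) (x : M) : K Q {x} = X 1 := by
  have h := K_eq Q {x}
  rw [card_singleton, Nat.cast_one, C_1, one_mul] at h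
  rw [h]
  have h1 : Q.lows {x} = {∅, {x}} := by
    ext L
    rw [EG.lows, mem_filter, mem_powerset, subset_singleton_iff, mem_insert, mem_singleton]
    constructor
    · exact fun h => h.1
    · rintro (rfl | rfl)
      · exact ⟨Or.inl rfl, empty_subset _, fun a _ b hb => absurd hb (notMem_empty b)⟩
      · exact ⟨Or.inr rfl, Subset.rfl, fun a ha b _ _ => ha⟩
  rw [h1, sum_pair (Finset.singleton_ne_empty x).symm, Q.cr_empty, Q.cr_singleton, C_0, C_1,
    zero_mul, zero_mul, zero_add, one_mul, card_singleton, Finset.sdiff_self, K_empty, mul_one]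

theorem epsc_single (Q : EG M) {A : Type*} [CommRing A] [Algebra ℚ A] (a : A) (x : M) : epsc a (K Q {x}) = a := by
  rw [dzid_K_single, dzid_epsc_X, if_pos rfl]

theorem epsc_zero (Q : EG M) {F : Finset M} (hF : F ≠ ∅) : epsc (0 : ℚ) (K Q F) = 0 := by
  have h : (fun j : ℕ => if j = 1 then (0 : ℚ) else 0) = 0 := by
    funext j
    rw [ite_self]
    rfl
  have h1 : epsc (0 : ℚ) (K Q F) = constantCoeff (K Q F) := by
    unfold epsc
    rw [h, aeval_zero]
    rfl
  rw [h1, K_const Q hF]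

/-- `eps_pos` for `c > 0`: by homogeneity, or the same proof -/
theorem epsc_pos (Q : EG M) (F : Finset M) {c : ℚ} (hc : 0 < c) : 0 < epsc c (K Q F) := by
  induction F using Finset.strongInductionOn with
  | _ F ih =>
    by_cases h0 : F = ∅
    · rw [h0, K_empty, map_one]
      exact one_pos
    have hc' : (0 : ℚ) < F.card := by
      have := Finset.card_pos.2 (Finset.nonempty_iff_ne_empty.2 h0)
      exact_mod_cast this
    have h := congrArg (epsc c) (K_eq Q F)
    rw [map_mul, map_sum] at h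
    have h1 : epsc c (C (F.card : ℚ)) = (F.card : ℚ) := by
      rw [← algebraMap_eq, AlgHom.commutes]
      rfl
    rw [h1] at h
    have hnn : ∀ L ∈ Q.lows F, 0 ≤ epsc c (C (Q.cr L) * X L.card * K Q (F \ L)) := by
      intro L hL
      rw [map_mul, map_mul, dzid_epsc_X]
      by_cases hL1 : L.card = 1
      · obtain ⟨x, hx⟩ := Finset.card_eq_one.1 hL1
        rw [if_pos hL1, hx, Q.cr_singleton, C_1, map_one, one_mul]
        have hL' := (e4_mem_lows.1 hL).1
        rw [hx] at hL'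
        exact mul_nonneg hc.le
          (ih (F \ {x}) (Finset.sdiff_ssubset hL' (Finset.singleton_nonempty x))).le
      · rw [if_neg hL1, mul_zero, zero_mul]
    have hpos : 0 < ∑ L ∈ Q.lows F, epsc c (C (Q.cr L) * X L.card * K Q (F \ L)) := by
      obtain ⟨x, hx, hmin⟩ := Finset.exists_min_image F Q.rk (Finset.nonempty_iff_ne_empty.2 h0)
      have hxl : ({x} : Finset M) ∈ Q.lows F := by
        rw [e4_mem_lows]
        refine ⟨Finset.singleton_subset_iff.2 hx, ?_⟩
        intro a ha b hb hab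
        rw [Finset.mem_singleton] at hb
        subst hb
        exfalso
        have h2 := hmin a ha
        rcases hab with hab | hab
        · have := Q.rk_s hab
          omega
        · have := Q.rk_w hab
          omega
      apply Finset.sum_pos' hnn
      refine ⟨{x}, hxl, ?_⟩
      rw [map_mul, map_mul, dzid_epsc_X, Finset.card_singleton, if_pos rfl, Q.cr_singleton, C_1,
        map_one, one_mul]
      exact mul_pos hc (ih (F \ {x}) (Finset.sdiff_ssubset (Finset.singleton_subset_iff.2 hx)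
        (Finset.singleton_nonempty x)))
    rw [← h] at hpos
    exact (pos_iff_pos_of_mul_pos hpos).1 hc'

/-- chain rule -/
theorem dzid_chain (f : Polynomial ℚ) (p : Lam ℚ) :
    Polynomial.derivative (epsc f p) = Polynomial.derivative f * epsc f (pderiv 1 p) := by
  induction p using MvPolynomial.induction_on with
  | C a =>
    rw [pderiv_C, map_zero, mul_zero, ← algebraMap_eq, AlgHom.commutes]
    exact Polynomial.derivative_C
  | add p q hp hq =>
    rw [map_add, Polynomial.derivative_add, hp, hq, map_add, map_add, mul_add]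
  | mul_X p n hp =>
    rw [map_mul, Polynomial.derivative_mul, hp, pderiv_mul, map_add, map_mul, map_mul, dzid_epsc_X]
    by_cases hn : n = 1
    · subst hn
      rw [if_pos rfl, pderiv_X_self, map_one]
      ring
    · rw [if_neg hn, pderiv_X_of_ne hn, Polynomial.derivative_zero, map_zero]
      ring

theorem dzid_not_e_self (Q : EG M) (x : M) : ¬ Q.e x x := by
  rintro (h | h)
  · exact lt_irrefl _ (Q.rk_s h)
  · exact lt_irrefl _ (Q.rk_w h)

/-- removing a maximal element: derivative of the polynomial `epsc X (K F)`. (chain rule: `derivative (epsc f p) = derivative f * epsc f (pderiv 1 p)`, and `pderiv_up` for `n = 1`, `cr {x} = 1`) -/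
theorem Skew.derivative_epsc_up (Q : Skew M) {F : Finset M} (hF : Q.Cvx F) (f : Polynomial ℚ) :
    Polynomial.derivative (epsc f (K Q.toEG F)) = Polynomial.derivative f *
      ∑ x ∈ F.filter (fun x => ∀ z ∈ F, ¬ Q.e x z), epsc f (K Q.toEG (F.erase x)) := by
  rw [dzid_chain]
  congr 1
  have h := Q.pderiv_up (le_refl 1) hF
  rw [Nat.cast_one, C_1, one_mul] at h
  rw [h, map_sum]
  symm
  refine sum_bij (fun x _ => F.erase x) ?_ ?_ ?_ ?_
  · intro x hx
    rw [mem_filter] at hx
    have hsd : F \ F.erase x = {x} := by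
      rw [Finset.sdiff_erase hx.1, Finset.sdiff_self]
      rfl
    rw [mem_filter, hsd, card_singleton]
    refine ⟨e4_mem_lows.2 ⟨erase_subset _ _, ?_⟩, rfl⟩
    intro a ha b hb hab
    rw [mem_erase]
    refine ⟨?_, ha⟩
    rintro rfl
    exact hx.2 b (mem_of_mem_erase hb) hab
  · intro x hx y hy hxy
    rw [mem_filter] at hx hy
    by_contra hne
    have h1 : x ∈ F.erase y := mem_erase.2 ⟨hne, hx.1⟩
    rw [← hxy] at h1
    exact (notMem_erase x F) h1
  · intro L hL
    rw [mem_filter] at hL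
    obtain ⟨hL1, hL2⟩ := hL
    obtain ⟨x, hx⟩ := card_eq_one.1 hL2
    have hL' := e4_mem_lows.1 hL1
    have hxF : x ∈ F \ L := by rw [hx]; exact mem_singleton_self x
    have hLe : F.erase x = L := by
      ext y
      rw [mem_erase]
      constructor
      · rintro ⟨h1, h2⟩
        by_contra h3
        have h4 : y ∈ F \ L := mem_sdiff.2 ⟨h2, h3⟩
        rw [hx, mem_singleton] at h4
        exact h1 h4
      · intro h1
        exact ⟨fun h2 => (mem_sdiff.1 hxF).2 (h2 ▸ h1), hL'.1 h1⟩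
    refine ⟨x, ?_, hLe⟩
    rw [mem_filter]
    refine ⟨(mem_sdiff.1 hxF).1, ?_⟩
    intro z hz hxz
    by_cases hzL : z ∈ L
    · exact (mem_sdiff.1 hxF).2 (hL'.2 x (mem_sdiff.1 hxF).1 z hzL hxz)
    · have h4 : z ∈ F \ L := mem_sdiff.2 ⟨hz, hzL⟩
      rw [hx, mem_singleton] at h4
      subst h4
      exact dzid_not_e_self _ _ hxz
  · intro x hx
    rw [mem_filter] at hx
    have hsd : F \ F.erase x = {x} := by
      rw [Finset.sdiff_erase hx.1, Finset.sdiff_self]
      rfl
    rw [hsd, Q.cr_singleton, C_1, one_mul]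

/-- removing a minimal element (`pderiv_low`) -/
theorem Skew.derivative_epsc_low (Q : Skew M) {F : Finset M} (hF : Q.Cvx F) (f : Polynomial ℚ) :
    Polynomial.derivative (epsc f (K Q.toEG F)) = Polynomial.derivative f *
      ∑ x ∈ F.filter (fun x => ∀ z ∈ F, ¬ Q.e z x), epsc f (K Q.toEG (F.erase x)) := by
  rw [dzid_chain]
  congr 1
  have h := Q.pderiv_low (le_refl 1) hF
  rw [Nat.cast_one, C_1, one_mul] at h
  rw [h, map_sum]
  symm
  refine sum_bij (fun x _ => {x}) ?_ ?_ ?_ ?_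
  · intro x hx
    rw [mem_filter] at hx
    rw [mem_filter, card_singleton]
    refine ⟨e4_mem_lows.2 ⟨singleton_subset_iff.2 hx.1, ?_⟩, rfl⟩
    intro a ha b hb hab
    rw [mem_singleton] at hb
    subst hb
    exact absurd hab (hx.2 a ha)
  · intro x hx y hy hxy
    exact singleton_injective hxy
  · intro L hL
    rw [mem_filter] at hL
    obtain ⟨hL1, hL2⟩ := hL
    obtain ⟨x, rfl⟩ := card_eq_one.1 hL2
    have hL' := e4_mem_lows.1 hL1
    refine ⟨x, ?_, rfl⟩
    rw [mem_filter]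
    refine ⟨singleton_subset_iff.1 hL'.1, ?_⟩
    intro z hz hzx
    have h1 := hL'.2 z hz x (mem_singleton_self x) hzx
    rw [mem_singleton] at h1
    subst h1
    exact dzid_not_e_self _ _ hzx
  · intro x hx
    rw [Q.cr_singleton, C_1, one_mul, sdiff_singleton_eq_erase]

theorem dzid_insert_low {Q : EG M} {I L : Finset M} {x : M} (hL : Q.LowIn I L) (hx : x ∈ I) (hxL : x ∉ L) :
    Q.LowIn I (insert x L) ↔ ∀ z ∈ I \ L, ¬ Q.e z x := by
  constructor
  · intro h z hz hzx
    have h1 := h.2 z (mem_sdiff.1 hz).1 x (mem_insert_self _ _) hzx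
    rcases mem_insert.1 h1 with h2 | h2
    · subst h2
      exact dzid_not_e_self _ _ hzx
    · exact (mem_sdiff.1 hz).2 h2
  · intro h
    refine ⟨insert_subset hx hL.1, ?_⟩
    intro z hz y hy hzy
    rcases mem_insert.1 hy with h2 | h2
    · subst h2
      by_contra h3
      exact h z (mem_sdiff.2 ⟨hz, fun h4 => h3 (mem_insert_of_mem h4)⟩) hzy
    · exact mem_insert_of_mem (hL.2 z hz y h2 hzy)

/-- indicator -/
noncomputable def dzid_ind (p : Prop) : Polynomial ℚ := if p then 1 else 0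

theorem dzid_ind_pos {p : Prop} (h : p) : dzid_ind p = 1 := by unfold dzid_ind; rw [if_pos h]

theorem dzid_ind_neg {p : Prop} (h : ¬ p) : dzid_ind p = 0 := by unfold dzid_ind; rw [if_neg h]

/-- the derivative of a sum over lower sets with a condition `P` -/
theorem dzid_deriv (Q : Skew M) {I : Finset M} (hI : Q.Cvx I) (P : Finset M → Prop) (c : ℚ) :
    Polynomial.derivative (∑ L ∈ (Q.lows I).filter P, epsc (Polynomial.X : Polynomial ℚ) (K Q.toEG L) *
      epsc (Polynomial.C c - Polynomial.X) (K Q.toEG (I \ L))) =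
    ∑ x ∈ I, ∑ L ∈ (Q.lows I).filter (fun L => x ∉ L ∧ insert x L ∈ Q.lows I),
      (dzid_ind (P (insert x L)) - dzid_ind (P L)) *
        (epsc (Polynomial.X : Polynomial ℚ) (K Q.toEG L) *
          epsc (Polynomial.C c - Polynomial.X) (K Q.toEG ((I \ L).erase x))) := by
  have hterm : ∀ L ∈ (Q.lows I).filter P,
      Polynomial.derivative (epsc (Polynomial.X : Polynomial ℚ) (K Q.toEG L) *
        epsc (Polynomial.C c - Polynomial.X) (K Q.toEG (I \ L))) =
      (∑ x ∈ L.filter (fun x => ∀ z ∈ L, ¬ Q.e x z), epsc (Polynomial.X : Polynomial ℚ) (K Q.toEG (L.erase x)) *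
        epsc (Polynomial.C c - Polynomial.X) (K Q.toEG (I \ L))) -
      ∑ x ∈ (I \ L).filter (fun x => ∀ z ∈ I \ L, ¬ Q.e z x), epsc (Polynomial.X : Polynomial ℚ) (K Q.toEG L) *
        epsc (Polynomial.C c - Polynomial.X) (K Q.toEG ((I \ L).erase x)) := by
    intro L hL
    have hL' := e4_mem_lows.1 (mem_filter.1 hL).1
    rw [Polynomial.derivative_mul, Q.derivative_epsc_up (hI.low hL'), Q.derivative_epsc_low (hI.up hL'),
      Polynomial.derivative_sub, Polynomial.derivative_C, Polynomial.derivative_X, zero_sub, one_mul,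
      sum_mul, neg_one_mul, mul_neg, mul_sum]
    ring
  rw [Polynomial.derivative_sum, sum_congr rfl hterm, sum_sub_distrib]
  have h1 : ∑ L ∈ (Q.lows I).filter P,
      ∑ x ∈ L.filter (fun x => ∀ z ∈ L, ¬ Q.e x z), epsc (Polynomial.X : Polynomial ℚ) (K Q.toEG (L.erase x)) *
        epsc (Polynomial.C c - Polynomial.X) (K Q.toEG (I \ L)) =
      ∑ x ∈ I, ∑ L ∈ ((Q.lows I).filter (fun L => x ∉ L ∧ insert x L ∈ Q.lows I)).filter
        (fun L => P (insert x L)),
        epsc (Polynomial.X : Polynomial ℚ) (K Q.toEG L) *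
          epsc (Polynomial.C c - Polynomial.X) (K Q.toEG ((I \ L).erase x)) := by
    rw [sum_sigma', sum_sigma']
    refine sum_bij' (fun q _ => ⟨q.2, q.1.erase q.2⟩) (fun q _ => ⟨insert q.1 q.2, q.1⟩) ?_ ?_ ?_ ?_ ?_
    · rintro ⟨L, x⟩ hq
      rw [mem_sigma, mem_filter, mem_filter] at hq
      obtain ⟨⟨hL, hP⟩, hx, hmax⟩ := hq
      have hL' := e4_mem_lows.1 hL
      dsimp only at hx hmax hP ⊢
      rw [mem_sigma, mem_filter, mem_filter]
      dsimp only
      rw [insert_erase hx]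
      refine ⟨hL'.1 hx, ⟨e4_mem_lows.2 ⟨(erase_subset _ _).trans hL'.1, ?_⟩, notMem_erase _ _, hL⟩, hP⟩
      intro z hz y hy hzy
      refine mem_erase.2 ⟨?_, hL'.2 z hz y (mem_of_mem_erase hy) hzy⟩
      rintro rfl
      exact hmax y (mem_of_mem_erase hy) hzy
    · rintro ⟨x, L⟩ hq
      rw [mem_sigma, mem_filter, mem_filter] at hq
      obtain ⟨hx, ⟨hL, hxL, hi⟩, hP⟩ := hq
      have hL' := e4_mem_lows.1 hL
      dsimp only at hx hxL hi hP ⊢
      rw [mem_sigma, mem_filter, mem_filter]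
      refine ⟨⟨hi, hP⟩, mem_insert_self _ _, ?_⟩
      intro z hz hxz
      rcases mem_insert.1 hz with h2 | h2
      · subst h2
        exact dzid_not_e_self _ _ hxz
      · exact hxL (hL'.2 x hx z h2 hxz)
    · rintro ⟨L, x⟩ hq
      rw [mem_sigma, mem_filter, mem_filter] at hq
      dsimp only at hq ⊢
      rw [insert_erase hq.2.1]
    · rintro ⟨x, L⟩ hq
      rw [mem_sigma, mem_filter, mem_filter] at hq
      dsimp only at hq ⊢
      rw [erase_insert hq.2.1.2.1]
    · rintro ⟨L, x⟩ hq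
      rw [mem_sigma, mem_filter, mem_filter] at hq
      dsimp only at hq ⊢
      have h2 : (I \ L.erase x).erase x = I \ L := by
        ext y
        rw [mem_erase, mem_sdiff, mem_sdiff, mem_erase]
        constructor
        · rintro ⟨h3, h4, h5⟩
          exact ⟨h4, fun h6 => h5 ⟨h3, h6⟩⟩
        · rintro ⟨h3, h4⟩
          exact ⟨fun h6 => h4 (h6 ▸ hq.2.1), h3, fun h6 => h4 h6.2⟩
      rw [h2]
  have h2 : ∑ L ∈ (Q.lows I).filter P,
      ∑ x ∈ (I \ L).filter (fun x => ∀ z ∈ I \ L, ¬ Q.e z x), epsc (Polynomial.X : Polynomial ℚ) (K Q.toEG L) *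
        epsc (Polynomial.C c - Polynomial.X) (K Q.toEG ((I \ L).erase x)) =
      ∑ x ∈ I, ∑ L ∈ ((Q.lows I).filter (fun L => x ∉ L ∧ insert x L ∈ Q.lows I)).filter
        (fun L => P L),
        epsc (Polynomial.X : Polynomial ℚ) (K Q.toEG L) *
          epsc (Polynomial.C c - Polynomial.X) (K Q.toEG ((I \ L).erase x)) := by
    apply sum_comm'
    intro L x
    rw [mem_filter, mem_filter, mem_filter, mem_filter, mem_sdiff]
    constructor
    · rintro ⟨⟨hL, hP⟩, ⟨hx, hxL⟩, hmin⟩
      exact ⟨⟨⟨hL, hxL, e4_mem_lows.2 ((dzid_insert_low (e4_mem_lows.1 hL) hx hxL).2 hmin)⟩, hP⟩, hx⟩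
    · rintro ⟨⟨⟨hL, hxL, hi⟩, hP⟩, hx⟩
      exact ⟨⟨hL, hP⟩, ⟨hx, hxL⟩, (dzid_insert_low (e4_mem_lows.1 hL) hx hxL).1 (e4_mem_lows.1 hi)⟩
  rw [h1, h2, ← sum_sub_distrib]
  apply sum_congr rfl
  intro x _
  rw [sum_filter (fun L => P (insert x L)), sum_filter (fun L => P L), ← sum_sub_distrib]
  apply sum_congr rfl
  intro L _
  unfold dzid_ind
  split_ifs <;> ring

end

/-- shift by two, `K_image` -/
theorem Zz_shift (A : Finset ℤ) (m : ℤ) : K Zz.toEG (A.image (fun x => x + 2 * m)) = K Zz.toEG A := by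
  have key : K Zz.toEG A = K Zz.toEG (@Finset.image ℤ ℤ (fun a b => propDecidable (a = b))
      (fun x => x + 2 * m) A) := by
   apply K_image
   · intro a _ b _ h
     have h' : a + 2 * m = b + 2 * m := h
     omega
   · intro x _ y _
     show (y = x - 1 ∧ x % 2 = 1) ↔ (y + 2 * m = x + 2 * m - 1 ∧ (x + 2 * m) % 2 = 1)
     omega
   · intro x _ y _
     show (y = x + 1 ∧ x % 2 = 1) ↔ (y + 2 * m = x + 2 * m + 1 ∧ (x + 2 * m) % 2 = 1)
     omega
  rw [key]
  exact congrArg (K Zz.toEG) (Finset.ext fun x => by simp only [Finset.mem_image])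

/-- sums over the lower sets of an interval of the zigzag with a condition on the two ends -/
noncomputable def ZU {A : Type*} [CommRing A] [Algebra ℚ A] (i j : ℤ) (P Q : Prop) (a b : A) : A :=
  ∑ L ∈ (Zz.lows (Icc i j)).filter (fun L => (i ∈ L ↔ P) ∧ (j ∈ L ↔ Q)),
    epsc a (K Zz.toEG L) * epsc b (K Zz.toEG (Icc i j \ L))

theorem dzid_mem_shift {L : Finset ℤ} {m x : ℤ} : x ∈ L.image (fun y => y + 2 * m) ↔ x - 2 * m ∈ L := by
  rw [mem_image]
  constructor
  · rintro ⟨y, hy, rfl⟩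
    rwa [add_sub_cancel_right]
  · intro h
    exact ⟨x - 2 * m, h, by ring⟩

theorem dzid_low_iff {F L : Finset ℤ} : Zz.LowIn F L ↔ L ⊆ F ∧
    ∀ y ∈ L, y % 2 = 0 → (y - 1 ∈ F → y - 1 ∈ L) ∧ (y + 1 ∈ F → y + 1 ∈ L) := by
  constructor
  · rintro ⟨h1, h2⟩
    refine ⟨h1, fun y hy h0 => ⟨fun h => h2 _ h y hy (Or.inr ⟨?_, ?_⟩), fun h => h2 _ h y hy (Or.inl ⟨?_, ?_⟩)⟩⟩
      <;> omega
  · rintro ⟨h1, h2⟩
    refine ⟨h1, ?_⟩
    rintro x hx y hy (⟨h3, h4⟩ | ⟨h3, h4⟩)
    · have h5 : x = y + 1 := by omega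
      rw [h5] at hx ⊢
      exact (h2 y hy (by omega)).2 hx
    · have h5 : x = y - 1 := by omega
      rw [h5] at hx ⊢
      exact (h2 y hy (by omega)).1 hx

theorem dzid_mem_lows {F L : Finset ℤ} : L ∈ Zz.lows F ↔ L ⊆ F ∧
    ∀ y ∈ L, y % 2 = 0 → (y - 1 ∈ F → y - 1 ∈ L) ∧ (y + 1 ∈ F → y + 1 ∈ L) := by
  rw [e4_mem_lows, dzid_low_iff]

/-- every finite set is convex in the zigzag -/
theorem dzid_cvx (F : Finset ℤ) : Zz.Cvx F := by
  have hmem : ∀ x, x ∈ F ∪ (F.image (fun y => y - 1) ∪ F.image (fun y => y + 1)).filter (fun x => x % 2 = 1) ↔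
      x ∈ F ∨ ((x + 1 ∈ F ∨ x - 1 ∈ F) ∧ x % 2 = 1) := by
    intro x
    rw [mem_union, mem_filter, mem_union, mem_image, mem_image]
    constructor
    · rintro (h | ⟨⟨y, hy, rfl⟩ | ⟨y, hy, rfl⟩, h⟩)
      · exact Or.inl h
      · exact Or.inr ⟨Or.inl (by rwa [sub_add_cancel]), h⟩
      · exact Or.inr ⟨Or.inr (by rwa [add_sub_cancel_right]), h⟩
    · rintro (h | ⟨h | h, h'⟩)
      · exact Or.inl h
      · exact Or.inr ⟨Or.inl ⟨x + 1, h, by ring⟩, h'⟩
      · exact Or.inr ⟨Or.inr ⟨x - 1, h, by ring⟩, h'⟩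
  refine ⟨(F ∪ (F.image (fun y => y - 1) ∪ F.image (fun y => y + 1)).filter (fun x => x % 2 = 1)) \ F,
    F ∪ (F.image (fun y => y - 1) ∪ F.image (fun y => y + 1)).filter (fun x => x % 2 = 1), ?_, ?_, ?_, ?_⟩
  · intro x y hxy hy
    exfalso
    rw [mem_sdiff, hmem] at hy
    have h1 : y % 2 = 0 := by
      rcases hxy with ⟨h1, h2⟩ | ⟨h1, h2⟩ <;> omega
    rcases hy.1 with h2 | ⟨-, h2⟩
    · exact hy.2 h2
    · omega
  · intro x y hxy hy
    rw [hmem] at hy ⊢
    rcases hxy with ⟨h1, h2⟩ | ⟨h1, h2⟩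
    · rcases hy with h3 | ⟨-, h3⟩
      · exact Or.inr ⟨Or.inr (by rwa [← h1]), h2⟩
      · omega
    · rcases hy with h3 | ⟨-, h3⟩
      · exact Or.inr ⟨Or.inl (by rwa [← h1]), h2⟩
      · omega
  · exact sdiff_subset
  · ext x
    simp only [mem_sdiff, mem_union]
    tauto

theorem ZU_shift {A : Type*} [CommRing A] [Algebra ℚ A] (i j m : ℤ) (P Q : Prop) (a b : A) :
    ZU (i + 2 * m) (j + 2 * m) P Q a b = ZU i j P Q a b := by
  unfold ZU
  symm
  have hI : Icc (i + 2 * m) (j + 2 * m) = (Icc i j).image (fun y => y + 2 * m) := by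
    ext x
    rw [dzid_mem_shift, mem_Icc, mem_Icc]
    omega
  have hlow : ∀ L : Finset ℤ, L ∈ Zz.lows (Icc i j) ↔
      L.image (fun y => y + 2 * m) ∈ Zz.lows (Icc (i + 2 * m) (j + 2 * m)) := by
    intro L
    rw [dzid_mem_lows, dzid_mem_lows]
    constructor
    · rintro ⟨h1, h2⟩
      refine ⟨?_, ?_⟩
      · rw [hI]
        exact image_subset_image h1
      · intro y hy hy0
        rw [dzid_mem_shift] at hy
        have h3 := h2 _ hy (by omega)
        rw [dzid_mem_shift, dzid_mem_shift, hI, dzid_mem_shift, dzid_mem_shift]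
        have e1 : y - 1 - 2 * m = y - 2 * m - 1 := by ring
        have e2 : y + 1 - 2 * m = y - 2 * m + 1 := by ring
        rw [e1, e2]
        exact h3
    · rintro ⟨h1, h2⟩
      have hm : ∀ y, y ∈ L ↔ y + 2 * m ∈ L.image (fun y => y + 2 * m) := by
        intro y
        rw [dzid_mem_shift, add_sub_cancel_right]
      refine ⟨?_, ?_⟩
      · intro y hy
        have h3 := h1 ((hm y).1 hy)
        rw [mem_Icc] at h3 ⊢
        omega
      · intro y hy hy0
        have h3 := h2 _ ((hm y).1 hy) (by omega)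
        have e1 : y + 2 * m - 1 = y - 1 + 2 * m := by ring
        have e2 : y + 2 * m + 1 = y + 1 + 2 * m := by ring
        rw [e1, e2, ← hm, ← hm, hI, dzid_mem_shift, dzid_mem_shift, add_sub_cancel_right,
          add_sub_cancel_right] at h3
        exact h3
  refine sum_bij' (fun L _ => L.image (fun y => y + 2 * m)) (fun L _ => L.image (fun y => y + 2 * (-m)))
    ?_ ?_ ?_ ?_ ?_
  · intro L hL
    rw [mem_filter] at hL ⊢
    refine ⟨(hlow L).1 hL.1, ?_⟩
    rw [dzid_mem_shift, dzid_mem_shift, add_sub_cancel_right, add_sub_cancel_right]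
    exact hL.2
  · intro L hL
    rw [mem_filter] at hL ⊢
    have hL2 : (L.image (fun y => y + 2 * (-m))).image (fun y => y + 2 * m) = L := by
      ext x
      rw [dzid_mem_shift, dzid_mem_shift]
      have e1 : x - 2 * m - 2 * -m = x := by ring
      rw [e1]
    refine ⟨(hlow _).2 (by rw [hL2]; exact hL.1), ?_⟩
    rw [dzid_mem_shift, dzid_mem_shift]
    have e1 : i - 2 * -m = i + 2 * m := by ring
    have e2 : j - 2 * -m = j + 2 * m := by ring
    rw [e1, e2]
    exact hL.2
  · intro L _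
    ext x
    rw [dzid_mem_shift, dzid_mem_shift]
    have e1 : x - 2 * -m - 2 * m = x := by ring
    rw [e1]
  · intro L _
    ext x
    rw [dzid_mem_shift, dzid_mem_shift]
    have e1 : x - 2 * m - 2 * -m = x := by ring
    rw [e1]
  · intro L _
    have h3 : Icc (i + 2 * m) (j + 2 * m) \ L.image (fun y => y + 2 * m) =
        (Icc i j \ L).image (fun y => y + 2 * m) := by
      ext x
      rw [mem_sdiff, hI, dzid_mem_shift, dzid_mem_shift, dzid_mem_shift, mem_sdiff]
    rw [h3, Zz_shift, Zz_shift]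

theorem dzid_dec : (fun a b : ℤ => propDecidable (a = b)) = (Int.instDecidableEq : DecidableEq ℤ) :=
  Subsingleton.elim _ _

/-- a term of the derivative -/
noncomputable def dzid_t (c : ℚ) (I L : Finset ℤ) (x : ℤ) : Polynomial ℚ :=
  epsc (Polynomial.X : Polynomial ℚ) (K Zz.toEG L) *
    epsc (Polynomial.C c - Polynomial.X) (K Zz.toEG ((I \ L).erase x))

theorem dzid_ZU_eq {A : Type*} [CommRing A] [Algebra ℚ A] (i j : ℤ) (P Q : Prop) (a b : A)
    (S : Finset (Finset ℤ)) (hS : ∀ L, L ∈ S ↔ (L ∈ Zz.lows (Icc i j) ∧ (i ∈ L ↔ P) ∧ (j ∈ L ↔ Q))) :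
    ZU i j P Q a b = ∑ L ∈ S, epsc a (K Zz.toEG L) * epsc b (K Zz.toEG (Icc i j \ L)) := by
  unfold ZU
  apply sum_congr _ (fun _ _ => rfl)
  ext L
  rw [mem_filter, hS]

theorem dzid_derivZ (i j : ℤ) (P Q : Prop) (c : ℚ) (hij : i < j) :
    Polynomial.derivative (ZU i j P Q (Polynomial.X : Polynomial ℚ) (Polynomial.C c - Polynomial.X)) =
      (∑ L ∈ (Zz.lows (Icc i j)).filter (fun L => i ∉ L ∧ insert i L ∈ Zz.lows (Icc i j)),
        (dzid_ind (P ∧ (j ∈ L ↔ Q)) - dzid_ind (¬ P ∧ (j ∈ L ↔ Q))) * dzid_t c (Icc i j) L i) +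
      ∑ L ∈ (Zz.lows (Icc i j)).filter (fun L => j ∉ L ∧ insert j L ∈ Zz.lows (Icc i j)),
        (dzid_ind ((i ∈ L ↔ P) ∧ Q) - dzid_ind ((i ∈ L ↔ P) ∧ ¬ Q)) * dzid_t c (Icc i j) L j := by
  obtain ⟨Pr, hPr⟩ : ∃ Pr : Finset ℤ → Prop, ∀ L, Pr L = ((i ∈ L ↔ P) ∧ (j ∈ L ↔ Q)) :=
    ⟨_, fun _ => rfl⟩
  have h := dzid_deriv Zz (dzid_cvx (Icc i j)) Pr c
  rw [dzid_dec] at h
  rw [dzid_ZU_eq i j P Q _ _ ((Zz.lows (Icc i j)).filter Pr) (by
    intro L
    rw [mem_filter, hPr]), h]
  have hlhs : ∀ x, ∑ L ∈ @Finset.filter _ (fun L => x ∉ L ∧ insert x L ∈ Zz.lows (Icc i j))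
      (fun a => propDecidable _) (Zz.lows (Icc i j)),
      (dzid_ind (Pr (insert x L)) - dzid_ind (Pr L)) *
        (epsc (Polynomial.X : Polynomial ℚ) (K Zz.toEG L) *
          epsc (Polynomial.C c - Polynomial.X) (K Zz.toEG ((Icc i j \ L).erase x))) =
      ∑ L ∈ (Zz.lows (Icc i j)).filter (fun L => x ∉ L ∧ insert x L ∈ Zz.lows (Icc i j)),
      (dzid_ind (Pr (insert x L)) - dzid_ind (Pr L)) * dzid_t c (Icc i j) L x := by
    intro x
    apply sum_congr _ (fun _ _ => rfl)
    ext L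
    simp only [mem_filter]
  rw [sum_eq_add i j hij.ne]
  · congr 1
    · refine Eq.trans ?_ (Eq.trans (hlhs i) ?_)
      · congr!
      apply sum_congr rfl
      intro L hL
      rw [mem_filter] at hL
      have e1 : (i ∈ insert i L) ↔ True := iff_true_intro (mem_insert_self _ _)
      have e2 : (j ∈ insert i L) ↔ j ∈ L := by
        rw [mem_insert]
        exact ⟨fun h => h.resolve_left hij.ne', Or.inr⟩
      have e3 : i ∈ L ↔ False := iff_false_intro hL.2.1
      rw [hPr, hPr, e2]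
      simp only [e1, e3, true_iff, false_iff]
    · refine Eq.trans ?_ (Eq.trans (hlhs j) ?_)
      · congr!
      apply sum_congr rfl
      intro L hL
      rw [mem_filter] at hL
      have e1 : (j ∈ insert j L) ↔ True := iff_true_intro (mem_insert_self _ _)
      have e2 : (i ∈ insert j L) ↔ i ∈ L := by
        rw [mem_insert]
        exact ⟨fun h => h.resolve_left hij.ne, Or.inr⟩
      have e3 : j ∈ L ↔ False := iff_false_intro hL.2.1
      rw [hPr, hPr, e2]
      simp only [e1, e3, true_iff, false_iff]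
  · intro x _ hx
    apply sum_eq_zero
    intro L _
    have e1 : (i ∈ insert x L) ↔ i ∈ L := by
      rw [mem_insert]
      exact ⟨fun h => h.resolve_left (Ne.symm hx.1), Or.inr⟩
    have e2 : (j ∈ insert x L) ↔ j ∈ L := by
      rw [mem_insert]
      exact ⟨fun h => h.resolve_left (Ne.symm hx.2), Or.inr⟩
    rw [hPr, hPr, e1, e2, sub_self, zero_mul]
  · intro h1
    exact absurd (mem_Icc.2 ⟨le_rfl, hij.le⟩) h1
  · intro h1
    exact absurd (mem_Icc.2 ⟨hij.le, le_rfl⟩) h1

/-- `i < j` both even (ends maximal), ends not in `L`. Derivative in `X` at `a = X`, `b = c - X`: terms with `L` from removing a maximal element of `L` cancel the terms from removing a minimal element of the complement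
(`L ↦ L ∪ x`), except for `x = i` (minimal in the complement iff `i + 1 ∈ L`) and `x = j`. -/
theorem ZU_deriv_ff {i j : ℤ} (hij : i < j) (hi : i % 2 = 0) (hj : j % 2 = 0) (c : ℚ) :
    Polynomial.derivative (ZU i j False False (Polynomial.X : Polynomial ℚ) (Polynomial.C c - Polynomial.X)) =
      - ZU (i + 1) j True False (Polynomial.X : Polynomial ℚ) (Polynomial.C c - Polynomial.X)
      - ZU i (j - 1) False True (Polynomial.X : Polynomial ℚ) (Polynomial.C c - Polynomial.X) := by
  rw [dzid_derivZ _ _ _ _ _ hij]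
  have h1 : ∑ L ∈ (Zz.lows (Icc i j)).filter (fun L => i ∉ L ∧ insert i L ∈ Zz.lows (Icc i j)),
        (dzid_ind (False ∧ (j ∈ L ↔ False)) - dzid_ind (¬ False ∧ (j ∈ L ↔ False))) *
          dzid_t c (Icc i j) L i =
      - ZU (i + 1) j True False (Polynomial.X : Polynomial ℚ) (Polynomial.C c - Polynomial.X) := by
    have e0 : ∀ L : Finset ℤ, (dzid_ind (False ∧ (j ∈ L ↔ False)) - dzid_ind (¬ False ∧ (j ∈ L ↔ False))) *
          dzid_t c (Icc i j) L i = if j ∉ L then - dzid_t c (Icc i j) L i else 0 := by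
      intro L
      by_cases hL : j ∈ L
      · simp [hL, dzid_ind]
      · simp [hL, dzid_ind]
    rw [sum_congr rfl (fun L _ => e0 L), ← sum_filter, dzid_ZU_eq (i + 1) j True False _ _
      (((Zz.lows (Icc i j)).filter (fun L => i ∉ L ∧ insert i L ∈ Zz.lows (Icc i j))).filter
        (fun L => j ∉ L)), ← sum_neg_distrib]
    rotate_left
    · intro L
      rw [mem_filter, mem_filter, dzid_mem_lows, dzid_mem_lows, dzid_mem_lows]
      constructor
      · rintro ⟨⟨⟨h1, h2⟩, h3, ⟨h4, h5⟩⟩, h6⟩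
        refine ⟨⟨?_, ?_⟩, ?_, ?_⟩
        · intro x hx
          have h7 := h1 hx
          have h8 : x ≠ i := fun h => h3 (h ▸ hx)
          rw [mem_Icc] at h7 ⊢
          omega
        · intro y hy hy0
          have h7 := h2 y hy hy0
          refine ⟨fun h => h7.1 ?_, fun h => h7.2 ?_⟩
          · rw [mem_Icc] at h ⊢
            omega
          · rw [mem_Icc] at h ⊢
            omega
        · have h7 := (h5 i (mem_insert_self _ _) hi).2 (by rw [mem_Icc]; omega)
          rw [mem_insert] at h7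
          exact iff_true_intro (h7.resolve_left (by omega))
        · exact iff_false_intro h6
      · rintro ⟨⟨h1, h2⟩, h3, h4⟩
        have h3' : i + 1 ∈ L := h3.2 trivial
        have hiL : i ∉ L := by
          intro h
          have := mem_Icc.1 (h1 h)
          omega
        have hsub : L ⊆ Icc i j := by
          intro x hx
          have := mem_Icc.1 (h1 hx)
          rw [mem_Icc]
          omega
        have hcl : ∀ y ∈ L, y % 2 = 0 → (y - 1 ∈ Icc i j → y - 1 ∈ L) ∧ (y + 1 ∈ Icc i j → y + 1 ∈ L) := by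
          intro y hy hy0
          have h7 := h2 y hy hy0
          have h8 := mem_Icc.1 (h1 hy)
          refine ⟨fun h => h7.1 ?_, fun h => h7.2 ?_⟩
          · rw [mem_Icc] at h ⊢
            omega
          · rw [mem_Icc] at h ⊢
            omega
        refine ⟨⟨⟨hsub, hcl⟩, hiL, ?_, ?_⟩, fun h => h4.1 h⟩
        · exact insert_subset (by rw [mem_Icc]; omega) hsub
        · intro y hy hy0
          rcases mem_insert.1 hy with rfl | hy
          · refine ⟨fun h => ?_, fun _ => mem_insert_of_mem h3'⟩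
            rw [mem_Icc] at h
            omega
          · have h7 := hcl y hy hy0
            exact ⟨fun h => mem_insert_of_mem (h7.1 h), fun h => mem_insert_of_mem (h7.2 h)⟩
    · apply sum_congr rfl
      intro L hL
      have hJ : (Icc i j \ L).erase i = Icc (i + 1) j \ L := by
        ext x
        rw [mem_erase, mem_sdiff, mem_sdiff, mem_Icc, mem_Icc]
        constructor
        · rintro ⟨h1, h2, h3⟩
          exact ⟨by omega, h3⟩
        · rintro ⟨h1, h2⟩
          exact ⟨by omega, by omega, h2⟩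
      unfold dzid_t
      rw [hJ]
  have h2 : ∑ L ∈ (Zz.lows (Icc i j)).filter (fun L => j ∉ L ∧ insert j L ∈ Zz.lows (Icc i j)),
        (dzid_ind ((i ∈ L ↔ False) ∧ False) - dzid_ind ((i ∈ L ↔ False) ∧ ¬ False)) *
          dzid_t c (Icc i j) L j =
      - ZU i (j - 1) False True (Polynomial.X : Polynomial ℚ) (Polynomial.C c - Polynomial.X) := by
    have e0 : ∀ L : Finset ℤ, (dzid_ind ((i ∈ L ↔ False) ∧ False) - dzid_ind ((i ∈ L ↔ False) ∧ ¬ False)) *
          dzid_t c (Icc i j) L j = if i ∉ L then - dzid_t c (Icc i j) L j else 0 := by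
      intro L
      by_cases hL : i ∈ L
      · simp [hL, dzid_ind]
      · simp [hL, dzid_ind]
    rw [sum_congr rfl (fun L _ => e0 L), ← sum_filter, dzid_ZU_eq i (j - 1) False True _ _
      (((Zz.lows (Icc i j)).filter (fun L => j ∉ L ∧ insert j L ∈ Zz.lows (Icc i j))).filter
        (fun L => i ∉ L)), ← sum_neg_distrib]
    rotate_left
    · intro L
      rw [mem_filter, mem_filter, dzid_mem_lows, dzid_mem_lows, dzid_mem_lows]
      constructor
      · rintro ⟨⟨⟨h1, h2⟩, h3, ⟨h4, h5⟩⟩, h6⟩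
        refine ⟨⟨?_, ?_⟩, ?_, ?_⟩
        · intro x hx
          have h7 := h1 hx
          have h8 : x ≠ j := fun h => h3 (h ▸ hx)
          rw [mem_Icc] at h7 ⊢
          omega
        · intro y hy hy0
          have h7 := h2 y hy hy0
          refine ⟨fun h => h7.1 ?_, fun h => h7.2 ?_⟩
          · rw [mem_Icc] at h ⊢
            omega
          · rw [mem_Icc] at h ⊢
            omega
        · exact iff_false_intro h6
        · have h7 := (h5 j (mem_insert_self _ _) hj).1 (by rw [mem_Icc]; omega)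
          rw [mem_insert] at h7
          exact iff_true_intro (h7.resolve_left (by omega))
      · rintro ⟨⟨h1, h2⟩, h4, h3⟩
        have h3' : j - 1 ∈ L := h3.2 trivial
        have hiL : j ∉ L := by
          intro h
          have := mem_Icc.1 (h1 h)
          omega
        have hsub : L ⊆ Icc i j := by
          intro x hx
          have := mem_Icc.1 (h1 hx)
          rw [mem_Icc]
          omega
        have hcl : ∀ y ∈ L, y % 2 = 0 → (y - 1 ∈ Icc i j → y - 1 ∈ L) ∧ (y + 1 ∈ Icc i j → y + 1 ∈ L) := by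
          intro y hy hy0
          have h7 := h2 y hy hy0
          have h8 := mem_Icc.1 (h1 hy)
          refine ⟨fun h => h7.1 ?_, fun h => h7.2 ?_⟩
          · rw [mem_Icc] at h ⊢
            omega
          · rw [mem_Icc] at h ⊢
            omega
        refine ⟨⟨⟨hsub, hcl⟩, hiL, ?_, ?_⟩, fun h => h4.1 h⟩
        · exact insert_subset (by rw [mem_Icc]; omega) hsub
        · intro y hy hy0
          rcases mem_insert.1 hy with rfl | hy
          · refine ⟨fun _ => mem_insert_of_mem h3', fun h => ?_⟩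
            rw [mem_Icc] at h
            omega
          · have h7 := hcl y hy hy0
            exact ⟨fun h => mem_insert_of_mem (h7.1 h), fun h => mem_insert_of_mem (h7.2 h)⟩
    · apply sum_congr rfl
      intro L hL
      have hJ : (Icc i j \ L).erase j = Icc i (j - 1) \ L := by
        ext x
        rw [mem_erase, mem_sdiff, mem_sdiff, mem_Icc, mem_Icc]
        constructor
        · rintro ⟨h1, h2, h3⟩
          exact ⟨by omega, h3⟩
        · rintro ⟨h1, h2⟩
          exact ⟨by omega, by omega, h2⟩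
      unfold dzid_t
      rw [hJ]
  rw [h1, h2]
  ring

/-- `i < j` both odd (ends minimal), ends in `L` -/
theorem ZU_deriv_tt {i j : ℤ} (hij : i < j) (hi : i % 2 = 1) (hj : j % 2 = 1) (c : ℚ) :
    Polynomial.derivative (ZU i j True True (Polynomial.X : Polynomial ℚ) (Polynomial.C c - Polynomial.X)) =
      ZU (i + 1) j False True (Polynomial.X : Polynomial ℚ) (Polynomial.C c - Polynomial.X)
      + ZU i (j - 1) True False (Polynomial.X : Polynomial ℚ) (Polynomial.C c - Polynomial.X) := by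
  rw [dzid_derivZ _ _ _ _ _ hij]
  have h1 : ∑ L ∈ (Zz.lows (Icc i j)).filter (fun L => i ∉ L ∧ insert i L ∈ Zz.lows (Icc i j)),
        (dzid_ind (True ∧ (j ∈ L ↔ True)) - dzid_ind (¬ True ∧ (j ∈ L ↔ True))) *
          dzid_t c (Icc i j) L i =
      ZU (i + 1) j False True (Polynomial.X : Polynomial ℚ) (Polynomial.C c - Polynomial.X) := by
    have e0 : ∀ L : Finset ℤ, (dzid_ind (True ∧ (j ∈ L ↔ True)) - dzid_ind (¬ True ∧ (j ∈ L ↔ True))) *
          dzid_t c (Icc i j) L i = if j ∈ L then dzid_t c (Icc i j) L i else 0 := by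
      intro L
      by_cases hL : j ∈ L
      · simp [hL, dzid_ind]
      · simp [hL, dzid_ind]
    rw [sum_congr rfl (fun L _ => e0 L), ← sum_filter, dzid_ZU_eq (i + 1) j False True _ _
      (((Zz.lows (Icc i j)).filter (fun L => i ∉ L ∧ insert i L ∈ Zz.lows (Icc i j))).filter
        (fun L => j ∈ L))]
    rotate_left
    · intro L
      rw [mem_filter, mem_filter, dzid_mem_lows, dzid_mem_lows, dzid_mem_lows]
      constructor
      · rintro ⟨⟨⟨h1, h2⟩, h3, ⟨h4, h5⟩⟩, h6⟩
        refine ⟨⟨?_, ?_⟩, ?_, ?_⟩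
        · intro x hx
          have h7 := h1 hx
          have h8 : x ≠ i := fun h => h3 (h ▸ hx)
          rw [mem_Icc] at h7 ⊢
          omega
        · intro y hy hy0
          have h7 := h2 y hy hy0
          refine ⟨fun h => h7.1 ?_, fun h => h7.2 ?_⟩
          · rw [mem_Icc] at h ⊢
            omega
          · rw [mem_Icc] at h ⊢
            omega
        · refine iff_false_intro (fun h => h3 ?_)
          have h7 := (h2 (i + 1) h (by omega)).1
          rw [add_sub_cancel_right] at h7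
          exact h7 (by rw [mem_Icc]; omega)
        · exact iff_true_intro h6
      · rintro ⟨⟨h1, h2⟩, h3, h4⟩
        have h3' : i + 1 ∉ L := fun h => h3.1 h
        have hiL : i ∉ L := by
          intro h
          have := mem_Icc.1 (h1 h)
          omega
        have hsub : L ⊆ Icc i j := by
          intro x hx
          have := mem_Icc.1 (h1 hx)
          rw [mem_Icc]
          omega
        have hcl : ∀ y ∈ L, y % 2 = 0 → (y - 1 ∈ Icc i j → y - 1 ∈ L) ∧ (y + 1 ∈ Icc i j → y + 1 ∈ L) := by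
          intro y hy hy0
          have h7 := h2 y hy hy0
          have h8 := mem_Icc.1 (h1 hy)
          have h9 : y ≠ i + 1 := fun h => h3' (h ▸ hy)
          refine ⟨fun h => h7.1 ?_, fun h => h7.2 ?_⟩
          · rw [mem_Icc] at h ⊢
            omega
          · rw [mem_Icc] at h ⊢
            omega
        refine ⟨⟨⟨hsub, hcl⟩, hiL, ?_, ?_⟩, h4.2 trivial⟩
        · exact insert_subset (by rw [mem_Icc]; omega) hsub
        · intro y hy hy0
          rcases mem_insert.1 hy with rfl | hy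
          · omega
          · have h7 := hcl y hy hy0
            exact ⟨fun h => mem_insert_of_mem (h7.1 h), fun h => mem_insert_of_mem (h7.2 h)⟩
    · apply sum_congr rfl
      intro L hL
      have hJ : (Icc i j \ L).erase i = Icc (i + 1) j \ L := by
        ext x
        rw [mem_erase, mem_sdiff, mem_sdiff, mem_Icc, mem_Icc]
        constructor
        · rintro ⟨h1, h2, h3⟩
          exact ⟨by omega, h3⟩
        · rintro ⟨h1, h2⟩
          exact ⟨by omega, by omega, h2⟩
      unfold dzid_t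
      rw [hJ]
  have h2 : ∑ L ∈ (Zz.lows (Icc i j)).filter (fun L => j ∉ L ∧ insert j L ∈ Zz.lows (Icc i j)),
        (dzid_ind ((i ∈ L ↔ True) ∧ True) - dzid_ind ((i ∈ L ↔ True) ∧ ¬ True)) *
          dzid_t c (Icc i j) L j =
      ZU i (j - 1) True False (Polynomial.X : Polynomial ℚ) (Polynomial.C c - Polynomial.X) := by
    have e0 : ∀ L : Finset ℤ, (dzid_ind ((i ∈ L ↔ True) ∧ True) - dzid_ind ((i ∈ L ↔ True) ∧ ¬ True)) *
          dzid_t c (Icc i j) L j = if i ∈ L then dzid_t c (Icc i j) L j else 0 := by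
      intro L
      by_cases hL : i ∈ L
      · simp [hL, dzid_ind]
      · simp [hL, dzid_ind]
    rw [sum_congr rfl (fun L _ => e0 L), ← sum_filter, dzid_ZU_eq i (j - 1) True False _ _
      (((Zz.lows (Icc i j)).filter (fun L => j ∉ L ∧ insert j L ∈ Zz.lows (Icc i j))).filter
        (fun L => i ∈ L))]
    rotate_left
    · intro L
      rw [mem_filter, mem_filter, dzid_mem_lows, dzid_mem_lows, dzid_mem_lows]
      constructor
      · rintro ⟨⟨⟨h1, h2⟩, h3, ⟨h4, h5⟩⟩, h6⟩
        refine ⟨⟨?_, ?_⟩, ?_, ?_⟩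
        · intro x hx
          have h7 := h1 hx
          have h8 : x ≠ j := fun h => h3 (h ▸ hx)
          rw [mem_Icc] at h7 ⊢
          omega
        · intro y hy hy0
          have h7 := h2 y hy hy0
          refine ⟨fun h => h7.1 ?_, fun h => h7.2 ?_⟩
          · rw [mem_Icc] at h ⊢
            omega
          · rw [mem_Icc] at h ⊢
            omega
        · exact iff_true_intro h6
        · refine iff_false_intro (fun h => h3 ?_)
          have h7 := (h2 (j - 1) h (by omega)).2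
          rw [sub_add_cancel] at h7
          exact h7 (by rw [mem_Icc]; omega)
      · rintro ⟨⟨h1, h2⟩, h4, h3⟩
        have h3' : j - 1 ∉ L := fun h => h3.1 h
        have hiL : j ∉ L := by
          intro h
          have := mem_Icc.1 (h1 h)
          omega
        have hsub : L ⊆ Icc i j := by
          intro x hx
          have := mem_Icc.1 (h1 hx)
          rw [mem_Icc]
          omega
        have hcl : ∀ y ∈ L, y % 2 = 0 → (y - 1 ∈ Icc i j → y - 1 ∈ L) ∧ (y + 1 ∈ Icc i j → y + 1 ∈ L) := by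
          intro y hy hy0
          have h7 := h2 y hy hy0
          have h8 := mem_Icc.1 (h1 hy)
          have h9 : y ≠ j - 1 := fun h => h3' (h ▸ hy)
          refine ⟨fun h => h7.1 ?_, fun h => h7.2 ?_⟩
          · rw [mem_Icc] at h ⊢
            omega
          · rw [mem_Icc] at h ⊢
            omega
        refine ⟨⟨⟨hsub, hcl⟩, hiL, ?_, ?_⟩, h4.2 trivial⟩
        · exact insert_subset (by rw [mem_Icc]; omega) hsub
        · intro y hy hy0
          rcases mem_insert.1 hy with rfl | hy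
          · omega
          · have h7 := hcl y hy hy0
            exact ⟨fun h => mem_insert_of_mem (h7.1 h), fun h => mem_insert_of_mem (h7.2 h)⟩
    · apply sum_congr rfl
      intro L hL
      have hJ : (Icc i j \ L).erase j = Icc i (j - 1) \ L := by
        ext x
        rw [mem_erase, mem_sdiff, mem_sdiff, mem_Icc, mem_Icc]
        constructor
        · rintro ⟨h1, h2, h3⟩
          exact ⟨by omega, h3⟩
        · rintro ⟨h1, h2⟩
          exact ⟨by omega, by omega, h2⟩
      unfold dzid_t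
      rw [hJ]
  rw [h1, h2]

/-- naturality of `epsc` -/
theorem dzid_epsc_map {A B : Type*} [CommRing A] [Algebra ℚ A] [CommRing B] [Algebra ℚ B]
    (g : A →ₐ[ℚ] B) (a : A) (p : Lam ℚ) : g (epsc a p) = epsc (g a) p := by
  unfold epsc
  rw [← AlgHom.comp_apply]
  congr 1
  ext j
  rw [AlgHom.comp_apply, aeval_X, aeval_X]
  by_cases h : j = 1
  · rw [if_pos h, if_pos h]
  · rw [if_neg h, if_neg h, map_zero]

theorem dzid_ZU_map {A B : Type*} [CommRing A] [Algebra ℚ A] [CommRing B] [Algebra ℚ B]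
    (g : A →ₐ[ℚ] B) (i j : ℤ) (P Q : Prop) (a b : A) :
    g (ZU i j P Q a b) = ZU i j P Q (g a) (g b) := by
  unfold ZU
  rw [map_sum]
  apply sum_congr rfl
  intro L _
  rw [map_mul, dzid_epsc_map, dzid_epsc_map]

/-- the value at `a = 0` -/
theorem dzid_ZU_zero_ff (i j : ℤ) (c : ℚ) : ZU i j False False (0 : ℚ) c = epsc c (K Zz.toEG (Icc i j)) := by
  have h0 : ∅ ∈ (Zz.lows (Icc i j)).filter (fun L => i ∉ L ∧ j ∉ L) := by
    rw [mem_filter, dzid_mem_lows]
    exact ⟨⟨empty_subset _, fun y hy => absurd hy (notMem_empty y)⟩, notMem_empty _, notMem_empty _⟩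
  rw [dzid_ZU_eq i j False False _ _ ((Zz.lows (Icc i j)).filter (fun L => i ∉ L ∧ j ∉ L)),
    sum_eq_single ∅]
  · rw [K_empty, map_one, one_mul, sdiff_empty]
  · intro L _ hL
    rw [epsc_zero _ hL, zero_mul]
  · intro h
    exact absurd h0 h
  · intro L
    rw [mem_filter]
    exact ⟨fun h => ⟨h.1, iff_false_intro h.2.1, iff_false_intro h.2.2⟩,
      fun h => ⟨h.1, fun h' => h.2.1.1 h', fun h' => h.2.2.1 h'⟩⟩

theorem dzid_ZU_zero_tt (i j : ℤ) (c : ℚ) : ZU i j True True (0 : ℚ) c = 0 := by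
  rw [dzid_ZU_eq i j True True _ _ ((Zz.lows (Icc i j)).filter (fun L => i ∈ L ∧ j ∈ L))]
  · apply sum_eq_zero
    intro L hL
    rw [mem_filter] at hL
    rw [epsc_zero _ (ne_empty_of_mem hL.2.1), zero_mul]
  · intro L
    rw [mem_filter]
    exact ⟨fun h => ⟨h.1, iff_true_intro h.2.1, iff_true_intro h.2.2⟩,
      fun h => ⟨h.1, h.2.1.2 trivial, h.2.2.2 trivial⟩⟩

/-- the tangent addition formula: the sum of the two polynomials is constant (previous lemmas and shift), value at `X = 0` -/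
theorem Z_id (k : ℕ) (a c : ℚ) :
    ZU 0 (2 * k + 2) False False a (c - a) + ZU (-1) (2 * k + 1) True True a (c - a) =
      epsc c (K Zz.toEG (Icc (0 : ℤ) (2 * k + 2))) := by
  set P : Polynomial ℚ := ZU 0 (2 * k + 2) False False (Polynomial.X : Polynomial ℚ) (Polynomial.C c - Polynomial.X) +
    ZU (-1) (2 * k + 1) True True (Polynomial.X : Polynomial ℚ) (Polynomial.C c - Polynomial.X) with hP
  have hder : Polynomial.derivative P = 0 := by
    rw [hP, Polynomial.derivative_add,
      ZU_deriv_ff (show (0 : ℤ) < 2 * k + 2 by omega) (by norm_num) (by omega) c,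
      ZU_deriv_tt (show (-1 : ℤ) < 2 * k + 1 by omega) (by norm_num) (by omega) c]
    have h1 := ZU_shift (-1) (2 * k + 1 - 1) 1 True False (Polynomial.X : Polynomial ℚ)
      (Polynomial.C c - Polynomial.X)
    have e1 : (-1 : ℤ) + 2 * 1 = 0 + 1 := by norm_num
    have e2 : (2 * k + 1 - 1 : ℤ) + 2 * 1 = 2 * k + 2 := by ring
    have e3 : (2 * k + 2 - 1 : ℤ) = 2 * k + 1 := by ring
    rw [e1, e2] at h1
    rw [h1, e3, neg_add_cancel]
    ring
  have hval : ∀ x : ℚ, P.eval x = ZU 0 (2 * k + 2) False False x (c - x) +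
      ZU (-1) (2 * k + 1) True True x (c - x) := by
    intro x
    rw [← Polynomial.coe_aeval_eq_eval, hP, map_add, dzid_ZU_map, dzid_ZU_map, map_sub,
      Polynomial.aeval_X, Polynomial.aeval_C]
    rfl
  have hconst := Polynomial.eq_C_of_derivative_eq_zero hder
  have h2 : P.eval a = P.eval 0 := by
    rw [hconst, Polynomial.eval_C, Polynomial.eval_C]
  rw [hval, hval, sub_zero, dzid_ZU_zero_ff, dzid_ZU_zero_tt, add_zero] at h2
  exact h2

/-- adding an isolated element -/
theorem dzid_isolated {F : Finset ℤ} {x : ℤ} (hx : x ∉ F) (h : ∀ y ∈ F, ¬ Zz.e x y ∧ ¬ Zz.e y x) :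
    epsc (1 : ℚ) (K Zz.toEG (insert x F)) = epsc (1 : ℚ) (K Zz.toEG F) := by
  have h1 : K Zz.toEG ({x} ∪ F) = K Zz.toEG {x} * K Zz.toEG F := by
    have h2 := K_union Zz.toEG (G := {x}) (H := F) (by
      rw [disjoint_singleton_left]
      exact hx) (by
      intro a ha y hy
      rw [mem_singleton] at ha
      subst ha
      exact h y hy)
    rw [dzid_dec] at h2
    exact h2
  rw [insert_eq, h1, map_mul, epsc_single, one_mul]

/-- the sum for one strip. `A` = lower set of `[-1, 2k+2]`; `0 ∉ A`: `-1` is free, factor `2`; `0 ∈ A`: `2k+2` is free, factor `2`; after removing the free element the sums are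
`ZU 0 (2k+2) F F + ZU 0 (2k+1) F T` and the part `0 ∈ A` of `ZU (-1) (2k+1) T T`; its part `0 ∉ A` is `ZU 0 (2k+1) F T` (`-1` isolated). -/
theorem Z_strip (k : ℕ) :
    ∑ A ∈ (Zz.lows (Icc (-1 : ℤ) (2 * k + 2))).filter (fun A => (0 : ℤ) ∈ A → (2 * k + 1 : ℤ) ∈ A),
      epsc (1 : ℚ) (K Zz.toEG (A.erase (2 * k + 2))) *
        epsc (1 : ℚ) (K Zz.toEG (Icc (0 : ℤ) (2 * k + 2) \ A)) =
      2 * epsc (2 : ℚ) (K Zz.toEG (Icc (0 : ℤ) (2 * k + 2))) := by
  obtain ⟨J, hJ⟩ : ∃ J, J = Icc (0 : ℤ) (2 * k + 1) := ⟨_, rfl⟩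
  have hJm : ∀ x, x ∈ J ↔ 0 ≤ x ∧ x ≤ 2 * k + 1 := fun x => by rw [hJ, mem_Icc]
  have hI1 : Icc (-1 : ℤ) (2 * k + 2) = insert (-1) (insert (2 * (k : ℤ) + 2) J) := by
    ext x
    rw [mem_insert, mem_insert, hJm, mem_Icc]
    omega
  have hI2 : Icc (0 : ℤ) (2 * k + 2) = insert (2 * (k : ℤ) + 2) J := by
    ext x
    rw [mem_insert, hJm, mem_Icc]
    omega
  have hI3 : Icc (-1 : ℤ) (2 * k + 1) = insert (-1) J := by
    ext x
    rw [mem_insert, hJm, mem_Icc]
    omega
  have hn1 : (-1 : ℤ) ∉ insert (2 * (k : ℤ) + 2) J := by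
    rw [mem_insert, hJm]
    omega
  have hn1' : (-1 : ℤ) ∉ J := by
    rw [hJm]
    omega
  have hn2 : (2 * (k : ℤ) + 2) ∉ J := by
    rw [hJm]
    omega
  -- the two sides as sums over `B ⊆ J`
  obtain ⟨E, hE⟩ : ∃ E : Finset ℤ → ℚ, ∀ F, E F = epsc (1 : ℚ) (K Zz.toEG F) := ⟨_, fun _ => rfl⟩
  simp only [← hE]
  have hZ := Z_id k 1 2
  have e0 : (2 : ℚ) - 1 = 1 := by norm_num
  rw [e0] at hZ
  rw [← hZ]
  have hlowJ : ∀ B ⊆ J, ∀ F, Zz.LowIn F B ↔ B ⊆ F ∧
      ∀ y ∈ B, y % 2 = 0 → (y - 1 ∈ F → y - 1 ∈ B) ∧ (y + 1 ∈ F → y + 1 ∈ B) :=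
    fun B _ F => dzid_low_iff
  have hL : ∑ A ∈ (Zz.lows (Icc (-1 : ℤ) (2 * k + 2))).filter (fun A => (0 : ℤ) ∈ A → (2 * k + 1 : ℤ) ∈ A),
      E (A.erase (2 * k + 2)) * E (Icc (0 : ℤ) (2 * k + 2) \ A) =
      ∑ A ∈ (Icc (-1 : ℤ) (2 * k + 2)).powerset, if (A ∈ Zz.lows (Icc (-1 : ℤ) (2 * k + 2)) ∧
        ((0 : ℤ) ∈ A → (2 * k + 1 : ℤ) ∈ A)) then
        E (A.erase (2 * k + 2)) * E (Icc (0 : ℤ) (2 * k + 2) \ A) else 0 := by
    rw [← sum_filter]
    apply sum_congr _ (fun _ _ => rfl)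
    ext A
    rw [mem_filter, mem_filter, mem_powerset]
    exact ⟨fun h => ⟨(dzid_mem_lows.1 h.1).1, h⟩, fun h => h.2⟩
  have hff : ZU 0 (2 * k + 2) False False (1 : ℚ) 1 =
      ∑ A ∈ (Icc (0 : ℤ) (2 * k + 2)).powerset, if (A ∈ Zz.lows (Icc (0 : ℤ) (2 * k + 2)) ∧
        (0 : ℤ) ∉ A ∧ (2 * k + 2 : ℤ) ∉ A) then E A * E (Icc (0 : ℤ) (2 * k + 2) \ A) else 0 := by
    rw [← sum_filter]
    simp only [hE]
    apply dzid_ZU_eq
    intro A
    rw [mem_filter, mem_powerset]
    exact ⟨fun h => ⟨h.2.1, iff_false_intro h.2.2.1, iff_false_intro h.2.2.2⟩,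
      fun h => ⟨(dzid_mem_lows.1 h.1).1, h.1, fun h' => h.2.1.1 h', fun h' => h.2.2.1 h'⟩⟩
  have htt : ZU (-1) (2 * k + 1) True True (1 : ℚ) 1 =
      ∑ A ∈ (Icc (-1 : ℤ) (2 * k + 1)).powerset, if (A ∈ Zz.lows (Icc (-1 : ℤ) (2 * k + 1)) ∧
        (-1 : ℤ) ∈ A ∧ (2 * k + 1 : ℤ) ∈ A) then E A * E (Icc (-1 : ℤ) (2 * k + 1) \ A) else 0 := by
    rw [← sum_filter]
    simp only [hE]
    apply dzid_ZU_eq
    intro A
    rw [mem_filter, mem_powerset]
    exact ⟨fun h => ⟨h.2.1, iff_true_intro h.2.2.1, iff_true_intro h.2.2.2⟩,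
      fun h => ⟨(dzid_mem_lows.1 h.1).1, h.1, h.2.1.2 trivial, h.2.2.2 trivial⟩⟩
  rw [hL, hff, htt, hI1, hI2, hI3, sum_powerset_insert hn1, sum_powerset_insert hn2,
    sum_powerset_insert hn2, sum_powerset_insert hn2, sum_powerset_insert hn1',
    ← sum_add_distrib, ← sum_add_distrib, ← sum_add_distrib, ← sum_add_distrib, ← sum_add_distrib,
    ← sum_add_distrib, mul_sum]
  apply sum_congr rfl
  intro B hB
  rw [mem_powerset] at hB
  obtain ⟨t, ht⟩ : ∃ t : ℤ, t = 2 * (k : ℤ) + 2 := ⟨_, rfl⟩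
  obtain ⟨r, hr⟩ : ∃ r : ℤ, r = 2 * (k : ℤ) + 1 := ⟨_, rfl⟩
  rw [← ht, ← hr]
  rw [← ht] at hI1 hI2 hn1 hn2
  rw [← hr] at hI3
  have hBm : ∀ x ∈ B, 0 ≤ x ∧ x ≤ 2 * k + 1 := fun x hx => (hJm x).1 (hB hx)
  have hmB : (-1 : ℤ) ∉ B := fun h => hn1' (hB h)
  have htB : t ∉ B := fun h => hn2 (hB h)
  have hrJ : r ∈ J := (hJm r).2 (by omega)
  have htm : t ≠ -1 := by omega
  have s1 : B.erase t = B := erase_eq_of_notMem htB
  have s2 : (insert t B).erase t = B := erase_insert htB
  have s3 : (insert (-1) B).erase t = insert (-1) B := by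
    apply erase_eq_of_notMem
    rw [mem_insert]
    exact fun h => h.elim htm htB
  have s4 : (insert (-1) (insert t B)).erase t = insert (-1) B := by
    rw [Finset.insert_comm, erase_insert]
    rw [mem_insert]
    exact fun h => h.elim htm htB
  have s5 : insert t J \ B = insert t (J \ B) := insert_sdiff_of_notMem _ htB
  have s6 : insert t J \ insert t B = J \ B := by
    ext x
    rw [mem_sdiff, mem_sdiff, mem_insert, mem_insert]
    constructor
    · rintro ⟨h1, h2⟩
      exact ⟨h1.resolve_left (fun h => h2 (Or.inl h)), fun h => h2 (Or.inr h)⟩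
    · rintro ⟨h1, h2⟩
      refine ⟨Or.inr h1, fun h => h.elim (fun h' => ?_) h2⟩
      exact hn2 (h' ▸ h1)
  have s7 : insert t J \ insert (-1) B = insert t (J \ B) := by
    ext x
    rw [mem_sdiff, mem_insert, mem_insert, mem_insert, mem_sdiff]
    constructor
    · rintro ⟨h1 | h1, h2⟩
      · exact Or.inl h1
      · exact Or.inr ⟨h1, fun h => h2 (Or.inr h)⟩
    · rintro (h1 | ⟨h1, h2⟩)
      · exact ⟨Or.inl h1, fun h => h.elim (fun h' => htm (h1 ▸ h')) (fun h' => htB (h1 ▸ h'))⟩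
      · exact ⟨Or.inr h1, fun h => h.elim (fun h' => hn1' (h' ▸ h1)) h2⟩
  have s8 : insert t J \ insert (-1) (insert t B) = J \ B := by
    ext x
    rw [mem_sdiff, mem_insert, mem_insert, mem_insert, mem_sdiff]
    constructor
    · rintro ⟨h1, h2⟩
      exact ⟨h1.resolve_left (fun h => h2 (Or.inr (Or.inl h))), fun h => h2 (Or.inr (Or.inr h))⟩
    · rintro ⟨h1, h2⟩
      refine ⟨Or.inr h1, fun h => h.elim (fun h' => hn1' (h' ▸ h1)) (fun h => h.elim (fun h' => hn2 (h' ▸ h1)) h2)⟩
  have s9 : insert (-1) J \ insert (-1) B = J \ B := by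
    ext x
    rw [mem_sdiff, mem_sdiff, mem_insert, mem_insert]
    constructor
    · rintro ⟨h1, h2⟩
      exact ⟨h1.resolve_left (fun h => h2 (Or.inl h)), fun h => h2 (Or.inr h)⟩
    · rintro ⟨h1, h2⟩
      exact ⟨Or.inr h1, fun h => h.elim (fun h' => hn1' (h' ▸ h1)) h2⟩
  -- lower sets
  have hup : ∀ {F : Finset ℤ}, J ⊆ F → ∀ {B' : Finset ℤ}, B ⊆ B' → (∀ x ∈ J, x ∈ B' → x ∈ B) →
      B' ∈ Zz.lows F → B ∈ Zz.lows J := by
    intro F hJF B' hBB' hback h
    rw [dzid_mem_lows] at h ⊢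
    refine ⟨hB, fun y hy hy0 => ?_⟩
    have h1 := h.2 y (hBB' hy) hy0
    exact ⟨fun h2 => hback _ h2 (h1.1 (hJF h2)), fun h2 => hback _ h2 (h1.2 (hJF h2))⟩
  have hJ1 : J ⊆ insert (-1) (insert t J) := fun x hx => mem_insert_of_mem (mem_insert_of_mem hx)
  have hJ2 : J ⊆ insert t J := fun x hx => mem_insert_of_mem hx
  have hJ3 : J ⊆ insert (-1) J := fun x hx => mem_insert_of_mem hx
  have hF1 : ∀ x, x ∈ insert (-1) (insert t J) ↔ -1 ≤ x ∧ x ≤ 2 * k + 2 := by
    intro x
    rw [← hI1, mem_Icc, ht]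
  have hF2 : ∀ x, x ∈ insert t J ↔ 0 ≤ x ∧ x ≤ 2 * k + 2 := by
    intro x
    rw [← hI2, mem_Icc, ht]
  have hF3 : ∀ x, x ∈ insert (-1) J ↔ -1 ≤ x ∧ x ≤ 2 * k + 1 := by
    intro x
    rw [← hI3, mem_Icc, hr]
  have c1 : B ∈ Zz.lows (insert (-1) (insert t J)) ↔ B ∈ Zz.lows J ∧ (0 : ℤ) ∉ B := by
    constructor
    · intro h
      refine ⟨hup hJ1 Subset.rfl (fun _ _ h => h) h, fun h0 => ?_⟩
      rw [dzid_mem_lows] at h
      exact hmB ((h.2 0 h0 (by norm_num)).1 ((hF1 _).2 (by omega)))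
    · rintro ⟨h, h0⟩
      rw [dzid_mem_lows] at h ⊢
      refine ⟨hB.trans hJ1, fun y hy hy0 => ?_⟩
      have h1 := h.2 y hy hy0
      have h2 := hBm y hy
      have h3 : y ≠ 0 := fun h' => h0 (h' ▸ hy)
      exact ⟨fun _ => h1.1 ((hJm _).2 (by omega)), fun _ => h1.2 ((hJm _).2 (by omega))⟩
  have c2 : insert t B ∈ Zz.lows (insert (-1) (insert t J)) ↔
      B ∈ Zz.lows J ∧ (0 : ℤ) ∉ B ∧ r ∈ B := by
    have hback : ∀ x ∈ J, x ∈ insert t B → x ∈ B := fun x hx h =>
      (mem_insert.1 h).resolve_left (fun h' => hn2 (h' ▸ hx))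
    constructor
    · intro h
      refine ⟨hup hJ1 (subset_insert _ _) hback h, fun h0 => ?_, ?_⟩
      · rw [dzid_mem_lows] at h
        have h1 := (h.2 0 (mem_insert_of_mem h0) (by norm_num)).1 ((hF1 _).2 (by omega))
        exact ((mem_insert.1 h1).elim (fun h' => by omega) (fun h' => hmB h'))
      · rw [dzid_mem_lows] at h
        have h1 := (h.2 t (mem_insert_self _ _) (by omega)).1 ((hF1 _).2 (by omega))
        have h2 : t - 1 = r := by omega
        rw [h2] at h1
        exact hback _ hrJ h1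
    · rintro ⟨h, h0, hrB⟩
      rw [dzid_mem_lows] at h ⊢
      refine ⟨insert_subset ((hF1 _).2 (by omega)) (hB.trans hJ1), fun y hy hy0 => ?_⟩
      rcases mem_insert.1 hy with rfl | hy
      · have h2 : y - 1 = r := by omega
        refine ⟨fun _ => by rw [h2]; exact mem_insert_of_mem hrB, fun h3 => ?_⟩
        have := (hF1 _).1 h3
        omega
      · have h1 := h.2 y hy hy0
        have h2 := hBm y hy
        have h3 : y ≠ 0 := fun h' => h0 (h' ▸ hy)
        exact ⟨fun _ => mem_insert_of_mem (h1.1 ((hJm _).2 (by omega))),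
          fun _ => mem_insert_of_mem (h1.2 ((hJm _).2 (by omega)))⟩
  have c3 : insert (-1) B ∈ Zz.lows (insert (-1) (insert t J)) ↔ B ∈ Zz.lows J := by
    have hback : ∀ x ∈ J, x ∈ insert (-1) B → x ∈ B := fun x hx h =>
      (mem_insert.1 h).resolve_left (fun h' => hn1' (h' ▸ hx))
    constructor
    · intro h
      exact hup hJ1 (subset_insert _ _) hback h
    · intro h
      rw [dzid_mem_lows] at h ⊢
      refine ⟨insert_subset ((hF1 _).2 (by omega)) (hB.trans hJ1), fun y hy hy0 => ?_⟩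
      rcases mem_insert.1 hy with rfl | hy
      · omega
      · have h1 := h.2 y hy hy0
        have h2 := hBm y hy
        refine ⟨fun _ => ?_, fun _ => mem_insert_of_mem (h1.2 ((hJm _).2 (by omega)))⟩
        by_cases h3 : y = 0
        · rw [h3]
          exact mem_insert.2 (Or.inl (by norm_num))
        · exact mem_insert_of_mem (h1.1 ((hJm _).2 (by omega)))
  have c4 : insert (-1) (insert t B) ∈ Zz.lows (insert (-1) (insert t J)) ↔
      B ∈ Zz.lows J ∧ r ∈ B := by
    have hback : ∀ x ∈ J, x ∈ insert (-1) (insert t B) → x ∈ B := fun x hx h =>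
      (mem_insert.1 ((mem_insert.1 h).resolve_left (fun h' => hn1' (h' ▸ hx)))).resolve_left
        (fun h' => hn2 (h' ▸ hx))
    constructor
    · intro h
      refine ⟨hup hJ1 ((subset_insert _ _).trans (subset_insert _ _)) hback h, ?_⟩
      rw [dzid_mem_lows] at h
      have h1 := (h.2 t (mem_insert_of_mem (mem_insert_self _ _)) (by omega)).1 ((hF1 _).2 (by omega))
      have h2 : t - 1 = r := by omega
      rw [h2] at h1
      exact hback _ hrJ h1
    · rintro ⟨h, hrB⟩
      rw [dzid_mem_lows] at h ⊢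
      refine ⟨insert_subset ((hF1 _).2 (by omega)) (insert_subset ((hF1 _).2 (by omega)) (hB.trans hJ1)),
        fun y hy hy0 => ?_⟩
      rcases mem_insert.1 hy with rfl | hy
      · omega
      rcases mem_insert.1 hy with rfl | hy
      · have h2 : y - 1 = r := by omega
        refine ⟨fun _ => by rw [h2]; exact mem_insert_of_mem (mem_insert_of_mem hrB), fun h3 => ?_⟩
        have := (hF1 _).1 h3
        omega
      · have h1 := h.2 y hy hy0
        have h2 := hBm y hy
        refine ⟨fun _ => ?_, fun _ => mem_insert_of_mem (mem_insert_of_mem (h1.2 ((hJm _).2 (by omega))))⟩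
        by_cases h3 : y = 0
        · rw [h3]
          exact mem_insert.2 (Or.inl (by norm_num))
        · exact mem_insert_of_mem (mem_insert_of_mem (h1.1 ((hJm _).2 (by omega))))
  have c5 : B ∈ Zz.lows (insert t J) ↔ B ∈ Zz.lows J := by
    constructor
    · intro h
      exact hup hJ2 Subset.rfl (fun _ _ h => h) h
    · intro h
      rw [dzid_mem_lows] at h ⊢
      refine ⟨hB.trans hJ2, fun y hy hy0 => ?_⟩
      have h1 := h.2 y hy hy0
      have h2 := hBm y hy
      refine ⟨fun h3 => h1.1 ?_, fun h3 => h1.2 ?_⟩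
      · rw [hF2] at h3
        exact (hJm _).2 (by omega)
      · exact (hJm _).2 (by omega)
  have c6 : insert (-1) B ∈ Zz.lows (insert (-1) J) ↔ B ∈ Zz.lows J := by
    have hback : ∀ x ∈ J, x ∈ insert (-1) B → x ∈ B := fun x hx h =>
      (mem_insert.1 h).resolve_left (fun h' => hn1' (h' ▸ hx))
    constructor
    · intro h
      exact hup hJ3 (subset_insert _ _) hback h
    · intro h
      rw [dzid_mem_lows] at h ⊢
      refine ⟨insert_subset ((hF3 _).2 (by omega)) (hB.trans hJ3), fun y hy hy0 => ?_⟩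
      rcases mem_insert.1 hy with rfl | hy
      · omega
      · have h1 := h.2 y hy hy0
        have h2 := hBm y hy
        refine ⟨fun _ => ?_, fun _ => mem_insert_of_mem (h1.2 ((hJm _).2 (by omega)))⟩
        by_cases h3 : y = 0
        · rw [h3]
          exact mem_insert.2 (Or.inl (by norm_num))
        · exact mem_insert_of_mem (h1.1 ((hJm _).2 (by omega)))
  rw [s1, s2, s3, s4, s5, s6, s7, s8, s9]
  simp only [c1, c2, c3, c4, c5, c6]
  by_cases hl : B ∈ Zz.lows J
  · have h0t : (0 : ℤ) ≠ t := by omega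
    have h0m : (0 : ℤ) ≠ -1 := by norm_num
    have hrt : r ≠ t := by omega
    have hrm : r ≠ -1 := by omega
    have q1 : (0 : ℤ) ∈ insert (-1) B ↔ (0 : ℤ) ∈ B := by
      rw [mem_insert]
      exact ⟨fun h => h.resolve_left h0m, Or.inr⟩
    have q2 : (0 : ℤ) ∈ insert t B ↔ (0 : ℤ) ∈ B := by
      rw [mem_insert]
      exact ⟨fun h => h.resolve_left h0t, Or.inr⟩
    have q3 : (0 : ℤ) ∈ insert (-1) (insert t B) ↔ (0 : ℤ) ∈ B := by
      rw [mem_insert, q2]
      exact ⟨fun h => h.resolve_left h0m, Or.inr⟩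
    have q4 : r ∈ insert (-1) B ↔ r ∈ B := by
      rw [mem_insert]
      exact ⟨fun h => h.resolve_left hrm, Or.inr⟩
    have q5 : r ∈ insert t B ↔ r ∈ B := by
      rw [mem_insert]
      exact ⟨fun h => h.resolve_left hrt, Or.inr⟩
    have q6 : r ∈ insert (-1) (insert t B) ↔ r ∈ B := by
      rw [mem_insert, q5]
      exact ⟨fun h => h.resolve_left hrm, Or.inr⟩
    have q7 : t ∈ insert t B ↔ True := iff_true_intro (mem_insert_self _ _)
    have q8 : (-1 : ℤ) ∈ insert (-1) B ↔ True := iff_true_intro (mem_insert_self _ _)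
    simp only [q1, q2, q3, q4, q5, q6, q7, q8]
    by_cases h0 : (0 : ℤ) ∈ B
    · by_cases hrB : r ∈ B
      · have hiso : E (insert t (J \ B)) = E (J \ B) := by
          rw [hE, hE]
          apply dzid_isolated
          · intro h
            exact hn2 (mem_sdiff.1 h).1
          · intro y hy
            have hy1 := (hJm y).1 (mem_sdiff.1 hy).1
            have hy2 : y ≠ r := fun h => (mem_sdiff.1 hy).2 (h ▸ hrB)
            refine ⟨?_, ?_⟩
            · rintro (⟨h1, h2⟩ | ⟨h1, h2⟩) <;> omega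
            · rintro (⟨h1, h2⟩ | ⟨h1, h2⟩) <;> omega
        simp [hl, h0, hrB, hmB, htB, hiso]
        try ring
      · simp [hl, h0, hrB, hmB, htB]
    · have hiso : E (insert (-1) B) = E B := by
        rw [hE, hE]
        apply dzid_isolated hmB
        intro y hy
        have hy1 := hBm y hy
        have hy2 : y ≠ 0 := fun h => h0 (h ▸ hy)
        refine ⟨?_, ?_⟩
        · rintro (⟨h1, h2⟩ | ⟨h1, h2⟩) <;> omega
        · rintro (⟨h1, h2⟩ | ⟨h1, h2⟩) <;> omega
      by_cases hrB : r ∈ B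
      · simp [hl, h0, hrB, hmB, htB, hiso]
        try ring
      · simp [hl, h0, hrB, hmB, htB, hiso]
        try ring
  · simp [hl, hmB]

end Pool.PP2
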