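import Pool.Agent.Lib.PP2.D.Stage
import Pool.Agent.Lib.PP2.D.ZId

/-!
# Chunk D-Ex: the sum over the exact family
-/

namespace Pool.PP2

open Finset Classical MvPolynomial

namespace DSys

variable {M : Type*} {σ : Sys0 M} (D : DSys σ) [Fintype M]

/-- the sum over the exact family inside `G` -/
noncomputable def XS (G : Finset M) : ℚ :=
  ∑ L ∈ (univ : Finset (Finset M)).filter (fun L => D.JJX L ∧ L ⊆ G),
    epsc (1 : ℚ) (K σ.R.toEG L) * epsc (1 : ℚ) (K σ.S.toEG (G \ L))

omit [Fintype M] in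
theorem ex_u_kap (i : D.ι) : (D.st i).u ∈ (D.st i).kap := by
  simp [JStrip.kap]

omit [Fintype M] in
theorem ex_wk_kap (i : D.ι) : (D.st i).w (D.st i).k ∈ (D.st i).kap := by
  simp only [JStrip.kap, mem_insert, mem_union, mem_image, mem_range]
  exact Or.inr (Or.inr ⟨(D.st i).k, Nat.lt_succ_self _, rfl⟩)

omit [Fintype M] in
theorem ex_yk_kap (i : D.ι) : (D.st i).y (D.st i).k ∈ (D.st i).kap := by
  simp only [JStrip.kap, mem_insert, mem_union, mem_image, mem_range]
  exact Or.inr (Or.inl ⟨(D.st i).k, Nat.lt_succ_self _, rfl⟩)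

omit [Fintype M] in
theorem ex_kap_cls (i : D.ι) : (D.st i).kap ⊆ (D.st i).cls := by
  intro x hx
  exact mem_insert_of_mem hx

omit [Fintype M] in
theorem ex_w_iff {x y : M} (h1 : ∀ i, y ≠ (D.st i).u) (h2 : ∀ i, y ≠ (D.st i).w (D.st i).k) :
    σ.S.w x y ↔ σ.R.w x y := by
  constructor
  · intro h
    by_contra hn
    obtain ⟨i, _, hi⟩ := D.hC x y ⟨h, hn⟩
    exact h2 i hi
  · intro h
    by_contra hn
    obtain ⟨i, _, hi⟩ := D.hD x y ⟨h, hn⟩
    exact h1 i hi

omit [Fintype M] in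
/-- closed under the edges of `S` -/
theorem ex_cls_closed_S (i : D.ι) {x z : M} (hx : x ∈ (D.st i).cls)
    (h : σ.S.e x z ∨ σ.S.e z x) : z ∈ (D.st i).cls := by
  rcases mem_insert.1 hx with rfl | hx
  · rcases h with h | h
    · exact absurd h ((D.st i).pS z).2
    · exact absurd h ((D.st i).pS z).1
  · exact ex_kap_cls D i ((D.st i).kap_closed hx h)

theorem ex_lows {G : Finset M} (hG : σ.S.Low G) :
    σ.S.lows G = (univ : Finset (Finset M)).filter (fun L => σ.S.Low L ∧ L ⊆ G) := by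
  ext L
  rw [EG.e1_mem_lows, mem_filter]
  constructor
  · rintro ⟨h1, h2⟩
    refine ⟨mem_univ _, fun x y hxy hy => h2 x (hG x y hxy (h1 hy)) y hy hxy, h1⟩
  · rintro ⟨_, h1, h2⟩
    exact ⟨h2, fun x _ y hy hxy => h1 x y hxy hy⟩

/-- no strips inside `G`: `S` and `R` have the same edges in `G` (a C-link `w k ∈ G` would give a maximal element …: use the hypothesis on `kap`), `JJX` is lowness; `epsc_add` with `1 + 1 = 2` -/
theorem XS_base {G : Finset M} (hG : σ.S.Low G) (hR : σ.R.Low G)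
    (h : ∀ i, Disjoint (D.st i).kap G) : D.XS G = epsc (2 : ℚ) (K σ.S.toEG G) := by
  have hu : ∀ y ∈ G, ∀ i, y ≠ (D.st i).u := by
    rintro y hy i rfl
    exact disjoint_left.1 (h i) (ex_u_kap D i) hy
  have hw : ∀ y ∈ G, ∀ i, y ≠ (D.st i).w (D.st i).k := by
    rintro y hy i rfl
    exact disjoint_left.1 (h i) (ex_wk_kap D i) hy
  have h2 : (2 : ℚ) = 1 + 1 := by norm_num
  rw [h2, σ.S.epsc_add (1 : ℚ) 1 hG.cvx, ex_lows hG, XS]
  have hset : (univ : Finset (Finset M)).filter (fun L => D.JJX L ∧ L ⊆ G) =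
      (univ : Finset (Finset M)).filter (fun L => σ.S.Low L ∧ L ⊆ G) := by
    ext L
    simp only [mem_filter, mem_univ, true_and]
    constructor
    · rintro ⟨h1, h3⟩
      exact ⟨h1.1, h3⟩
    · rintro ⟨h1, h3⟩
      refine ⟨⟨h1, ?_, ?_⟩, h3⟩
      · intro x y hxy hy
        exact h1 x y (D.R_e_S hxy (fun i => hu y (h3 hy) i)) hy
      · intro i _ hi
        exact absurd rfl (hu _ (h3 hi) i)
  rw [hset]
  refine sum_congr rfl fun L hL => ?_
  have hLG : L ⊆ G := (mem_filter.1 hL).2.2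
  have hK : K σ.R.toEG L = K σ.S.toEG L := by
    refine K_congr _ _ L (fun x _ y _ => (σ.s_iff x y).symm) (fun x _ y hy => ?_)
    exact (ex_w_iff D (hu y (hLG hy)) (hw y (hLG hy))).symm
  rw [hK]

/-- product rule: `cls i` is closed under the edges of `S` and `R`. `L ↦ (L ∩ cls i, L \ cls i)`; `K_union` on both sides -/
theorem XS_mul (hL : σ.Links) {G : Finset M} (hG : σ.S.Low G) (hR : σ.R.Low G) {i : D.ι}
    (hi : (D.st i).cls ⊆ G) : D.XS G = D.XS (D.st i).cls * D.XS (G \ (D.st i).cls) := by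
  set c := (D.st i).cls with hc
  have hcS : ∀ x ∈ c, ∀ z, z ∉ c → ¬ σ.S.e x z ∧ ¬ σ.S.e z x := by
    intro x hx z hz
    exact ⟨fun h => hz (ex_cls_closed_S D i hx (Or.inl h)), fun h => hz (ex_cls_closed_S D i hx (Or.inr h))⟩
  have hcR : ∀ x ∈ c, ∀ z, z ∉ c → ¬ σ.R.e x z ∧ ¬ σ.R.e z x := by
    intro x hx z hz
    exact ⟨fun h => hz (D.cls_closed hL i hx (Or.inl h)), fun h => hz (D.cls_closed hL i hx (Or.inr h))⟩
  have hu : ∀ j, (D.st j).u ∈ c → j = i := by
    intro j hj
    by_contra hne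
    exact disjoint_left.1 (D.cls_disjoint hne) (ex_kap_cls D j (ex_u_kap D j)) hj
  have hy : ∀ j, (D.st j).y (D.st j).k ∈ c → j = i := by
    intro j hj
    by_contra hne
    exact disjoint_left.1 (D.cls_disjoint hne) (ex_kap_cls D j (ex_yk_kap D j)) hj
  have hyi : (D.st i).y (D.st i).k ∈ c := ex_kap_cls D i (ex_yk_kap D i)
  have hui : (D.st i).u ∈ c := ex_kap_cls D i (ex_u_kap D i)
  unfold XS
  rw [sum_mul_sum, ← sum_product']
  symm
  refine sum_bij' (fun (q : Finset M × Finset M) _ => q.1 ∪ q.2) (fun L _ => (L ∩ c, L \ c)) ?_ ?_ ?_ ?_ ?_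
  · rintro ⟨A, B⟩ hAB
    simp only [mem_product, mem_filter, mem_univ, true_and] at hAB
    obtain ⟨⟨hA, hAc⟩, hB, hBc⟩ := hAB
    simp only [mem_filter, mem_univ, true_and]
    refine ⟨⟨?_, ?_, ?_⟩, union_subset (hAc.trans hi) (hBc.trans sdiff_subset)⟩
    · intro x y hxy hy
      rcases mem_union.1 hy with hy | hy
      · exact mem_union_left _ (hA.1 x y hxy hy)
      · exact mem_union_right _ (hB.1 x y hxy hy)
    · intro x y hxy hy
      rcases mem_union.1 hy with hy | hy
      · exact mem_union_left _ (hA.2.1 x y hxy hy)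
      · exact mem_union_right _ (hB.2.1 x y hxy hy)
    · intro j hj hy
      rcases mem_union.1 hy with hy | hy
      · exact mem_union_left _ (hA.2.2 j hj hy)
      · exact mem_union_right _ (hB.2.2 j hj hy)
  · intro L hL'
    simp only [mem_filter, mem_univ, true_and] at hL'
    obtain ⟨hX, hLG⟩ := hL'
    simp only [mem_product, mem_filter, mem_univ, true_and]
    refine ⟨⟨⟨?_, ?_, ?_⟩, inter_subset_right⟩, ⟨?_, ?_, ?_⟩, sdiff_subset_sdiff hLG (Subset.refl _)⟩
    · intro x y hxy hy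
      rw [mem_inter] at hy ⊢
      refine ⟨hX.1 x y hxy hy.1, ?_⟩
      by_contra hn
      exact (hcS y hy.2 x hn).2 hxy
    · intro x y hxy hy
      rw [mem_inter] at hy ⊢
      refine ⟨hX.2.1 x y hxy hy.1, ?_⟩
      by_contra hn
      exact (hcR y hy.2 x hn).2 hxy
    · intro j hj hju
      rw [mem_inter] at hju ⊢
      have := hu j hju.2
      subst this
      exact ⟨hX.2.2 j hj hju.1, hyi⟩
    · intro x y hxy hy
      rw [mem_sdiff] at hy ⊢
      exact ⟨hX.1 x y hxy hy.1, fun hx => (hcS x hx y hy.2).1 hxy⟩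
    · intro x y hxy hy
      rw [mem_sdiff] at hy ⊢
      exact ⟨hX.2.1 x y hxy hy.1, fun hx => (hcR x hx y hy.2).1 hxy⟩
    · intro j hj hju
      rw [mem_sdiff] at hju ⊢
      refine ⟨hX.2.2 j hj hju.1, fun hx => ?_⟩
      have := hy j hx
      subst this
      exact hju.2 hui
  · rintro ⟨A, B⟩ hAB
    simp only [mem_product, mem_filter, mem_univ, true_and] at hAB
    obtain ⟨⟨hA, hAc⟩, hB, hBc⟩ := hAB
    ext x
    · simp only [mem_inter, mem_union]
      constructor
      · rintro ⟨h1 | h1, h2⟩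
        · exact h1
        · exact absurd h2 (mem_sdiff.1 (hBc h1)).2
      · intro h1
        exact ⟨Or.inl h1, hAc h1⟩
    · simp only [mem_sdiff, mem_union]
      constructor
      · rintro ⟨h1 | h1, h2⟩
        · exact absurd (hAc h1) h2
        · exact h1
      · intro h1
        exact ⟨Or.inr h1, (mem_sdiff.1 (hBc h1)).2⟩
  · intro L hL'
    ext x
    simp only [mem_union, mem_inter, mem_sdiff]
    tauto
  · rintro ⟨A, B⟩ hAB
    simp only [mem_product, mem_filter, mem_univ, true_and] at hAB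
    obtain ⟨⟨hA, hAc⟩, hB, hBc⟩ := hAB
    have hd : Disjoint A B := by
      rw [disjoint_left]
      intro x h1 h2
      exact (mem_sdiff.1 (hBc h2)).2 (hAc h1)
    have h1 : K σ.R.toEG (A ∪ B) = K σ.R.toEG A * K σ.R.toEG B :=
      K_union _ hd (fun x hx y hy => hcR x (hAc hx) y (mem_sdiff.1 (hBc hy)).2)
    have h2 : G \ (A ∪ B) = (c \ A) ∪ ((G \ c) \ B) := by
      ext x
      simp only [mem_sdiff, mem_union]
      constructor
      · rintro ⟨h1, h2⟩
        by_cases hx : x ∈ c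
        · exact Or.inl ⟨hx, fun h => h2 (Or.inl h)⟩
        · exact Or.inr ⟨⟨h1, hx⟩, fun h => h2 (Or.inr h)⟩
      · rintro (⟨h1, h2⟩ | ⟨⟨h1, h2⟩, h3⟩)
        · refine ⟨hi h1, ?_⟩
          rintro (h | h)
          · exact h2 h
          · exact (mem_sdiff.1 (hBc h)).2 h1
        · refine ⟨h1, ?_⟩
          rintro (h | h)
          · exact h2 (hAc h)
          · exact h3 h
    have h3 : K σ.S.toEG (G \ (A ∪ B)) = K σ.S.toEG (c \ A) * K σ.S.toEG ((G \ c) \ B) := by
      rw [h2]
      refine K_union _ ?_ ?_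
      · rw [disjoint_left]
        intro x h1 h2
        exact (mem_sdiff.1 (mem_sdiff.1 h2).1).2 (mem_sdiff.1 h1).1
      · intro x hx y hy
        exact hcS x (mem_sdiff.1 hx).1 y (mem_sdiff.1 (mem_sdiff.1 hy).1).2
    simp only
    rw [h1, h3, map_mul, map_mul]
    ring

omit [Fintype M] in
theorem ex_q_neg (i : D.ι) : (D.st i).q (-1) = (D.st i).p := by
  simp [JStrip.q]

omit [Fintype M] in
theorem ex_q_zero (i : D.ι) : (D.st i).q 0 = (D.st i).u := by
  simp [JStrip.q]

omit [Fintype M] in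
theorem ex_q_yk (i : D.ι) : (D.st i).q (2 * (D.st i).k + 1) = (D.st i).y (D.st i).k := by
  unfold JStrip.q
  rw [if_neg (by omega), if_neg (by omega), if_pos (by omega)]
  congr 1
  omega

omit [Fintype M] in
theorem ex_q_wk (i : D.ι) : (D.st i).q (2 * (D.st i).k + 2) = (D.st i).w (D.st i).k := by
  unfold JStrip.q
  rw [if_neg (by omega), if_neg (by omega), if_neg (by omega)]
  congr 1
  omega

/-- one strip: transport `Z_strip` with the numbering `q` (`K_S`, `K_R`): `K R L = K Zz (A.erase (2k+2))` times `X 1` if `2k+2 ∈ A`, `K S (cls \ L) = K Zz ([0, 2k+2] \ A)` times `X 1` if `-1 ∉ A`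
(`epsc 1 (X 1) = 1`) -/
theorem XS_strip (hL : σ.Links) (i : D.ι) :
    D.XS (D.st i).cls = epsc (2 : ℚ) (K σ.S.toEG (D.st i).cls) := by
  set t := D.st i with ht
  set k : ℤ := (t.k : ℤ) with hk
  have hk0 : 0 ≤ k := by omega
  have hqn : t.q (-1) = t.p := ex_q_neg D i
  have hq0 : t.q 0 = t.u := ex_q_zero D i
  have hqy : t.q (2 * k + 1) = t.y t.k := ex_q_yk D i
  have hqw : t.q (2 * k + 2) = t.w t.k := ex_q_wk D i
  have hinj : Set.InjOn t.q (Icc (-1 : ℤ) (2 * k + 2) : Finset ℤ) := t.q_inj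
  have hcls : t.cls = (Icc (-1 : ℤ) (2 * k + 2)).image t.q := t.q_cls
  have hkap : t.kap = (Icc (0 : ℤ) (2 * k + 2)).image t.q := t.q_kap
  have hpS : ∀ z, ¬ σ.S.e z t.p ∧ ¬ σ.S.e t.p z := t.pS
  have hpk : t.p ∉ t.kap := t.p_notMem_kap
  -- right side
  have hRHS : epsc (2 : ℚ) (K σ.S.toEG t.cls) = 2 * epsc (2 : ℚ) (K Zz.toEG (Icc (0 : ℤ) (2 * k + 2))) := by
    have h1 : t.cls = {t.p} ∪ t.kap := by
      unfold JStrip.cls
      rw [insert_eq]
    rw [h1, K_union _ (disjoint_singleton_left.2 hpk), map_mul, epsc_single, hkap,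
      t.K_S (Subset.refl _)]
    intro x hx y _
    rw [mem_singleton.1 hx]
    exact ⟨(hpS y).2, (hpS y).1⟩
  rw [hRHS, ← Z_strip t.k, XS]
  symm
  refine sum_bij' (fun (A : Finset ℤ) _ => A.image t.q)
    (fun L _ => (Icc (-1 : ℤ) (2 * k + 2)).filter (fun a => t.q a ∈ L)) ?_ ?_ ?_ ?_ ?_
  · intro A hA
    rw [mem_filter, EG.e1_mem_lows] at hA
    obtain ⟨⟨hA1, hA2⟩, hA3⟩ := hA
    simp only [mem_filter, mem_univ, true_and]
    refine ⟨⟨?_, ?_, ?_⟩, ?_⟩
    · intro x y hxy hy
      obtain ⟨b, hb, rfl⟩ := mem_image.1 hy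
      have hbI := mem_Icc.1 (hA1 hb)
      by_cases hb1 : b = -1
      · subst hb1
        rw [hqn] at hxy
        exact absurd hxy (hpS x).1
      · have hb2 : b ∈ Icc (0 : ℤ) (2 * k + 2) := mem_Icc.2 ⟨by omega, hbI.2⟩
        have hbk : t.q b ∈ t.kap := by
          rw [hkap]
          exact mem_image_of_mem _ hb2
        have hxk := t.kap_closed hbk (Or.inr hxy)
        rw [hkap] at hxk
        obtain ⟨a, ha, rfl⟩ := mem_image.1 hxk
        have hq := t.q_S ha hb2
        have hz : Zz.e a b := by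
          rcases hxy with h | h
          · exact Or.inl (hq.1.1 h)
          · exact Or.inr (hq.2.1 h)
        have ha' := mem_Icc.1 ha
        exact mem_image_of_mem _ (hA2 a (mem_Icc.2 ⟨by omega, ha'.2⟩) b hb hz)
    · intro x y hxy hy
      obtain ⟨b, hb, rfl⟩ := mem_image.1 hy
      have hbI := mem_Icc.1 (hA1 hb)
      by_cases hb1 : b = 2 * k + 2
      · subst hb1
        rw [hqw] at hxy
        exact absurd hxy (t.wR x).1
      · have hb2 : b ∈ Icc (-1 : ℤ) (2 * k + 1) := mem_Icc.2 ⟨hbI.1, by omega⟩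
        have hbk : t.q b ∈ t.cls := by
          rw [hcls]
          exact mem_image_of_mem _ (hA1 hb)
        have hxk := D.cls_closed hL i hbk (Or.inr hxy)
        rw [← ht, hcls] at hxk
        obtain ⟨a, ha, rfl⟩ := mem_image.1 hxk
        have ha' := mem_Icc.1 ha
        have ha2 : a ≠ 2 * k + 2 := by
          rintro rfl
          rw [hqw] at hxy
          exact (t.wR _).2 hxy
        have ha3 : a ∈ Icc (-1 : ℤ) (2 * k + 1) := mem_Icc.2 ⟨ha'.1, by omega⟩
        have hq := D.q_R hL i (a := a) (b := b) ha3 hb2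
        have hz : Zz.e a b := by
          rcases hxy with h | h
          · exact Or.inl (hq.1.1 h)
          · exact Or.inr (hq.2.1 h)
        exact mem_image_of_mem _ (hA2 a ha b hb hz)
    · intro j hj hju
      have hji : j = i := by
        by_contra hne
        have h1 : (D.st j).u ∈ (D.st i).cls := by
          rw [← ht, hcls]
          exact image_subset_image hA1 hju
        exact disjoint_left.1 (D.cls_disjoint hne) (ex_kap_cls D j (ex_u_kap D j)) h1
      subst hji
      rw [← ht] at hju ⊢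
      rw [← hq0] at hju
      obtain ⟨b, hb, hb'⟩ := mem_image.1 hju
      have hb0 : b = 0 := hinj (hA1 hb) (by
        rw [mem_coe, mem_Icc]
        constructor <;> omega) hb'
      subst hb0
      rw [← hqy]
      exact mem_image_of_mem _ (hA3 hb)
    · rw [hcls]
      exact image_subset_image hA1
  · intro L hL'
    simp only [mem_filter, mem_univ, true_and] at hL'
    obtain ⟨hX, hLc⟩ := hL'
    rw [mem_filter, EG.e1_mem_lows]
    have hlow : Zz.LowIn (Icc (-1 : ℤ) (2 * k + 2))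
        ((Icc (-1 : ℤ) (2 * k + 2)).filter (fun a => t.q a ∈ L)) := by
      refine ⟨filter_subset _ _, ?_⟩
      intro a ha b hb hab
      rw [mem_filter] at hb ⊢
      refine ⟨ha, ?_⟩
      have ha' := mem_Icc.1 ha
      have hb' := mem_Icc.1 hb.1
      have hab' : (b = a - 1 ∨ b = a + 1) ∧ a % 2 = 1 := by
        rcases hab with h | h
        · exact ⟨Or.inl h.1, h.2⟩
        · exact ⟨Or.inr h.1, h.2⟩
      by_cases hb1 : b = 2 * k + 2
      · have ha0 : a ∈ Icc (0 : ℤ) (2 * k + 2) := mem_Icc.2 ⟨by omega, ha'.2⟩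
        have hb0 : b ∈ Icc (0 : ℤ) (2 * k + 2) := mem_Icc.2 ⟨by omega, hb'.2⟩
        have hq := t.q_S ha0 hb0
        refine hX.1 _ _ ?_ hb.2
        rcases hab with h | h
        · exact Or.inl (hq.1.2 h)
        · exact Or.inr (hq.2.2 h)
      · have ha0 : a ∈ Icc (-1 : ℤ) (2 * k + 1) := mem_Icc.2 ⟨ha'.1, by omega⟩
        have hb0 : b ∈ Icc (-1 : ℤ) (2 * k + 1) := mem_Icc.2 ⟨hb'.1, by omega⟩
        have hq := D.q_R hL i (a := a) (b := b) ha0 hb0
        refine hX.2.1 _ _ ?_ hb.2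
        rcases hab with h | h
        · exact Or.inl (hq.1.2 h)
        · exact Or.inr (hq.2.2 h)
    refine ⟨hlow, ?_⟩
    intro h0
    by_cases hk1 : 1 ≤ t.k
    · rw [mem_filter] at h0 ⊢
      refine ⟨mem_Icc.2 ⟨by omega, by omega⟩, ?_⟩
      rw [hq0] at h0
      have := hX.2.2 i hk1 h0.2
      rw [← hqy] at this
      exact this
    · have hk2 : k = 0 := by omega
      refine hlow.2 _ (mem_Icc.2 ⟨by omega, by omega⟩) 0 h0 ?_
      left
      show (0 : ℤ) = _ - 1 ∧ _
      constructor <;> omega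
  · intro A hA
    rw [mem_filter, EG.e1_mem_lows] at hA
    obtain ⟨⟨hA1, hA2⟩, hA3⟩ := hA
    ext a
    simp only [mem_filter, mem_image]
    constructor
    · rintro ⟨h1, b, hb, hab⟩
      have : b = a := hinj (hA1 hb) h1 hab
      exact this ▸ hb
    · intro h1
      exact ⟨hA1 h1, a, h1, rfl⟩
  · intro L hL'
    simp only [mem_filter, mem_univ, true_and] at hL'
    obtain ⟨hX, hLc⟩ := hL'
    ext x
    simp only [mem_image, mem_filter]
    constructor
    · rintro ⟨a, ⟨_, ha⟩, rfl⟩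
      exact ha
    · intro hx
      have := hLc hx
      rw [hcls] at this
      obtain ⟨a, ha, rfl⟩ := mem_image.1 this
      exact ⟨a, ⟨ha, hx⟩, rfl⟩
  · intro A hA
    rw [mem_filter, EG.e1_mem_lows] at hA
    obtain ⟨⟨hA1, hA2⟩, hA3⟩ := hA
    congr 1
    · -- `K R`
      have hsub : A.erase (2 * k + 2) ⊆ Icc (-1 : ℤ) (2 * k + 1) := by
        intro a ha
        rw [mem_erase] at ha
        have := mem_Icc.1 (hA1 ha.2)
        exact mem_Icc.2 ⟨this.1, by omega⟩
      have hKR := D.K_R hL i hsub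
      rw [← ht] at hKR
      rw [← hKR]
      by_cases hw : 2 * k + 2 ∈ A
      · have h1 : A.image t.q = {t.w t.k} ∪ (A.erase (2 * k + 2)).image t.q := by
          rw [← hqw, ← image_singleton, ← image_union, ← insert_eq, insert_erase hw]
        rw [h1, K_union, map_mul, epsc_single, one_mul]
        · rw [disjoint_singleton_left]
          intro h2
          obtain ⟨a, ha, ha'⟩ := mem_image.1 h2
          rw [← hqw] at ha'
          have := hinj (hA1 (mem_of_mem_erase ha)) (hA1 hw) ha'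
          exact (ne_of_mem_erase ha) this
        · intro x hx y _
          rw [mem_singleton.1 hx]
          exact ⟨(t.wR y).2, (t.wR y).1⟩
      · rw [erase_eq_of_notMem hw]
    · -- `K S`
      have hsub : Icc (0 : ℤ) (2 * k + 2) \ A ⊆ Icc (0 : ℤ) (2 * k + 2) := sdiff_subset
      have hKS := t.K_S hsub
      rw [← hKS]
      have h0 : t.cls \ A.image t.q = (Icc (-1 : ℤ) (2 * k + 2) \ A).image t.q := by
        rw [hcls]
        ext x
        simp only [mem_sdiff, mem_image]
        constructor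
        · rintro ⟨⟨a, ha, rfl⟩, h2⟩
          exact ⟨a, ⟨ha, fun h => h2 ⟨a, h, rfl⟩⟩, rfl⟩
        · rintro ⟨a, ⟨ha, h2⟩, rfl⟩
          refine ⟨⟨a, ha, rfl⟩, ?_⟩
          rintro ⟨b, hb, hab⟩
          exact h2 ((hinj (hA1 hb) ha hab) ▸ hb)
      rw [h0]
      by_cases hp : (-1 : ℤ) ∈ A
      · congr 3
        ext a
        simp only [mem_sdiff, mem_Icc]
        constructor
        · rintro ⟨h1, h2⟩
          exact ⟨⟨by omega, h1.2⟩, h2⟩
        · rintro ⟨h1, h2⟩
          refine ⟨⟨?_, h1.2⟩, h2⟩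
          by_contra hn
          have : a = -1 := by omega
          exact h2 (this ▸ hp)
      · have h1 : Icc (-1 : ℤ) (2 * k + 2) \ A = {-1} ∪ (Icc (0 : ℤ) (2 * k + 2) \ A) := by
          ext a
          simp only [mem_sdiff, mem_Icc, mem_union, mem_singleton]
          constructor
          · rintro ⟨h1, h2⟩
            by_cases ha : a = -1
            · exact Or.inl ha
            · exact Or.inr ⟨⟨by omega, h1.2⟩, h2⟩
          · rintro (rfl | ⟨h1, h2⟩)
            · exact ⟨⟨le_refl _, by omega⟩, hp⟩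
            · exact ⟨⟨by omega, h1.2⟩, h2⟩
        rw [h1, image_union, image_singleton, hqn, K_union, map_mul, epsc_single, one_mul]
        · rw [disjoint_singleton_left]
          intro h2
          exact hpk (by rw [hkap]; exact image_subset_image hsub h2)
        · intro x hx y _
          rw [mem_singleton.1 hx]
          exact ⟨(hpS y).2, (hpS y).1⟩

theorem ex_XS_eq (hL : σ.Links) : ∀ (n : ℕ) (G : Finset M), G.card = n → σ.S.Low G → σ.R.Low G →
    (∀ i, (D.st i).cls ⊆ G ∨ Disjoint (D.st i).kap G) → D.XS G = epsc (2 : ℚ) (K σ.S.toEG G) := by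
  intro n
  induction n using Nat.strong_induction_on with
  | _ n ih =>
    intro G hn hS hR h
    by_cases hex : ∃ i, (D.st i).cls ⊆ G
    · obtain ⟨i, hi⟩ := hex
      have hcS : ∀ x ∈ (D.st i).cls, ∀ z, z ∉ (D.st i).cls → ¬ σ.S.e x z ∧ ¬ σ.S.e z x := by
        intro x hx z hz
        exact ⟨fun h => hz (ex_cls_closed_S D i hx (Or.inl h)),
          fun h => hz (ex_cls_closed_S D i hx (Or.inr h))⟩
      have hcR : ∀ x ∈ (D.st i).cls, ∀ z, z ∉ (D.st i).cls → ¬ σ.R.e x z ∧ ¬ σ.R.e z x := by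
        intro x hx z hz
        exact ⟨fun h => hz (D.cls_closed hL i hx (Or.inl h)),
          fun h => hz (D.cls_closed hL i hx (Or.inr h))⟩
      have hlt : (G \ (D.st i).cls).card < n := by
        rw [← hn]
        refine card_lt_card (ssubset_iff_of_subset sdiff_subset |>.2 ?_)
        exact ⟨(D.st i).u, hi (ex_kap_cls D i (ex_u_kap D i)),
          fun hx => (mem_sdiff.1 hx).2 (ex_kap_cls D i (ex_u_kap D i))⟩
      have h1 := ih _ hlt (G \ (D.st i).cls) rfl ?_ ?_ ?_
      · rw [D.XS_mul hL hS hR hi, h1, D.XS_strip hL i, ← map_mul, ← K_union _ disjoint_sdiff ?_]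
        · rw [union_sdiff_of_subset hi]
        · intro x hx y hy
          exact hcS x hx y (mem_sdiff.1 hy).2
      · intro x y hxy hy
        rw [mem_sdiff] at hy ⊢
        exact ⟨hS x y hxy hy.1, fun hx => (hcS x hx y hy.2).1 hxy⟩
      · intro x y hxy hy
        rw [mem_sdiff] at hy ⊢
        exact ⟨hR x y hxy hy.1, fun hx => (hcR x hx y hy.2).1 hxy⟩
      · intro j
        by_cases hji : j = i
        · subst hji
          right
          rw [disjoint_left]
          intro x hx hx'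
          exact (mem_sdiff.1 hx').2 (ex_kap_cls D j hx)
        · rcases h j with hj | hj
          · left
            intro x hx
            rw [mem_sdiff]
            exact ⟨hj hx, fun hx' => disjoint_left.1 (D.cls_disjoint hji) hx hx'⟩
          · right
            exact hj.mono_right sdiff_subset
    · push Not at hex
      refine D.XS_base hS hR fun i => ?_
      exact (h i).resolve_left (hex i)

/-- induction on the number of strips in `G` -/
theorem XS_eq (hL : σ.Links) {G : Finset M} (hG : D.Stage G) :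
    D.XS G = epsc (2 : ℚ) (K σ.S.toEG G) := by
  refine D.ex_XS_eq hL _ G rfl hG.jj.1 hG.jj.2.1 fun i => ?_
  by_cases h : Disjoint (D.st i).kap G
  · exact Or.inr h
  · left
    rw [not_disjoint_iff] at h
    obtain ⟨x, hx, hxG⟩ := h
    exact hG.cls_subset (hG.strip i x hx hxG (ex_u_kap D i))

/-- the identity `StarOn G` at `p_1 = 1`, `p_1 = 1` (`aeval (Sum.elim _ _)`, `epsc_add`) -/
theorem JJ_sum {G : Finset M} (hG : σ.JJ G) (hS : σ.StarOn G) :
    ∑ L ∈ (univ : Finset (Finset M)).filter (fun L => σ.JJ L ∧ L ⊆ G),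
      epsc (1 : ℚ) (K σ.R.toEG L) * epsc (1 : ℚ) (K σ.S.toEG (G \ L)) =
    epsc (2 : ℚ) (K σ.S.toEG G) := by
  have h2 : (2 : ℚ) = 1 + 1 := by norm_num
  rw [h2, σ.S.epsc_add (1 : ℚ) 1 hG.1.cvx, ex_lows hG.1]
  set g : ℕ ⊕ ℕ → ℚ := Sum.elim (fun j => if j = 1 then (1 : ℚ) else 0) (fun j => if j = 1 then (1 : ℚ) else 0)
    with hg
  have h3 := congrArg (aeval g) hS
  have hl : ∀ p : Lam ℚ, aeval g (rename (Sum.inl : ℕ → ℕ ⊕ ℕ) p) = epsc (1 : ℚ) p := by
    intro p
    rw [aeval_rename]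
    rfl
  have hr : ∀ p : Lam ℚ, aeval g (rename (Sum.inr : ℕ → ℕ ⊕ ℕ) p) = epsc (1 : ℚ) p := by
    intro p
    rw [aeval_rename]
    rfl
  simpa only [map_sum, map_mul, hl, hr] using h3

/-- positive terms, one family inside the other, same sums -/
theorem JJ_of_JJX (hL : σ.Links) {G : Finset M} (hG : D.Stage G)
    (h : ∀ L, σ.JJ L → L ⊆ G → D.JJX L) {L : Finset M} (hX : D.JJX L) (hLG : L ⊆ G) : σ.JJ L := by
  by_contra hn
  have h1 := JJ_sum hG.jj hG.star
  have h2 := D.XS_eq hL hG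
  rw [XS, ← h1] at h2
  have hlt : ∑ L ∈ (univ : Finset (Finset M)).filter (fun L => σ.JJ L ∧ L ⊆ G),
      epsc (1 : ℚ) (K σ.R.toEG L) * epsc (1 : ℚ) (K σ.S.toEG (G \ L)) <
      ∑ L ∈ (univ : Finset (Finset M)).filter (fun L => D.JJX L ∧ L ⊆ G),
      epsc (1 : ℚ) (K σ.R.toEG L) * epsc (1 : ℚ) (K σ.S.toEG (G \ L)) := by
    refine sum_lt_sum_of_subset (i := L) ?_ ?_ ?_ ?_ ?_
    · intro A hA
      simp only [mem_filter, mem_univ, true_and] at hA ⊢
      exact ⟨h A hA.1 hA.2, hA.2⟩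
    · simp only [mem_filter, mem_univ, true_and]
      exact ⟨hX, hLG⟩
    · simp only [mem_filter, mem_univ, true_and]
      exact fun h3 => hn h3.1
    · exact mul_pos (epsc_pos _ _ one_pos) (epsc_pos _ _ one_pos)
    · intro j _ _
      exact (mul_pos (epsc_pos _ _ one_pos) (epsc_pos _ _ one_pos)).le
  exact absurd h2 hlt.ne'

end DSys

end Pool.PP2
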