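import Pool.Agent.Lib.PP2.D.Theta
import Pool.Agent.Lib.PP2.D.Deg
import Pool.Agent.Lib.PP2.D.Ex

/-!
# Chunk D-Final: exactness of the constraints
-/

namespace Pool.PP2

open Finset Classical MvPolynomial

namespace DSys

variable {M : Type*} {σ : Sys0 M} (D : DSys σ) [Fintype M]

/-- a constraint `x ⇒ y` with `y` not one of the `u`: the lower set `{z : z ≤ y}` of `S` is in the exact family, hence in `𝓙`, so it contains `x`: contradiction with `ne` -/
theorem target_eq_u (hL : σ.Links) (hA : σ.LSax) {G : Finset M} (hG : D.Stage G)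
    (hJ : ∀ L, D.JJX L → L ⊆ G → σ.JJ L) {x y : M} (h : σ.LS x y) (hy : y ∈ G) :
    ∃ i, y = (D.st i).u := by
  by_contra hne
  push Not at hne
  set L : Finset M := univ.filter (fun z => Relation.ReflTransGen σ.S.e z y) with hLdef
  have hmemL : ∀ z, z ∈ L ↔ Relation.ReflTransGen σ.S.e z y := by intro z; simp [hLdef]
  have hyL : y ∈ L := (hmemL y).2 Relation.ReflTransGen.refl
  have hlow : σ.S.Low L := by
    intro a b hab hb
    exact (hmemL a).2 (Relation.ReflTransGen.head hab ((hmemL b).1 hb))
  have hu : ∀ i, (D.st i).u ∉ L := by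
    intro i hi
    have h1 := (hmemL _).1 hi
    rcases Relation.ReflTransGen.cases_head h1 with h2 | ⟨c, h2, _⟩
    · exact hne i h2.symm
    · exact (D.st i).umax c h2
  have hLG : L ⊆ G := by
    intro z hz
    have h1 := (hmemL _).1 hz
    clear hz
    induction h1 using Relation.ReflTransGen.head_induction_on with
    | refl => exact hy
    | head hab _ ih => exact hG.jj.1 _ _ hab ih
  have hX : D.JJX L := by
    refine ⟨hlow, ?_, fun i _ h2 => absurd h2 (hu i)⟩
    intro a b hab hb
    have : σ.S.e a b := D.R_e_S hab (fun i hi => hu i (hi ▸ hb))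
    exact hlow a b this hb
  have hJL := hJ L hX hLG
  exact hA.ne h ((hmemL x).1 (hJL.2.2 x y h hyL))

/-- **exactness on a stage**, by strong induction on the number of elements -/
theorem exactOn (hL : σ.Links) (hA : σ.LSax) :
    ∀ (n : ℕ) (G : Finset M), G.card = n → D.Stage G → D.ExactOn G := by
  intro n
  induction n using Nat.strong_induction_on with
  | _ n ih =>
    intro G hn hG
    rcases G.eq_empty_or_nonempty with rfl | hne
    · exact ⟨fun x y _ hy => absurd hy (Finset.notMem_empty _),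
        fun i _ hu => absurd hu (Finset.notMem_empty _)⟩
    obtain ⟨N, G', hN, hG'G, hG', hsz, hmax, hu⟩ := D.exists_peel hL hG hne
    have hex : D.ExactOn G' := ih _ (hn ▸ Finset.card_lt_card hG'G) G' rfl hG'
    -- no bad strips
    have hbad : D.badIn G = ∅ := by
      refine D.no_bad hL hA hG (N := N) ?_ ?_
      · intro i hi
        simp only [badIn, stripsIn, Finset.mem_filter, Finset.mem_univ, true_and] at hi
        by_cases hi' : (D.st i).u ∈ G'
        · exact absurd (hex.2 i hi.2.1 hi') (hi.2.2 _)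
        · exact hu i hi.1 hi'
      · intro q hq
        simp only [Sys0.trip, Finset.mem_filter, Finset.mem_univ, true_and] at hq
        obtain ⟨hq1, ⟨x, hx⟩, hq3, hq4, hq5, hq6⟩ := hq
        by_cases hq' : q.1 ∈ G'
        · obtain ⟨i, _, _, h3⟩ := hex.1 x q.1 hx hq'
          exact absurd (h3 ▸ hq4) ((D.st i).uW _)
        · exact hmax q.1 hq1 (hA.tmax hx) hq'
    have hLS : ∀ i, 1 ≤ (D.st i).k → (D.st i).u ∈ G →
        σ.LS ((D.st i).y (D.st i).k) (D.st i).u := by
      intro i hk hi
      have : i ∉ D.badIn G := by rw [hbad]; exact Finset.notMem_empty _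
      simp only [badIn, stripsIn, Finset.mem_filter, Finset.mem_univ, true_and, JStrip.bad, not_and,
        not_forall, not_not] at this
      obtain ⟨x, hx⟩ := this hi hk
      have h1 := D.theta hL hA hG hi hx
      exact h1.1 ▸ hx
    have hsub : ∀ L, σ.JJ L → L ⊆ G → D.JJX L := by
      intro L h1 h2
      exact ⟨h1.1, h1.2.1, fun i hk hi => h1.2.2 _ _ (hLS i hk (h2 hi)) hi⟩
    have hJ : ∀ L, D.JJX L → L ⊆ G → σ.JJ L := fun L h1 h2 => D.JJ_of_JJX hL hG hsub h1 h2
    refine ⟨?_, hLS⟩
    intro x y hxy hy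
    obtain ⟨i, rfl⟩ := D.target_eq_u hL hA hG hJ hxy hy
    obtain ⟨h1, h2⟩ := D.theta hL hA hG hy hxy
    exact ⟨i, h2, h1, rfl⟩

/-- **Part D**: in a system with strips the constraints are exactly the pairs `(y_k, u)` with `k ≥ 1` -/
theorem exact (hL : σ.Links) (hA : σ.LSax) (hs : σ.Star) (x y : M) :
    σ.LS x y ↔ ∃ i, 1 ≤ (D.st i).k ∧ x = (D.st i).y (D.st i).k ∧ y = (D.st i).u := by
  have h := D.exactOn hL hA _ univ rfl (D.stage_univ hs)
  constructor
  · intro hxy
    exact h.1 x y hxy (Finset.mem_univ _)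
  · rintro ⟨i, hk, rfl, rfl⟩
    exact h.2 i hk (Finset.mem_univ _)

end DSys

end Pool.PP2
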