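import Pool.Agent.Lib.PP2.D.Defs
import Pool.Agent.Lib.PP2.S1a

/-!
# Chunk D-Geo: geometry of the strips
-/

namespace Pool.PP2

open Finset Classical MvPolynomial

namespace JStrip

variable {M : Type*} {σ : Sys0 M} (t : JStrip σ)

/-- `lab u < lab (y 0) < lab (w 0) < lab (y 1) < …`; so everything below is by comparing labels -/
theorem lab_lt_w {i j : ℕ} (hij : i ≤ j) (hj : j ≤ t.k) : σ.S.lab (t.y i) < σ.S.lab (t.w j) := by
  induction j with
  | zero =>
    have h0 : i = 0 := by omega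
    subst h0
    exact σ.S.lab_w (t.yw 0 hj)
  | succ j ih =>
    rcases Nat.eq_or_lt_of_le hij with h | h
    · rw [h]
      exact σ.S.lab_w (t.yw _ hj)
    · have h1 := ih (by omega) (by omega)
      have h2 := σ.S.lab_s (t.yw' j (by omega))
      have h3 := σ.S.lab_w (t.yw (j + 1) hj)
      omega

theorem lab_w_lt {i j : ℕ} (hij : i < j) (hj : j ≤ t.k) : σ.S.lab (t.w i) < σ.S.lab (t.y j) := by
  obtain ⟨j', rfl⟩ : ∃ j', j = j' + 1 := ⟨j - 1, by omega⟩
  have h2 := σ.S.lab_s (t.yw' j' (by omega))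
  rcases Nat.eq_or_lt_of_le (show i ≤ j' by omega) with h | h
  · rw [h]
    exact h2
  · have h1 := σ.S.lab_w (t.yw i (by omega))
    have h3 : σ.S.lab (t.w i) < σ.S.lab (t.w j') := by
      clear h2
      induction j' with
      | zero => omega
      | succ m ih =>
        have h4 := σ.S.lab_s (t.yw' m (by omega))
        have h5 := σ.S.lab_w (t.yw (m + 1) (by omega))
        rcases Nat.eq_or_lt_of_le (show i ≤ m by omega) with h6 | h6
        · rw [h6]
          omega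
        · have := ih (by omega) (by omega) h6
          omega
    omega

theorem lab_u_lt {j : ℕ} (hj : j ≤ t.k) : σ.S.lab t.u < σ.S.lab (t.y j) := by
  have h0 := σ.S.lab_s t.yu
  rcases Nat.eq_zero_or_pos j with h | h
  · rw [h]
    exact h0
  · have h1 := σ.S.lab_w (t.yw 0 (by omega))
    have h2 := t.lab_w_lt h hj
    omega

theorem y_inj {i j : ℕ} (hi : i ≤ t.k) (hj : j ≤ t.k) (h : t.y i = t.y j) : i = j := by
  rcases Nat.lt_trichotomy i j with h1 | h1 | h1
  · exfalso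
    have h2 := σ.S.lab_w (t.yw i hi)
    have h3 := t.lab_w_lt h1 hj
    rw [h] at h2
    omega
  · exact h1
  · exfalso
    have h2 := σ.S.lab_w (t.yw j hj)
    have h3 := t.lab_w_lt h1 hi
    rw [h] at h3
    omega

theorem w_inj {i j : ℕ} (hi : i ≤ t.k) (hj : j ≤ t.k) (h : t.w i = t.w j) : i = j := by
  rcases Nat.lt_trichotomy i j with h1 | h1 | h1
  · exfalso
    have h2 := σ.S.lab_w (t.yw j hj)
    have h3 := t.lab_w_lt h1 hj
    rw [h] at h3
    omega
  · exact h1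
  · exfalso
    have h2 := σ.S.lab_w (t.yw i hi)
    have h3 := t.lab_w_lt h1 hi
    rw [h] at h2
    omega

theorem y_ne_w {i j : ℕ} (hi : i ≤ t.k) (hj : j ≤ t.k) : t.y i ≠ t.w j := by
  intro h
  exact t.wmax j hj (t.w i) (Or.inr (h ▸ t.yw i hi))

theorem u_ne_y {j : ℕ} (hj : j ≤ t.k) : t.u ≠ t.y j := by
  intro h
  exact t.umax (t.w j) (Or.inr (h ▸ t.yw j hj))

theorem u_ne_w {j : ℕ} (hj : j ≤ t.k) : t.u ≠ t.w j := by
  intro h
  exact t.uW (t.y j) (h ▸ t.yw j hj)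

theorem dgeo_mem_kap {x : M} : x ∈ t.kap ↔ x = t.u ∨ (∃ j ≤ t.k, x = t.y j) ∨ ∃ j ≤ t.k, x = t.w j := by
  unfold kap
  rw [mem_insert, mem_union, mem_image, mem_image]
  refine or_congr Iff.rfl (or_congr ?_ ?_)
  · constructor
    · rintro ⟨j, hj, rfl⟩
      exact ⟨j, by have := mem_range.1 hj; omega, rfl⟩
    · rintro ⟨j, hj, rfl⟩
      exact ⟨j, mem_range.2 (by omega), rfl⟩
  · constructor
    · rintro ⟨j, hj, rfl⟩
      exact ⟨j, by have := mem_range.1 hj; omega, rfl⟩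
    · rintro ⟨j, hj, rfl⟩
      exact ⟨j, mem_range.2 (by omega), rfl⟩

/-- every element of `kap` is on an edge -/
theorem dgeo_edge {x : M} (hx : x ∈ t.kap) : ∃ z, σ.S.e x z ∨ σ.S.e z x := by
  rcases t.dgeo_mem_kap.1 hx with rfl | ⟨j, hj, rfl⟩ | ⟨j, hj, rfl⟩
  · exact ⟨t.y 0, Or.inr (Or.inl t.yu)⟩
  · exact ⟨t.w j, Or.inl (Or.inr (t.yw j hj))⟩
  · exact ⟨t.y j, Or.inr (Or.inr (t.yw j hj))⟩

/-- `p` is isolated in `S` -/
theorem p_notMem_kap : t.p ∉ t.kap := by
  intro h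
  obtain ⟨z, hz | hz⟩ := t.dgeo_edge h
  · exact (t.pS z).2 hz
  · exact (t.pS z).1 hz

theorem kap_card : t.kap.card = 2 * t.k + 3 := by
  unfold kap
  have h1 : ((range (t.k + 1)).image t.y).card = t.k + 1 := by
    rw [card_image_of_injOn, card_range]
    intro i hi j hj hij
    have hi' := mem_range.1 (mem_coe.1 hi)
    have hj' := mem_range.1 (mem_coe.1 hj)
    exact t.y_inj (by omega) (by omega) hij
  have h2 : ((range (t.k + 1)).image t.w).card = t.k + 1 := by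
    rw [card_image_of_injOn, card_range]
    intro i hi j hj hij
    have hi' := mem_range.1 (mem_coe.1 hi)
    have hj' := mem_range.1 (mem_coe.1 hj)
    exact t.w_inj (by omega) (by omega) hij
  have h3 : Disjoint ((range (t.k + 1)).image t.y) ((range (t.k + 1)).image t.w) := by
    rw [Finset.disjoint_left]
    intro x hx hx'
    obtain ⟨i, hi, rfl⟩ := mem_image.1 hx
    obtain ⟨j, hj, hij⟩ := mem_image.1 hx'
    have hi' := mem_range.1 hi
    have hj' := mem_range.1 hj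
    exact t.y_ne_w (by omega) (by omega) hij.symm
  have h4 : t.u ∉ (range (t.k + 1)).image t.y ∪ (range (t.k + 1)).image t.w := by
    intro h
    rcases mem_union.1 h with h | h
    · obtain ⟨j, hj, hij⟩ := mem_image.1 h
      have hj' := mem_range.1 hj
      exact t.u_ne_y (show j ≤ t.k by omega) hij.symm
    · obtain ⟨j, hj, hij⟩ := mem_image.1 h
      have hj' := mem_range.1 hj
      exact t.u_ne_w (show j ≤ t.k by omega) hij.symm
  rw [card_insert_of_notMem h4, card_union_of_disjoint h3, h1, h2]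
  omega

/-- `kap` is closed under the edges of `S` -/
theorem kap_closed {x z : M} (hx : x ∈ t.kap) (h : σ.S.e x z ∨ σ.S.e z x) : z ∈ t.kap := by
  rcases t.dgeo_mem_kap.1 hx with rfl | ⟨j, hj, rfl⟩ | ⟨j, hj, rfl⟩
  · rcases h with h | h | h
    · exact absurd h (t.umax z)
    · have := σ.S.ls h t.yu
      exact t.dgeo_mem_kap.2 (Or.inr (Or.inl ⟨0, Nat.zero_le _, this⟩))
    · exact absurd h (t.uW z)
  · rcases h with (h | h) | h
    · rcases Nat.eq_zero_or_pos j with h0 | h0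
      · subst h0
        exact t.dgeo_mem_kap.2 (Or.inl (σ.S.us h t.yu))
      · obtain ⟨i, rfl⟩ : ∃ i, j = i + 1 := ⟨j - 1, by omega⟩
        exact t.dgeo_mem_kap.2 (Or.inr (Or.inr ⟨i, by omega, σ.S.us h (t.yw' i (by omega))⟩))
    · exact t.dgeo_mem_kap.2 (Or.inr (Or.inr ⟨j, hj, σ.S.uw h (t.yw j hj)⟩))
    · exact absurd h (t.ymin j hj z)
  · rcases h with h | h | h
    · exact absurd h (t.wmax j hj z)
    · rcases Nat.eq_or_lt_of_le hj with h0 | h0
      · subst h0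
        exact absurd h (t.wN z)
      · exact t.dgeo_mem_kap.2 (Or.inr (Or.inl ⟨j + 1, by omega, σ.S.ls h (t.yw' j h0)⟩))
    · exact t.dgeo_mem_kap.2 (Or.inr (Or.inl ⟨j, hj, σ.S.lw h (t.yw j hj)⟩))

/-- `kap` is connected -/
theorem dgeo_conn {x : M} (hx : x ∈ t.kap) :
    Relation.ReflTransGen (fun a b => σ.S.e a b ∨ σ.S.e b a) t.u x := by
  have hy : ∀ j ≤ t.k, Relation.ReflTransGen (fun a b => σ.S.e a b ∨ σ.S.e b a) t.u (t.y j) := by
    intro j
    induction j with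
    | zero => exact fun _ => Relation.ReflTransGen.single (Or.inr (Or.inl t.yu))
    | succ j ih =>
      intro hj
      exact ((ih (by omega)).tail (Or.inl (Or.inr (t.yw j (by omega))))).tail
        (Or.inr (Or.inl (t.yw' j (by omega))))
  rcases t.dgeo_mem_kap.1 hx with rfl | ⟨j, hj, rfl⟩ | ⟨j, hj, rfl⟩
  · exact Relation.ReflTransGen.refl
  · exact hy j hj
  · exact (hy j hj).tail (Or.inl (Or.inr (t.yw j hj)))

/-- a set closed under the edges of `S` and meeting `kap` contains `u` -/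
theorem dgeo_mem_of_closed {F : Finset M} (hF : ∀ a ∈ F, ∀ b, σ.S.e a b ∨ σ.S.e b a → b ∈ F) {x : M}
    (hx : x ∈ t.kap) (hxF : x ∈ F) : t.u ∈ F := by
  have h : ∀ a b, Relation.ReflTransGen (fun a b => σ.S.e a b ∨ σ.S.e b a) a b → b ∈ F → a ∈ F := by
    intro a b hab
    induction hab with
    | refl => exact fun h => h
    | tail h1 h2 ih => exact fun h3 => ih (hF _ h3 _ h2.symm)
  exact h _ _ (t.dgeo_conn hx) hxF

theorem dgeo_u_mem : t.u ∈ t.kap := t.dgeo_mem_kap.2 (Or.inl rfl)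
theorem dgeo_y_mem {j : ℕ} (hj : j ≤ t.k) : t.y j ∈ t.kap := t.dgeo_mem_kap.2 (Or.inr (Or.inl ⟨j, hj, rfl⟩))
theorem dgeo_w_mem {j : ℕ} (hj : j ≤ t.k) : t.w j ∈ t.kap := t.dgeo_mem_kap.2 (Or.inr (Or.inr ⟨j, hj, rfl⟩))

theorem kap_eq_comp [Fintype M] : t.kap = σ.kS t.u := by
  ext x
  unfold Sys0.kS
  rw [EG.mem_comp]
  constructor
  · intro hx
    exact ⟨mem_univ _, Relation.ReflTransGen.mono
      (fun a b hab => ⟨mem_univ _, mem_univ _, hab⟩) _ _ (t.dgeo_conn hx)⟩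
  · rintro ⟨-, hx⟩
    unfold EG.conn at hx
    induction hx with
    | refl => exact t.dgeo_u_mem
    | tail h1 h2 ih => exact t.kap_closed ih h2.2.2

/-- in `R` the elements `y j` are minimal: a D-target has a north neighbour -/
theorem ymin_R (hL : σ.Links) {j : ℕ} (hj : j ≤ t.k) (z : M) : ¬ σ.R.e z (t.y j) := by
  intro h
  rcases Sys0.R_e_iff.1 h with h1 | h1
  · exact t.ymin j hj z (Sys0.S_e_iff.2 (Or.inl h1))
  · obtain ⟨y', h2, -⟩ := hL.lD h1
    exact t.ymin j hj y' (Or.inl h2)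

/-- the elements of `kap` without north neighbour -/
theorem kap_top {x : M} (hx : x ∈ t.kap) :
    (∀ z, ¬ σ.S.s z x) ↔ (x = t.w t.k ∨ ∃ j ≤ t.k, x = t.y j) := by
  constructor
  · intro h
    rcases t.dgeo_mem_kap.1 hx with rfl | ⟨j, hj, rfl⟩ | ⟨j, hj, rfl⟩
    · exact absurd t.yu (h _)
    · exact Or.inr ⟨j, hj, rfl⟩
    · rcases Nat.eq_or_lt_of_le hj with h0 | h0
      · rw [h0]
        exact Or.inl rfl
      · exact absurd (t.yw' j h0) (h _)
  · rintro (rfl | ⟨j, hj, rfl⟩) z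
    · exact t.wN z
    · exact fun h => t.ymin j hj z (Or.inl h)

/-- numbering of the strip: `-1 ↦ p`, `0 ↦ u`, `2 j + 1 ↦ y j`, `2 j + 2 ↦ w j` -/
noncomputable def q (n : ℤ) : M :=
  if n = -1 then t.p else if n = 0 then t.u else
    if n % 2 = 1 then t.y ((n - 1) / 2).toNat else t.w ((n - 2) / 2).toNat

theorem dgeo_q_neg : t.q (-1) = t.p := by
  unfold q
  rw [if_pos rfl]

theorem dgeo_q_zero : t.q 0 = t.u := by
  unfold q
  rw [if_neg (by norm_num), if_pos rfl]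

theorem dgeo_q_y (j : ℕ) : t.q (2 * j + 1) = t.y j := by
  unfold q
  rw [if_neg (by omega), if_neg (by omega), if_pos (by omega)]
  congr 1
  omega

theorem dgeo_q_w (j : ℕ) : t.q (2 * j + 2) = t.w j := by
  unfold q
  rw [if_neg (by omega), if_neg (by omega), if_neg (by omega)]
  congr 1
  omega

theorem dgeo_cases {K : ℕ} {n : ℤ} (hn : n ∈ Icc (0 : ℤ) (2 * K + 2)) :
    n = 0 ∨ (∃ j ≤ K, n = 2 * (j : ℤ) + 1) ∨ ∃ j ≤ K, n = 2 * (j : ℤ) + 2 := by
  rw [mem_Icc] at hn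
  rcases Int.emod_two_eq_zero_or_one n with h | h
  · by_cases h0 : n = 0
    · exact Or.inl h0
    · exact Or.inr (Or.inr ⟨((n - 2) / 2).toNat, by omega, by omega⟩)
  · exact Or.inr (Or.inl ⟨((n - 1) / 2).toNat, by omega, by omega⟩)

theorem dgeo_q_mem {n : ℤ} (hn : n ∈ Icc (0 : ℤ) (2 * t.k + 2)) : t.q n ∈ t.kap := by
  rcases dgeo_cases hn with rfl | ⟨j, hj, rfl⟩ | ⟨j, hj, rfl⟩
  · rw [dgeo_q_zero]
    exact t.dgeo_u_mem
  · rw [dgeo_q_y]
    exact t.dgeo_y_mem hj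
  · rw [dgeo_q_w]
    exact t.dgeo_w_mem hj

theorem dgeo_q_inj0 {a b : ℤ} (ha : a ∈ Icc (0 : ℤ) (2 * t.k + 2)) (hb : b ∈ Icc (0 : ℤ) (2 * t.k + 2))
    (h : t.q a = t.q b) : a = b := by
  rcases dgeo_cases ha with rfl | ⟨i, hi, rfl⟩ | ⟨i, hi, rfl⟩ <;>
    rcases dgeo_cases hb with rfl | ⟨j, hj, rfl⟩ | ⟨j, hj, rfl⟩
  · rfl
  · rw [dgeo_q_zero, dgeo_q_y] at h
    exact absurd h (t.u_ne_y hj)
  · rw [dgeo_q_zero, dgeo_q_w] at h
    exact absurd h (t.u_ne_w hj)
  · rw [dgeo_q_zero, dgeo_q_y] at h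
    exact absurd h.symm (t.u_ne_y hi)
  · rw [dgeo_q_y, dgeo_q_y] at h
    rw [t.y_inj hi hj h]
  · rw [dgeo_q_y, dgeo_q_w] at h
    exact absurd h (t.y_ne_w hi hj)
  · rw [dgeo_q_zero, dgeo_q_w] at h
    exact absurd h.symm (t.u_ne_w hi)
  · rw [dgeo_q_w, dgeo_q_y] at h
    exact absurd h.symm (t.y_ne_w hj hi)
  · rw [dgeo_q_w, dgeo_q_w] at h
    rw [t.w_inj hi hj h]

theorem q_inj : Set.InjOn t.q (Icc (-1 : ℤ) (2 * t.k + 2) : Finset ℤ) := by
  have hmem : ∀ n : ℤ, n ∈ Icc (-1 : ℤ) (2 * t.k + 2) → n = -1 ∨ n ∈ Icc (0 : ℤ) (2 * t.k + 2) := by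
    intro n hn
    rw [mem_Icc] at hn ⊢
    omega
  intro a ha b hb h
  rcases hmem a (mem_coe.1 ha) with rfl | ha' <;> rcases hmem b (mem_coe.1 hb) with rfl | hb'
  · rfl
  · exfalso
    rw [dgeo_q_neg] at h
    exact t.p_notMem_kap (h ▸ t.dgeo_q_mem hb')
  · exfalso
    rw [dgeo_q_neg] at h
    exact t.p_notMem_kap (h ▸ t.dgeo_q_mem ha')
  · exact t.dgeo_q_inj0 ha' hb' h

theorem q_kap : t.kap = (Icc (0 : ℤ) (2 * t.k + 2)).image t.q := by
  ext x
  rw [mem_image]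
  constructor
  · intro hx
    rcases t.dgeo_mem_kap.1 hx with rfl | ⟨j, hj, rfl⟩ | ⟨j, hj, rfl⟩
    · exact ⟨0, by rw [mem_Icc]; omega, t.dgeo_q_zero⟩
    · exact ⟨2 * j + 1, by rw [mem_Icc]; omega, t.dgeo_q_y j⟩
    · exact ⟨2 * j + 2, by rw [mem_Icc]; omega, t.dgeo_q_w j⟩
  · rintro ⟨n, hn, rfl⟩
    exact t.dgeo_q_mem hn

theorem q_cls : t.cls = (Icc (-1 : ℤ) (2 * t.k + 2)).image t.q := by
  unfold cls
  have h : Icc (-1 : ℤ) (2 * t.k + 2) = insert (-1) (Icc (0 : ℤ) (2 * t.k + 2)) := by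
    ext n
    rw [mem_insert, mem_Icc, mem_Icc]
    omega
  rw [h, image_insert, dgeo_q_neg, ← q_kap]

theorem q_S {a b : ℤ} (ha : a ∈ Icc (0 : ℤ) (2 * t.k + 2)) (hb : b ∈ Icc (0 : ℤ) (2 * t.k + 2)) :
    (σ.S.s (t.q a) (t.q b) ↔ Zz.s a b) ∧ (σ.S.w (t.q a) (t.q b) ↔ Zz.w a b) := by
  rcases dgeo_cases ha with rfl | ⟨i, hi, rfl⟩ | ⟨i, hi, rfl⟩
  · rw [dgeo_q_zero]
    constructor
    · exact iff_of_false (fun h => t.umax _ (Or.inl h)) (fun h => absurd h.2 (by norm_num))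
    · exact iff_of_false (fun h => t.umax _ (Or.inr h)) (fun h => absurd h.2 (by norm_num))
  · rw [dgeo_q_y]
    constructor
    · constructor
      · intro h
        rcases Nat.eq_zero_or_pos i with h0 | h0
        · subst h0
          have h1 := σ.S.us h t.yu
          rw [← dgeo_q_zero] at h1
          have h2 := t.dgeo_q_inj0 hb (by rw [mem_Icc]; omega) h1
          subst h2
          exact ⟨by norm_num, by norm_num⟩
        · obtain ⟨m, rfl⟩ : ∃ m, i = m + 1 := ⟨i - 1, by omega⟩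
          have h1 := σ.S.us h (t.yw' m (by omega))
          rw [← dgeo_q_w] at h1
          have h2 := t.dgeo_q_inj0 hb (by rw [mem_Icc]; omega) h1
          subst h2
          exact ⟨by push_cast; ring, by omega⟩
      · rintro ⟨h1, -⟩
        rcases Nat.eq_zero_or_pos i with h0 | h0
        · subst h0
          have : b = 0 := by omega
          rw [this, dgeo_q_zero]
          exact t.yu
        · obtain ⟨m, rfl⟩ : ∃ m, i = m + 1 := ⟨i - 1, by omega⟩
          have : b = 2 * m + 2 := by omega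
          rw [this, dgeo_q_w]
          exact t.yw' m (by omega)
    · constructor
      · intro h
        have h1 := σ.S.uw h (t.yw i hi)
        rw [← dgeo_q_w] at h1
        have h2 := t.dgeo_q_inj0 hb (by rw [mem_Icc]; omega) h1
        subst h2
        exact ⟨by ring, by omega⟩
      · rintro ⟨h1, -⟩
        have : b = 2 * i + 2 := by omega
        rw [this, dgeo_q_w]
        exact t.yw i hi
  · rw [dgeo_q_w]
    constructor
    · exact iff_of_false (fun h => t.wmax i hi _ (Or.inl h)) (fun h => absurd h.2 (by omega))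
    · exact iff_of_false (fun h => t.wmax i hi _ (Or.inr h)) (fun h => absurd h.2 (by omega))

theorem q_rho : t.rho = (Icc (-1 : ℤ) (2 * t.k + 1)).image t.q := by
  unfold rho
  ext x
  rw [mem_insert, mem_insert, mem_union, mem_image, mem_image, mem_image]
  constructor
  · rintro (rfl | rfl | ⟨j, hj, rfl⟩ | ⟨j, hj, rfl⟩)
    · exact ⟨-1, by rw [mem_Icc]; omega, t.dgeo_q_neg⟩
    · exact ⟨0, by rw [mem_Icc]; omega, t.dgeo_q_zero⟩
    · have := mem_range.1 hj
      exact ⟨2 * j + 1, by rw [mem_Icc]; omega, t.dgeo_q_y j⟩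
    · have := mem_range.1 hj
      exact ⟨2 * j + 2, by rw [mem_Icc]; omega, t.dgeo_q_w j⟩
  · rintro ⟨n, hn, rfl⟩
    rw [mem_Icc] at hn
    by_cases h0 : n = -1
    · subst h0
      exact Or.inl t.dgeo_q_neg
    · have hn' : n ∈ Icc (0 : ℤ) (2 * t.k + 2) := by rw [mem_Icc]; omega
      rcases dgeo_cases hn' with rfl | ⟨j, hj, rfl⟩ | ⟨j, hj, rfl⟩
      · exact Or.inr (Or.inl t.dgeo_q_zero)
      · exact Or.inr (Or.inr (Or.inl ⟨j, mem_range.2 (by omega), (t.dgeo_q_y j).symm⟩))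
      · exact Or.inr (Or.inr (Or.inr ⟨j, mem_range.2 (by omega), (t.dgeo_q_w j).symm⟩))

/-- `K_image` -/
theorem K_S {A : Finset ℤ} (hA : A ⊆ Icc (0 : ℤ) (2 * t.k + 2)) :
    K σ.S.toEG (A.image t.q) = K Zz.toEG A := by
  symm
  apply K_image
  · intro a ha b hb h
    exact t.dgeo_q_inj0 (hA ha) (hA hb) h
  · intro a ha b hb
    exact (t.q_S (hA ha) (hA hb)).1.symm
  · intro a ha b hb
    exact (t.q_S (hA ha) (hA hb)).2.symm

end JStrip

namespace DSys

variable {M : Type*} {σ : Sys0 M} (D : DSys σ)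

theorem dgeo_eq {i j : D.ι} {x : M} (hi : x ∈ (D.st i).kap) (hj : x ∈ (D.st j).kap) : i = j := by
  have h1 : (D.st i).u ∈ (D.st j).kap :=
    (D.st i).dgeo_mem_of_closed (fun a ha b hb => (D.st j).kap_closed ha hb) hi hj
  apply D.inj
  rcases (D.st j).dgeo_mem_kap.1 h1 with h | ⟨m, hm, h⟩ | ⟨m, hm, h⟩
  · exact h
  · exact absurd (Or.inl (h ▸ (D.st i).yu)) ((D.st j).ymin m hm ((D.st i).y 0))
  · exact absurd (h ▸ (D.st j).yw m hm) ((D.st i).uW ((D.st j).y m))

/-- if two of the sets `kap` meet they are equal (components), then `u` is the same (the only element with a north neighbour and without west neighbour in `S`) -/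
theorem kap_disjoint {i j : D.ι} (hij : i ≠ j) : Disjoint (D.st i).kap (D.st j).kap := by
  rw [Finset.disjoint_left]
  intro x hx hx'
  exact hij (D.dgeo_eq hx hx')

theorem p_inj {i j : D.ι} (h : (D.st i).p = (D.st j).p) : i = j := by
  have h1 := (D.st i).dl.1
  rw [h] at h1
  exact D.inj (σ.R.uw h1 (D.st j).dl.1)

theorem yk_inj {i j : D.ι} (h : (D.st i).y (D.st i).k = (D.st j).y (D.st j).k) : i = j := by
  exact D.dgeo_eq ((D.st i).dgeo_y_mem le_rfl) (h ▸ (D.st j).dgeo_y_mem le_rfl)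

theorem p_notMem_kap (i j : D.ι) : (D.st i).p ∉ (D.st j).kap := by
  intro h
  obtain ⟨z, hz | hz⟩ := (D.st j).dgeo_edge h
  · exact ((D.st i).pS z).2 hz
  · exact ((D.st i).pS z).1 hz

theorem cls_disjoint {i j : D.ι} (hij : i ≠ j) : Disjoint (D.st i).cls (D.st j).cls := by
  rw [Finset.disjoint_left]
  unfold JStrip.cls
  intro x hx hx'
  rw [mem_insert] at hx hx'
  rcases hx with hx | hx <;> rcases hx' with hx' | hx'
  · exact hij (D.p_inj (hx ▸ hx'))
  · exact D.p_notMem_kap i j (hx ▸ hx')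
  · exact D.p_notMem_kap j i (hx' ▸ hx)
  · exact hij (D.dgeo_eq hx hx')

/-- `y k` has no east neighbour in `R`: `w k` is not one; a D-source is isolated in `S` -/
theorem yk_R (i : D.ι) (z : M) : ¬ σ.R.w ((D.st i).y (D.st i).k) z := by
  intro h
  by_cases h1 : σ.S.w ((D.st i).y (D.st i).k) z
  · have h2 := σ.S.uw h1 ((D.st i).yw _ le_rfl)
    subst h2
    exact (D.st i).cl.2 h
  · obtain ⟨j, h2, -⟩ := D.hD _ _ ⟨h, h1⟩
    exact D.p_notMem_kap j i (h2 ▸ (D.st i).dgeo_y_mem le_rfl)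

/-- `cls` is closed under the edges of `R`. `M0`-edges of `R` are edges of `S`; D-links: `hD`, `inj` -/
theorem cls_closed (hL : σ.Links) (i : D.ι) {x z : M} (hx : x ∈ (D.st i).cls)
    (h : σ.R.e x z ∨ σ.R.e z x) : z ∈ (D.st i).cls := by
  unfold JStrip.cls at hx ⊢
  rw [mem_insert] at hx ⊢
  have hM : ∀ a b, σ.M0.e a b → σ.S.e a b := fun a b h => Sys0.S_e_iff.2 (Or.inl h)
  rcases hx with rfl | hx
  · rcases h with h | h
    · rcases Sys0.R_e_iff.1 h with h | h
      · exact absurd (hM _ _ h) ((D.st i).pS z).2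
      · obtain ⟨j, h1, h2⟩ := D.hD _ _ h
        have := D.p_inj h1
        subst this
        exact Or.inr (h2 ▸ (D.st i).dgeo_u_mem)
    · rcases Sys0.R_e_iff.1 h with h | h
      · exact absurd (hM _ _ h) ((D.st i).pS z).1
      · obtain ⟨j, h1, h2⟩ := D.hD _ _ h
        exact absurd (h2 ▸ (D.st j).dgeo_u_mem) (D.p_notMem_kap i j)
  · rcases h with h | h
    · rcases Sys0.R_e_iff.1 h with h | h
      · exact Or.inr ((D.st i).kap_closed hx (Or.inl (hM _ _ h)))
      · obtain ⟨j, h1, h2⟩ := D.hD _ _ h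
        exact absurd (h1 ▸ hx) (D.p_notMem_kap j i)
    · rcases Sys0.R_e_iff.1 h with h | h
      · exact Or.inr ((D.st i).kap_closed hx (Or.inr (hM _ _ h)))
      · obtain ⟨j, h1, h2⟩ := D.hD _ _ h
        have h3 : (D.st j).u ∈ (D.st i).kap := h2 ▸ hx
        have := D.dgeo_eq h3 (D.st j).dgeo_u_mem
        subst this
        exact Or.inl h1

theorem q_R (hL : σ.Links) (i : D.ι) {a b : ℤ} (ha : a ∈ Icc (-1 : ℤ) (2 * (D.st i).k + 1))
    (hb : b ∈ Icc (-1 : ℤ) (2 * (D.st i).k + 1)) :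
    (σ.R.s ((D.st i).q a) ((D.st i).q b) ↔ Zz.s a b) ∧
      (σ.R.w ((D.st i).q a) ((D.st i).q b) ↔ Zz.w a b) := by
  have hM : ∀ a b, σ.M0.e a b → σ.S.e a b := fun a b h => Sys0.S_e_iff.2 (Or.inl h)
  have hN : ∀ z, ¬ σ.R.e z (D.st i).p := by
    intro z h
    rcases Sys0.R_e_iff.1 h with h | h
    · exact absurd (hM _ _ h) ((D.st i).pS z).1
    · obtain ⟨j, h1, h2⟩ := D.hD _ _ h
      exact absurd (h2 ▸ (D.st j).dgeo_u_mem) (D.p_notMem_kap i j)
  have hs : ∀ z, ¬ σ.R.s (D.st i).p z := fun z h => ((D.st i).pS z).2 (Or.inl ((σ.s_iff _ _).2 h))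
  rw [mem_Icc] at ha hb
  by_cases hb1 : b = -1
  · subst hb1
    rw [JStrip.dgeo_q_neg]
    constructor
    · exact iff_of_false (fun h => hN _ (Or.inl h)) (fun h => by have := h.1; have := h.2; omega)
    · exact iff_of_false (fun h => hN _ (Or.inr h)) (fun h => by have := h.1; omega)
  · by_cases ha1 : a = -1
    · subst ha1
      rw [JStrip.dgeo_q_neg]
      constructor
      · exact iff_of_false (hs _) (fun h => by have := h.1; omega)
      · constructor
        · intro h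
          have h1 := σ.R.uw h (D.st i).dl.1
          rw [← JStrip.dgeo_q_zero] at h1
          have h2 := (D.st i).dgeo_q_inj0 (by rw [mem_Icc]; omega) (by rw [mem_Icc]; omega) h1
          subst h2
          exact ⟨by norm_num, by norm_num⟩
        · rintro ⟨h1, -⟩
          have : b = 0 := by omega
          rw [this, JStrip.dgeo_q_zero]
          exact (D.st i).dl.1
    · have ha' : a ∈ Icc (0 : ℤ) (2 * (D.st i).k + 2) := by rw [mem_Icc]; omega
      have hb' : b ∈ Icc (0 : ℤ) (2 * (D.st i).k + 2) := by rw [mem_Icc]; omega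
      have hq := (D.st i).q_S ha' hb'
      constructor
      · rw [← σ.s_iff]
        exact hq.1
      · constructor
        · intro h
          by_cases h1 : σ.S.w ((D.st i).q a) ((D.st i).q b)
          · exact hq.2.1 h1
          · obtain ⟨j, h2, h3⟩ := D.hD _ _ ⟨h, h1⟩
            exact absurd (h2 ▸ (D.st i).dgeo_q_mem ha') (D.p_notMem_kap j i)
        · rintro ⟨h1, h2⟩
          obtain ⟨j, hj⟩ : ∃ j : ℕ, a = 2 * (j : ℤ) + 1 := ⟨((a - 1) / 2).toNat, by omega⟩
          have hb2 : b = 2 * (j : ℤ) + 2 := by omega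
          rw [hj, hb2, JStrip.dgeo_q_y, JStrip.dgeo_q_w]
          exact (D.st i).ywR j (by omega)

theorem K_R (hL : σ.Links) (i : D.ι) {A : Finset ℤ} (hA : A ⊆ Icc (-1 : ℤ) (2 * (D.st i).k + 1)) :
    K σ.R.toEG (A.image (D.st i).q) = K Zz.toEG A := by
  symm
  have hs : Icc (-1 : ℤ) (2 * (D.st i).k + 1) ⊆ Icc (-1 : ℤ) (2 * (D.st i).k + 2) :=
    Icc_subset_Icc le_rfl (by omega)
  apply K_image
  · intro a ha b hb h
    exact (D.st i).q_inj (mem_coe.2 (hs (hA ha))) (mem_coe.2 (hs (hA hb))) h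
  · intro a ha b hb
    exact (D.q_R hL i (hA ha) (hA hb)).1.symm
  · intro a ha b hb
    exact (D.q_R hL i (hA ha) (hA hb)).2.symm

/-- an edge of `S` between two elements `x`, `z` with `z` not a `w k` is an edge of `R`; etc. -/
theorem S_e_R {x z : M} (h : σ.S.e x z) (hz : ∀ i, z ≠ (D.st i).w (D.st i).k) : σ.R.e x z := by
  rcases Sys0.S_e_iff.1 h with h1 | h1
  · exact Sys0.R_e_iff.2 (Or.inl h1)
  · obtain ⟨i, -, h2⟩ := D.hC _ _ h1
    exact absurd h2 (hz i)

theorem R_e_S {x z : M} (h : σ.R.e x z) (hz : ∀ i, z ≠ (D.st i).u) : σ.S.e x z := by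
  rcases Sys0.R_e_iff.1 h with h1 | h1
  · exact Sys0.S_e_iff.2 (Or.inl h1)
  · obtain ⟨i, -, h2⟩ := D.hD _ _ h1
    exact absurd h2 (hz i)

end DSys

end Pool.PP2
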