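import Pool.Agent.Lib.PP2.D.Stage
import Pool.Agent.Lib.PP2.S2

/-!
# Chunk D-P3: the coefficient of `p_3` in the left alphabet
-/

namespace Pool.PP2

open Finset Classical MvPolynomial

section P3aux

variable {M : Type*}

theorem dp3_cr_aux (Q : EG M) {F : Finset M} {a b : M}
    (h1 : ∀ x ∈ F, ¬ (Q.wu F x ∧ Q.sl F x)) (ha : a ∈ F)
    (h2 : ∀ x ∈ F, (¬ Q.wu F x ∧ ¬ Q.sl F x) ↔ x = a) (hb : b ∈ F)
    (h3 : ∀ x ∈ F, Q.sl F x ↔ x = b) : Q.cr F = -1 := by
  have e1 : Q.ends F = {a} := by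
    ext x
    unfold EG.ends
    rw [mem_filter, mem_singleton]
    constructor
    · rintro ⟨h4, h5⟩
      exact (h2 x h4).1 h5
    · rintro rfl
      exact ⟨ha, (h2 _ ha).2 rfl⟩
  have e2 : F.filter (fun x => Q.sl F x) = {b} := by
    ext x
    rw [mem_filter, mem_singleton]
    constructor
    · rintro ⟨h4, h5⟩
      exact (h3 x h4).1 h5
    · rintro rfl
      exact ⟨hb, (h3 _ hb).2 rfl⟩
  unfold EG.cr EG.ns
  rw [if_pos ⟨h1, by rw [e1, card_singleton]⟩, e2, card_singleton, pow_one]

theorem dp3_cr_lam (Q : Skew M) {t n r : M} (h1 : Q.s n t) (h2 : Q.w r t) :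
    Q.cr {t, n, r} = -1 := by
  have l1 := Q.lab_s h1
  have l2 := Q.lab_w h2
  have k1 := Q.rk_s h1
  have k2 := Q.rk_w h2
  have wn : ¬ Q.wu {t, n, r} n := by
    rintro ⟨y, hy, h⟩
    have := Q.lab_w h
    simp only [mem_insert, mem_singleton] at hy
    rcases hy with rfl | rfl | rfl <;> omega
  have wt : ¬ Q.wu {t, n, r} t := by
    rintro ⟨y, hy, h⟩
    have := Q.rk_w h
    simp only [mem_insert, mem_singleton] at hy
    rcases hy with rfl | rfl | rfl <;> omega
  have wr : Q.wu {t, n, r} r := ⟨t, by simp, h2⟩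
  have sn : ¬ Q.sl {t, n, r} n := by
    rintro ⟨y, hy, h⟩
    have a1 := Q.lab_s h
    have a2 := Q.rk_s h
    simp only [mem_insert, mem_singleton] at hy
    rcases hy with rfl | rfl | rfl <;> omega
  have st : Q.sl {t, n, r} t := ⟨n, by simp, h1⟩
  have sr : ¬ Q.sl {t, n, r} r := by
    rintro ⟨y, hy, h⟩
    have a1 := Q.lab_s h
    have a2 := Q.rk_s h
    simp only [mem_insert, mem_singleton] at hy
    rcases hy with rfl | rfl | rfl
    · omega
    · have := Q.us h h1
      subst this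
      omega
    · omega
  have nt : n ≠ t := by rintro rfl; omega
  have nr : n ≠ r := by rintro rfl; omega
  have rt : r ≠ t := by rintro rfl; omega
  refine dp3_cr_aux Q.toEG (a := n) (b := t) ?_ (by simp) ?_ (by simp) ?_
  · intro x hx
    simp only [mem_insert, mem_singleton] at hx
    rcases hx with rfl | rfl | rfl
    · exact fun h => wt h.1
    · exact fun h => sn h.2
    · exact fun h => sr h.2
  · intro x hx
    simp only [mem_insert, mem_singleton] at hx
    rcases hx with rfl | rfl | rfl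
    · exact ⟨fun h => absurd st h.2, fun h => absurd h.symm nt⟩
    · exact ⟨fun _ => rfl, fun _ => ⟨wn, sn⟩⟩
    · exact ⟨fun h => absurd wr h.1, fun h => absurd h.symm nr⟩
  · intro x hx
    simp only [mem_insert, mem_singleton] at hx
    rcases hx with rfl | rfl | rfl
    · exact ⟨fun _ => rfl, fun _ => st⟩
    · exact ⟨fun h => absurd h sn, fun h => absurd h nt⟩
    · exact ⟨fun h => absurd h sr, fun h => absurd h rt⟩

theorem dp3_cr_vee (Q : Skew M) {u y w : M} (h1 : Q.s y u) (h2 : Q.w y w) :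
    Q.cr {u, y, w} = -1 := by
  have l1 := Q.lab_s h1
  have l2 := Q.lab_w h2
  have k1 := Q.rk_s h1
  have k2 := Q.rk_w h2
  have wu : ¬ Q.wu {u, y, w} u := by
    rintro ⟨z, hz, h⟩
    have a1 := Q.lab_w h
    have a2 := Q.rk_w h
    simp only [mem_insert, mem_singleton] at hz
    rcases hz with rfl | rfl | rfl
    · omega
    · omega
    · have := Q.lw h h2
      subst this
      omega
  have wy : Q.wu {u, y, w} y := ⟨w, by simp, h2⟩
  have ww : ¬ Q.wu {u, y, w} w := by
    rintro ⟨z, hz, h⟩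
    have a1 := Q.lab_w h
    simp only [mem_insert, mem_singleton] at hz
    rcases hz with rfl | rfl | rfl <;> omega
  have su : Q.sl {u, y, w} u := ⟨y, by simp, h1⟩
  have sy : ¬ Q.sl {u, y, w} y := by
    rintro ⟨z, hz, h⟩
    have a2 := Q.rk_s h
    simp only [mem_insert, mem_singleton] at hz
    rcases hz with rfl | rfl | rfl <;> omega
  have sw : ¬ Q.sl {u, y, w} w := by
    rintro ⟨z, hz, h⟩
    have a1 := Q.lab_s h
    simp only [mem_insert, mem_singleton] at hz
    rcases hz with rfl | rfl | rfl <;> omega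
  have yu : y ≠ u := by rintro rfl; omega
  have wy' : w ≠ y := by rintro rfl; omega
  have wu' : w ≠ u := by rintro rfl; omega
  refine dp3_cr_aux Q.toEG (a := w) (b := u) ?_ (by simp) ?_ (by simp) ?_
  · intro x hx
    simp only [mem_insert, mem_singleton] at hx
    rcases hx with rfl | rfl | rfl
    · exact fun h => wu h.1
    · exact fun h => sy h.2
    · exact fun h => sw h.2
  · intro x hx
    simp only [mem_insert, mem_singleton] at hx
    rcases hx with rfl | rfl | rfl
    · exact ⟨fun h => absurd su h.2, fun h => absurd h.symm wu'⟩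
    · exact ⟨fun h => absurd wy h.1, fun h => absurd h.symm wy'⟩
    · exact ⟨fun _ => rfl, fun _ => ⟨ww, sw⟩⟩
  · intro x hx
    simp only [mem_insert, mem_singleton] at hx
    rcases hx with rfl | rfl | rfl
    · exact ⟨fun _ => rfl, fun _ => su⟩
    · exact ⟨fun h => absurd h sy, fun h => absurd h yu⟩
    · exact ⟨fun h => absurd h sw, fun h => absurd h wu'⟩

theorem dp3_cr_congr (Q Q' : EG M) (F : Finset M)
    (hs : ∀ x ∈ F, ∀ y ∈ F, (Q.s x y ↔ Q'.s x y))
    (hw : ∀ x ∈ F, ∀ y ∈ F, (Q.w x y ↔ Q'.w x y)) : Q.cr F = Q'.cr F := by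
  have h := cr_image Q Q' F id (Set.injOn_id _) hs hw
  simpa using h

/-- a set which is not connected has `cr = 0` -/
theorem dp3_cr_zero (Q : EG M) {L T : Finset M} (hT : T ⊆ L) (h1 : T.Nonempty)
    (h2 : (L \ T).Nonempty) (h : ∀ x ∈ L \ T, ∀ y ∈ T, ¬ Q.e x y ∧ ¬ Q.e y x) : Q.cr L = 0 := by
  have h3 := e5_cr_union Q h2 h1 sdiff_disjoint h
  rwa [sdiff_union_of_subset hT] at h3

theorem dp3_card3 {a b c : M} (hab : a ≠ b) (hac : a ≠ c) (hbc : b ≠ c) :
    ({a, b, c} : Finset M).card = 3 := Finset.card_eq_three.2 ⟨a, b, c, hab, hac, hbc, rfl⟩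

theorem dp3_eq3 {L : Finset M} (hc : L.card = 3) {a b c : M} (ha : a ∈ L) (hb : b ∈ L)
    (hc' : c ∈ L) (hab : a ≠ b) (hac : a ≠ c) (hbc : b ≠ c) : L = {a, b, c} := by
  symm
  apply eq_of_subset_of_card_le
  · intro x hx
    simp only [mem_insert, mem_singleton] at hx
    rcases hx with rfl | rfl | rfl <;> assumption
  · rw [hc, dp3_card3 hab hac hbc]

theorem dp3_four {L : Finset M} (hc : L.card = 3) {a b c d : M} (ha : a ∈ L) (hb : b ∈ L)
    (hc' : c ∈ L) (hd : d ∈ L) (hab : a ≠ b) (hac : a ≠ c) (had : a ≠ d) (hbc : b ≠ c)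
    (hbd : b ≠ d) (hcd : c ≠ d) : False := by
  have h1 := dp3_eq3 hc ha hb hc' hab hac hbc
  rw [h1] at hd
  simp only [mem_insert, mem_singleton] at hd
  rcases hd with h | h | h
  · exact had h.symm
  · exact hbd h.symm
  · exact hcd h.symm

theorem dp3_sum {ι : Type*} (s : Finset ι) (f : ι → Finset M) (F : Finset (Finset M))
    (hinj : ∀ a ∈ s, ∀ b ∈ s, f a = f b → a = b) (hF : ∀ a ∈ s, f a ∈ F)
    (g : Finset M → Lam ℚ) :
    ∑ L ∈ F, C (if ∃ q ∈ s, L = f q then (1 : ℚ) else 0) * g L = ∑ q ∈ s, g (f q) := by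
  rw [← sum_image (s := s) (g := f) (f := g) hinj]
  have h1 : s.image f = F.filter (fun L => ∃ q ∈ s, L = f q) := by
    ext L
    rw [mem_image, mem_filter]
    constructor
    · rintro ⟨a, ha, rfl⟩
      exact ⟨hF a ha, a, ha, rfl⟩
    · rintro ⟨_, a, ha, h⟩
      exact ⟨a, ha, h.symm⟩
  rw [h1, sum_filter]
  refine sum_congr rfl fun L _ => ?_
  split_ifs
  · rw [C_1, one_mul]
  · rw [C_0, zero_mul]

end P3aux

namespace Sys0

variable {M : Type*} {σ : Sys0 M} [Fintype M]

/-- the linear functional coefficient of `X 3` on the left alphabet: it is `cr L / 3` on `K L` for `#L = 3` and `0` otherwise for convex `L` (`pderiv_low` for `L` and `K_const`, or `K_eq`) -/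
theorem p3_word {G : Finset M} (hG : σ.JJ G) (hS : σ.StarOn G) :
    ∑ L ∈ (univ : Finset (Finset M)).filter (fun L => σ.JJ L ∧ L ⊆ G ∧ L.card = 3),
        C (σ.R.cr L) * K σ.S.toEG (G \ L) =
      ∑ L ∈ (univ : Finset (Finset M)).filter (fun L => σ.S.Low L ∧ L ⊆ G ∧ L.card = 3),
        C (σ.S.cr L) * K σ.S.toEG (G \ L) := by
  obtain ⟨Ψ, hΨ⟩ := exists_left (A := ℚ) (((3 : ℕ) : ℚ) • (lcoeff ℚ (0 : ℕ →₀ ℕ)).comp
    (pderiv 3 : Derivation ℚ (Lam ℚ) (Lam ℚ)).toLinearMap)
  have h1 := congrArg Ψ hS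
  rw [map_sum, map_sum] at h1
  simp only [hΨ] at h1
  have e : ∀ (Q : Skew M) (P : Finset M → Prop) (_ : ∀ L, P L → Q.Low L),
      ∑ L ∈ (univ : Finset (Finset M)).filter (fun L => P L ∧ L ⊆ G),
        C ((((3 : ℕ) : ℚ) • (lcoeff ℚ (0 : ℕ →₀ ℕ)).comp
          (pderiv 3 : Derivation ℚ (Lam ℚ) (Lam ℚ)).toLinearMap) (K Q.toEG L)) *
          MvPolynomial.map (algebraMap ℚ ℚ) (K σ.S.toEG (G \ L)) =
      ∑ L ∈ (univ : Finset (Finset M)).filter (fun L => P L ∧ L ⊆ G ∧ L.card = 3),
        C (Q.cr L) * K σ.S.toEG (G \ L) := by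
    intro Q P hP
    have h2 : (univ : Finset (Finset M)).filter (fun L => P L ∧ L ⊆ G ∧ L.card = 3) =
        ((univ : Finset (Finset M)).filter (fun L => P L ∧ L ⊆ G)).filter
          (fun L => L.card = 3) := by
      ext L
      simp only [mem_filter, mem_univ, true_and, and_assoc]
    rw [h2, sum_filter (s := (univ : Finset (Finset M)).filter (fun L => P L ∧ L ⊆ G))]
    refine sum_congr rfl fun L hL => ?_
    rw [s2_phi Q (by norm_num) (EG.Low.cvx (hP L (mem_filter.1 hL).2.1)),
      Algebra.algebraMap_self, MvPolynomial.map_id]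
    split_ifs
    · rfl
    · rw [C_0, zero_mul]
  rw [e σ.R σ.JJ (fun L hL => hL.2.1), e σ.S σ.S.Low (fun L hL => hL)] at h1
  exact h1

end Sys0

namespace DSys

variable {M : Type*} {σ : Sys0 M} (D : DSys σ) [Fintype M]

theorem dp3_yk_mem {t : JStrip σ} {L : Finset M} (hLS : σ.S.Low L) (h : t.w t.k ∈ L) :
    t.y t.k ∈ L := hLS _ _ (Or.inr t.cl.1) h

theorem dp3_caseA (hA : σ.LSax) {G : Finset M} {L : Finset M}
    (hLS : σ.S.Low L) (hLG : L ⊆ G) (hc : L.card = 3) (hU : ∀ i, (D.st i).u ∉ L)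
    (hW : ∀ i, (D.st i).w (D.st i).k ∉ L) :
    (if σ.JJ L then σ.R.cr L else 0) - σ.S.cr L =
      (if ∃ q ∈ σ.trip G, L = {q.1, q.2.1, q.2.2} then 1 else 0) := by
  have hnoC : ∀ y w, σ.CL y w → w ∉ L := by
    intro y w h
    obtain ⟨i, _, rfl⟩ := D.hC y w h
    exact hW i
  have hnoD : ∀ p u, σ.DL p u → u ∉ L := by
    intro p u h
    obtain ⟨i, _, rfl⟩ := D.hD p u h
    exact hU i
  have hcr : σ.R.cr L = σ.S.cr L := by
    apply dp3_cr_congr
    · intro x _ y _
      exact (σ.s_iff x y).symm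
    · intro x _ y hy
      constructor
      · intro h
        by_contra h2
        exact hnoD x y ⟨h, h2⟩ hy
      · intro h
        by_contra h2
        exact hnoC x y ⟨h, h2⟩ hy
  have hRlow : σ.R.Low L := by
    intro x y h hy
    rcases h with h | h
    · exact hLS x y (Or.inl ((σ.s_iff x y).2 h)) hy
    · by_cases h2 : σ.S.w x y
      · exact hLS x y (Or.inr h2) hy
      · exact absurd hy (hnoD x y ⟨h, h2⟩)
  by_cases hJ : σ.JJ L
  · rw [if_pos hJ, hcr, sub_self, if_neg]
    rintro ⟨q, hq, hLq⟩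
    simp only [Sys0.trip, mem_filter, mem_univ, true_and] at hq
    obtain ⟨-, ⟨x, hx⟩, h1, h2, -, -⟩ := hq
    have hx' : x ∈ L := hJ.2.2 x _ hx (by rw [hLq]; simp)
    rw [hLq] at hx'
    simp only [mem_insert, mem_singleton] at hx'
    rcases hx' with rfl | rfl | rfl
    · exact hA.ne hx Relation.ReflTransGen.refl
    · exact hA.ne hx (Relation.ReflTransGen.single (Or.inl h1))
    · exact hA.ne hx (Relation.ReflTransGen.single (Or.inr h2))
  · rw [if_neg hJ]
    have h1 : ∃ x t, σ.LS x t ∧ t ∈ L ∧ x ∉ L := by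
      by_contra hcon
      push Not at hcon
      exact hJ ⟨hLS, hRlow, fun x y h hy => hcon x y h hy⟩
    obtain ⟨x, t, hxt, htL, -⟩ := h1
    obtain ⟨n, hn⟩ := D.lsN hxt
    obtain ⟨r, hr⟩ := D.lsW hxt (fun p hp => hnoD p t hp htL)
    have hnL := hLS n t (Or.inl hn) htL
    have hrL := hLS r t (Or.inr hr) htL
    have l1 := σ.S.lab_s hn
    have l2 := σ.S.lab_w hr
    have k1 := σ.S.rk_s hn
    have k2 := σ.S.rk_w hr
    have htn : t ≠ n := by rintro rfl; omega
    have htr : t ≠ r := by rintro rfl; omega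
    have hnr : n ≠ r := by rintro rfl; omega
    have hL3 := dp3_eq3 hc htL hnL hrL htn htr hnr
    have hnmin : σ.minS n := by
      intro z hz
      have hzL := hLS z n hz hnL
      rw [hL3] at hzL
      simp only [mem_insert, mem_singleton] at hzL
      rcases hz with hz | hz
      · have a1 := σ.S.lab_s hz
        have a2 := σ.S.rk_s hz
        rcases hzL with rfl | rfl | rfl <;> omega
      · have a1 := σ.S.lab_w hz
        have a2 := σ.S.rk_w hz
        rcases hzL with rfl | rfl | rfl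
        · omega
        · omega
        · exact htn (σ.S.uw hr hz)
    have hrmin : σ.minS r := by
      intro z hz
      have hzL := hLS z r hz hrL
      rw [hL3] at hzL
      simp only [mem_insert, mem_singleton] at hzL
      rcases hz with hz | hz
      · have a1 := σ.S.lab_s hz
        have a2 := σ.S.rk_s hz
        rcases hzL with rfl | rfl | rfl
        · omega
        · exact htr (σ.S.us hn hz)
        · omega
      · have a1 := σ.S.lab_w hz
        have a2 := σ.S.rk_w hz
        rcases hzL with rfl | rfl | rfl <;> omega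
    have hcrS : σ.S.cr L = -1 := by rw [hL3]; exact dp3_cr_lam σ.S hn hr
    rw [hcrS, if_pos]
    · norm_num
    · refine ⟨(t, n, r), ?_, hL3⟩
      simp only [Sys0.trip, mem_filter, mem_univ, true_and]
      exact ⟨hLG htL, ⟨x, hxt⟩, hn, hr, hnmin, hrmin⟩

theorem dp3_ind2_of_u {G L : Finset M} (hU : ∀ i, (D.st i).u ∉ L) :
    ¬ ∃ i ∈ D.stripsIn G, (D.st i).k = 0 ∧ L = {(D.st i).u, (D.st i).y 0, (D.st i).w 0} := by
  rintro ⟨i, _, _, h⟩
  exact hU i (by rw [h]; simp)

theorem dp3_ind3_of_u {G L : Finset M} (hU : ∀ i, (D.st i).u ∉ L) :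
    ¬ ∃ i ∈ D.stripsIn G, (∀ x, ¬ σ.LS x (D.st i).u) ∧ L = (D.st i).tri := by
  rintro ⟨i, _, _, h⟩
  exact hU i (by rw [h, JStrip.tri]; simp)

theorem dp3_caseB {G : Finset M} {L : Finset M}
    (hLS : σ.S.Low L) (hc : L.card = 3) (hU : ∀ i, (D.st i).u ∉ L)
    {i : D.ι} (hW : (D.st i).w (D.st i).k ∈ L) :
    (if σ.JJ L then σ.R.cr L else 0) - σ.S.cr L =
      (if ∃ q ∈ σ.trip G, L = {q.1, q.2.1, q.2.2} then 1 else 0) := by
  obtain ⟨t, ht⟩ : ∃ t, t = D.st i := ⟨_, rfl⟩
  have hUi := hU i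
  rw [← ht] at hW hUi
  have hyL : t.y t.k ∈ L := dp3_yk_mem hLS hW
  have hyw : t.y t.k ≠ t.w t.k := t.y_ne_w le_rfl le_rfl
  have hS : σ.S.cr L = 0 := by
    refine dp3_cr_zero σ.S.toEG (T := {t.y t.k, t.w t.k}) ?_ ⟨_, mem_insert_self _ _⟩ ?_ ?_
    · intro x hx
      simp only [mem_insert, mem_singleton] at hx
      rcases hx with rfl | rfl <;> assumption
    · rw [← card_pos]
      have := le_card_sdiff {t.y t.k, t.w t.k} L
      have h2 : ({t.y t.k, t.w t.k} : Finset M).card ≤ 2 := card_le_two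
      omega
    · intro z hz x hx
      simp only [mem_sdiff, mem_insert, mem_singleton, not_or] at hz hx
      obtain ⟨hzL, hzy, hzw⟩ := hz
      rcases hx with rfl | rfl
      · refine ⟨t.ymin _ le_rfl z, ?_⟩
        rintro (h | h)
        · rcases Nat.eq_zero_or_pos t.k with hk | hk
          · rw [hk] at h
            have := σ.S.us h t.yu
            subst this
            exact hUi hzL
          · obtain ⟨m, hm⟩ := Nat.exists_eq_succ_of_ne_zero hk.ne'
            have h1 := t.yw' m (by omega)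
            rw [show m + 1 = t.k by omega] at h1
            have h2 := σ.S.us h h1
            subst h2
            have h3 := hLS _ _ (Or.inr (t.yw m (by omega))) hzL
            refine dp3_four hc hW hyL hzL h3 hyw.symm (fun h4 => ?_) (fun h4 => ?_) (fun h4 => ?_)
              (fun h4 => ?_) (fun h4 => ?_)
            · exact hzw h4.symm
            · exact t.y_ne_w (i := m) (j := t.k) (by omega) le_rfl h4.symm
            · exact hzy h4.symm
            · have := t.y_inj le_rfl (by omega) h4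
              omega
            · exact t.y_ne_w (i := m) (j := m) (by omega) (by omega) h4.symm
        · exact hzw (σ.S.uw h (t.yw _ le_rfl))
      · refine ⟨?_, t.wmax _ le_rfl z⟩
        rintro (h | h)
        · exact t.wN z h
        · exact hzy (σ.S.lw h (t.yw _ le_rfl))
  have hR : σ.R.cr L = 0 := by
    refine dp3_cr_zero σ.R.toEG (T := {t.w t.k}) ?_ ⟨_, mem_singleton_self _⟩ ?_ ?_
    · intro x hx
      rw [mem_singleton] at hx
      rwa [hx]
    · exact ⟨t.y t.k, by simp [hyL, hyw]⟩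
    · intro z hz x hx
      rw [mem_singleton] at hx
      subst hx
      exact t.wR z
  have hind1 : ¬ ∃ q ∈ σ.trip G, L = {q.1, q.2.1, q.2.2} := by
    rintro ⟨q, hq, hLq⟩
    simp only [Sys0.trip, mem_filter, mem_univ, true_and] at hq
    obtain ⟨-, -, h1, h2, -, -⟩ := hq
    rw [hLq] at hW
    simp only [mem_insert, mem_singleton] at hW
    rcases hW with h | h | h
    · rw [← h] at h1
      exact t.wN _ h1
    · rw [← h] at h1
      exact t.wmax _ le_rfl _ (Or.inl h1)
    · rw [← h] at h2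
      exact t.wmax _ le_rfl _ (Or.inr h2)
  rw [hS, hR, if_neg hind1, ite_self, sub_self]

/-- the contribution of a three element set which is lower in `S`: (i) `{t, N t, W t}` with a violated constraint; (ii) `{u, y 0, w 0}` for `k = 0`;
(iii) `{p, u, y 0}` without constraint on `u`. Everything else contributes `0`:
* no `u_i` and no `w_{k_i}` in `L`: `R` and `S` have the same edges in `L`, `L` is `R`-lower, so `cr` is the same; `L ∈ 𝓙` unless there is a constraint
`x ⇒ t`, `t ∈ L`, `x ∉ L`: then `N t`, `W t ∈ L` exist (`lsN`, `lsW`), `L = {t, N t, W t}`, `N t`, `W t` minimal, `cr L = -1`;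
* `w_{k_i} ∈ L`, no `u_j ∈ L`: `y_k ∈ L`, and the third element is not adjacent to both in `S` (`w_{k-1}` needs `y_{k-1}`): `cr = 0` in `S` (two components), and in `R` (`w_k` isolated);
* `u_i ∈ L`: `y 0 ∈ L`, third element `w 0` (`k = 0`; `cr = -1` in `S`, not `R`-lower) or `p` (`cr = -1` in `R`, `cr = 0` in `S`; in `𝓙` iff no constraint on `u`: the sources in `L` are excluded by `ne`, `ne'`)
or anything else: `cr = 0` in `S`, not `R`-lower. -/
theorem p3_term (hL : σ.Links) (hA : σ.LSax) {G : Finset M} (hG : D.Stage G) {L : Finset M}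
    (hLS : σ.S.Low L) (hLG : L ⊆ G) (hc : L.card = 3) :
    (if σ.JJ L then σ.R.cr L else 0) - σ.S.cr L =
      (if ∃ q ∈ σ.trip G, L = {q.1, q.2.1, q.2.2} then 1 else 0) +
      (if ∃ i ∈ D.stripsIn G, (D.st i).k = 0 ∧ L = {(D.st i).u, (D.st i).y 0, (D.st i).w 0} then 1 else 0) -
      (if ∃ i ∈ D.stripsIn G, (∀ x, ¬ σ.LS x (D.st i).u) ∧ L = (D.st i).tri then 1 else 0) := by
  by_cases hU : ∃ i, (D.st i).u ∈ L
  swap
  · push Not at hU
    rw [if_neg (D.dp3_ind2_of_u hU), if_neg (D.dp3_ind3_of_u hU), add_zero, sub_zero]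
    by_cases hW : ∃ i, (D.st i).w (D.st i).k ∈ L
    · obtain ⟨i, hi⟩ := hW
      exact D.dp3_caseB hLS hc hU hi
    · push Not at hW
      exact D.dp3_caseA hA hLS hLG hc hU hW
  obtain ⟨i, hu⟩ := hU
  have hin : i ∈ D.stripsIn G := by
    unfold DSys.stripsIn
    rw [mem_filter]
    exact ⟨mem_univ _, hLG hu⟩
  have hy0 : (D.st i).y 0 ∈ L := hLS _ _ (Or.inl (D.st i).yu) hu
  have huy : (D.st i).u ≠ (D.st i).y 0 := (D.st i).u_ne_y (Nat.zero_le _)
  have huk : (D.st i).u ∈ (D.st i).kap := by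
    unfold JStrip.kap
    exact mem_insert_self _ _
  have hykap : ∀ (j : D.ι) (m : ℕ), m ≤ (D.st j).k → (D.st j).y m ∈ (D.st j).kap := by
    intro j m hm
    unfold JStrip.kap
    refine mem_insert_of_mem (mem_union_left _ (mem_image_of_mem _ (mem_range.2 (by omega))))
  have hwkap : ∀ (j : D.ι) (m : ℕ), m ≤ (D.st j).k → (D.st j).w m ∈ (D.st j).kap := by
    intro j m hm
    unfold JStrip.kap
    refine mem_insert_of_mem (mem_union_right _ (mem_image_of_mem _ (mem_range.2 (by omega))))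
  have hukap : ∀ j : D.ι, (D.st j).u ∈ (D.st j).kap := by
    intro j
    unfold JStrip.kap
    exact mem_insert_self _ _
  have huniq : ∀ j, (D.st j).u ∈ L → j = i := by
    intro j hj
    by_contra hne
    have hyj : (D.st j).y 0 ∈ L := hLS _ _ (Or.inl (D.st j).yu) hj
    have hdis := D.kap_disjoint hne
    rw [disjoint_left] at hdis
    refine dp3_four hc hu hy0 hj hyj huy (fun h => ?_) (fun h => ?_) (fun h => ?_) (fun h => ?_)
      ((D.st j).u_ne_y (Nat.zero_le _))
    · exact hdis (hukap j) (h ▸ hukap i)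
    · exact hdis (hykap j 0 (Nat.zero_le _)) (h ▸ hukap i)
    · exact hdis (hukap j) (h ▸ hykap i 0 (Nat.zero_le _))
    · exact hdis (hykap j 0 (Nat.zero_le _)) (h ▸ hykap i 0 (Nat.zero_le _))
  have hind1 : ¬ ∃ q ∈ σ.trip G, L = {q.1, q.2.1, q.2.2} := by
    rintro ⟨q, hq, hLq⟩
    simp only [Sys0.trip, mem_filter, mem_univ, true_and] at hq
    obtain ⟨-, -, h1, h2, -, -⟩ := hq
    rw [hLq] at hu
    simp only [mem_insert, mem_singleton] at hu
    rcases hu with h | h | h
    · rw [← h] at h2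
      exact (D.st i).uW _ h2
    · rw [← h] at h1
      exact (D.st i).umax _ (Or.inl h1)
    · rw [← h] at h2
      exact (D.st i).umax _ (Or.inr h2)
  rw [if_neg hind1, zero_add]
  have hpR : σ.R.w (D.st i).p (D.st i).u := (D.st i).dl.1
  have hpk : ∀ j, (D.st i).p ∉ (D.st j).kap := fun j => D.p_notMem_kap i j
  by_cases hw0 : (D.st i).w 0 ∈ L
  · -- `L = {u, y 0, w 0}`
    have hwu : (D.st i).u ≠ (D.st i).w 0 := (D.st i).u_ne_w (Nat.zero_le _)
    have hyw : (D.st i).y 0 ≠ (D.st i).w 0 := (D.st i).y_ne_w (Nat.zero_le _) (Nat.zero_le _)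
    have hk : (D.st i).k = 0 := by
      by_contra hk
      have hk1 : 0 < (D.st i).k := Nat.pos_of_ne_zero hk
      have hy1 : (D.st i).y (0 + 1) ∈ L := hLS _ _ (Or.inl ((D.st i).yw' 0 hk1)) hw0
      refine dp3_four hc hu hy0 hw0 hy1 huy hwu ((D.st i).u_ne_y (by omega)) hyw (fun h => ?_)
        (fun h => ?_)
      · have := (D.st i).y_inj (Nat.zero_le _) (by omega) h
        omega
      · exact (D.st i).y_ne_w (i := 0 + 1) (j := 0) (by omega) (Nat.zero_le _) h.symm
    have hL3 := dp3_eq3 hc hu hy0 hw0 huy hwu hyw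
    have hcrS : σ.S.cr L = -1 := by
      rw [hL3]
      exact dp3_cr_vee σ.S (D.st i).yu ((D.st i).yw 0 (Nat.zero_le _))
    have hLkap : ∀ x ∈ L, x ∈ (D.st i).kap := by
      intro x hx
      rw [hL3] at hx
      simp only [mem_insert, mem_singleton] at hx
      rcases hx with rfl | rfl | rfl
      · exact hukap i
      · exact hykap i 0 (Nat.zero_le _)
      · exact hwkap i 0 (Nat.zero_le _)
    have hJ : ¬ σ.JJ L := fun h => hpk i (hLkap _ (h.2.1 _ _ (Or.inr hpR) hu))
    have hind3 : ¬ ∃ j ∈ D.stripsIn G, (∀ x, ¬ σ.LS x (D.st j).u) ∧ L = (D.st j).tri := by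
      rintro ⟨j, _, _, h⟩
      have h1 : (D.st j).p ∈ L := by rw [h, JStrip.tri]; simp
      exact D.p_notMem_kap j i (hLkap _ h1)
    rw [if_neg hJ, hcrS, if_neg hind3, if_pos ⟨i, hin, hk, hL3⟩]
    norm_num
  by_cases hp : (D.st i).p ∈ L
  · -- `L = {p, u, y 0}`
    have hpu : (D.st i).p ≠ (D.st i).u := fun h => hpk i (h ▸ hukap i)
    have hpy : (D.st i).p ≠ (D.st i).y 0 := fun h => hpk i (h ▸ hykap i 0 (Nat.zero_le _))
    have hL3 := dp3_eq3 hc hp hu hy0 hpu hpy huy
    have hcrS : σ.S.cr L = 0 := by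
      refine dp3_cr_zero σ.S.toEG (T := {(D.st i).p}) ?_ ⟨_, mem_singleton_self _⟩ ?_ ?_
      · intro x hx
        rw [mem_singleton] at hx
        rwa [hx]
      · exact ⟨(D.st i).u, by simp [hu, hpu.symm]⟩
      · intro z hz x hx
        rw [mem_singleton] at hx
        subst hx
        exact (D.st i).pS z
    have hcrR : σ.R.cr L = -1 := by
      have h1 := dp3_cr_lam σ.R (t := (D.st i).u) (n := (D.st i).y 0) (r := (D.st i).p)
        ((σ.s_iff _ _).1 (D.st i).yu) hpR
      have h2 : L = {(D.st i).u, (D.st i).y 0, (D.st i).p} := by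
        rw [hL3]
        ext x
        simp only [mem_insert, mem_singleton]
        tauto
      rw [h2]
      exact h1
    have hRlow : σ.R.Low L := by
      intro x y hxy hy
      rw [hL3] at hy
      simp only [mem_insert, mem_singleton] at hy
      rcases hy with rfl | rfl | rfl
      · rcases hxy with h | h
        · exact absurd (Or.inl ((σ.s_iff _ _).2 h)) ((D.st i).pS x).1
        · exact absurd h (hL.d2 (D.st i).dl)
      · rcases hxy with h | h
        · have := σ.S.ls ((σ.s_iff _ _).2 h) (D.st i).yu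
          rw [this]
          exact hy0
        · have := σ.R.lw h hpR
          rw [this]
          exact hp
      · exact absurd hxy ((D.st i).ymin_R hL (Nat.zero_le _) x)
    have hind2 : ¬ ∃ j ∈ D.stripsIn G, (D.st j).k = 0 ∧
        L = {(D.st j).u, (D.st j).y 0, (D.st j).w 0} := by
      rintro ⟨j, _, hk, h⟩
      apply hpk j
      rw [h] at hp
      simp only [mem_insert, mem_singleton] at hp
      rcases hp with h1 | h1 | h1
      · rw [h1]; exact hukap j
      · rw [h1]; exact hykap j 0 (Nat.zero_le _)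
      · rw [h1]; exact hwkap j 0 (Nat.zero_le _)
    rw [if_neg hind2, hcrS, hcrR, zero_sub, sub_zero]
    by_cases hcon : ∀ x, ¬ σ.LS x (D.st i).u
    · have hJ : σ.JJ L := by
        refine ⟨hLS, hRlow, fun x y hxy hy => ?_⟩
        rw [hL3] at hy
        simp only [mem_insert, mem_singleton] at hy
        rcases hy with rfl | rfl | rfl
        · obtain ⟨q, hq⟩ := D.lsN hxy
          exact absurd (Or.inl hq) ((D.st i).pS q).1
        · exact absurd hxy (hcon x)
        · obtain ⟨q, hq⟩ := D.lsN hxy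
          exact absurd (Or.inl hq) ((D.st i).ymin 0 (Nat.zero_le _) q)
      rw [if_pos hJ, if_pos]
      exact ⟨i, hin, hcon, by rw [JStrip.tri]; exact hL3⟩
    · have hJ : ¬ σ.JJ L := by
        intro h
        apply hcon
        intro x hx
        have hxL := h.2.2 _ _ hx hu
        rw [hL3] at hxL
        simp only [mem_insert, mem_singleton] at hxL
        rcases hxL with rfl | rfl | rfl
        · exact hA.ne' hx (Relation.ReflTransGen.single (Or.inr hpR))
        · exact hA.ne hx Relation.ReflTransGen.refl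
        · exact hA.ne hx (Relation.ReflTransGen.single (Or.inl (D.st i).yu))
      rw [if_neg hJ, if_neg]
      · norm_num
      · rintro ⟨j, _, hj, h⟩
        have h1 : (D.st j).u ∈ L := by rw [h, JStrip.tri]; simp
        rw [huniq j h1] at hj
        exact hcon hj
  · -- the rest
    have hJ : ¬ σ.JJ L := fun h => hp (h.2.1 _ _ (Or.inr hpR) hu)
    have hcrS : σ.S.cr L = 0 := by
      refine dp3_cr_zero σ.S.toEG (T := {(D.st i).u, (D.st i).y 0}) ?_ ⟨_, mem_insert_self _ _⟩
        ?_ ?_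
      · intro x hx
        simp only [mem_insert, mem_singleton] at hx
        rcases hx with rfl | rfl <;> assumption
      · rw [← card_pos]
        have := le_card_sdiff {(D.st i).u, (D.st i).y 0} L
        have h2 : ({(D.st i).u, (D.st i).y 0} : Finset M).card ≤ 2 := card_le_two
        omega
      · intro z hz x hx
        simp only [mem_sdiff, mem_insert, mem_singleton, not_or] at hz hx
        obtain ⟨hzL, hzu, hzy⟩ := hz
        rcases hx with rfl | rfl
        · refine ⟨?_, (D.st i).umax z⟩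
          rintro (h | h)
          · exact hzy (σ.S.ls h (D.st i).yu)
          · exact (D.st i).uW _ h
        · refine ⟨(D.st i).ymin 0 (Nat.zero_le _) z, ?_⟩
          rintro (h | h)
          · exact hzu (σ.S.us h (D.st i).yu)
          · have := σ.S.uw h ((D.st i).yw 0 (Nat.zero_le _))
            exact hw0 (this ▸ hzL)
    rw [if_neg hJ, hcrS, if_neg, if_neg]
    · rintro ⟨j, _, _, h⟩
      have h1 : (D.st j).u ∈ L := by rw [h, JStrip.tri]; simp
      have h2 : (D.st j).p ∈ L := by rw [h, JStrip.tri]; simp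
      rw [huniq j h1] at h2
      exact hp h2
    · rintro ⟨j, _, _, h⟩
      have h1 : (D.st j).u ∈ L := by rw [h]; simp
      have h2 : (D.st j).w 0 ∈ L := by rw [h]; simp
      rw [huniq j h1] at h2
      exact hw0 h2

/-- the two sets have the same `K` for `k = 0` -/
theorem dp3_K_zero {G : Finset M} (hG : D.Stage G) {i : D.ι} (hi : (D.st i).u ∈ G)
    (hk : (D.st i).k = 0) :
    K σ.S.toEG (G \ {(D.st i).u, (D.st i).y 0, (D.st i).w 0}) =
      K σ.S.toEG (G \ (D.st i).tri) := by
  obtain ⟨t, ht⟩ : ∃ t, t = D.st i := ⟨_, rfl⟩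
  have hcls := hG.cls_subset hi
  have hpkap : (D.st i).p ∉ (D.st i).kap := (D.st i).p_notMem_kap
  rw [← ht] at hcls hk hpkap ⊢
  have hkap : t.kap = {t.u, t.y 0, t.w 0} := by
    unfold JStrip.kap
    rw [hk]
    ext x
    simp
  have hclse : t.cls = {t.p, t.u, t.y 0, t.w 0} := by
    unfold JStrip.cls
    rw [hkap]
  rw [hclse] at hcls
  rw [hkap] at hpkap
  simp only [mem_insert, mem_singleton, not_or] at hpkap
  obtain ⟨hpu, hpy, hpw⟩ := hpkap
  have hpG : t.p ∈ G := hcls (by simp)
  have hwG : t.w 0 ∈ G := hcls (by simp)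
  have huw : t.u ≠ t.w 0 := t.u_ne_w (Nat.zero_le _)
  have hyw : t.y 0 ≠ t.w 0 := t.y_ne_w (Nat.zero_le _) (Nat.zero_le _)
  obtain ⟨H, hH⟩ : ∃ H : Finset M, H = G \ {t.p, t.u, t.y 0, t.w 0} := ⟨_, rfl⟩
  have e1 : G \ {t.u, t.y 0, t.w 0} = {t.p} ∪ H := by
    rw [hH]
    ext x
    simp only [mem_sdiff, mem_insert, mem_singleton, not_or, mem_union]
    constructor
    · rintro ⟨h1, h2, h3, h4⟩
      by_cases h5 : x = t.p
      · exact Or.inl h5
      · exact Or.inr ⟨h1, h5, h2, h3, h4⟩
    · rintro (rfl | ⟨h1, _, h2, h3, h4⟩)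
      · exact ⟨hpG, hpu, hpy, hpw⟩
      · exact ⟨h1, h2, h3, h4⟩
  have e2 : G \ t.tri = {t.w 0} ∪ H := by
    rw [hH, JStrip.tri]
    ext x
    simp only [mem_sdiff, mem_insert, mem_singleton, not_or, mem_union]
    constructor
    · rintro ⟨h1, h2, h3, h4⟩
      by_cases h5 : x = t.w 0
      · exact Or.inl h5
      · exact Or.inr ⟨h1, h2, h3, h4, h5⟩
    · rintro (rfl | ⟨h1, h2, h3, h4, _⟩)
      · exact ⟨hwG, Ne.symm hpw, huw.symm, hyw.symm⟩
      · exact ⟨h1, h2, h3, h4⟩
  have hmemH : ∀ x ∈ H, x ∈ G ∧ x ≠ t.p ∧ x ≠ t.u ∧ x ≠ t.y 0 ∧ x ≠ t.w 0 := by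
    intro x hx
    rw [hH] at hx
    simpa only [mem_sdiff, mem_insert, mem_singleton, not_or] using hx
  rw [e1, e2, K_union, K_union]
  · congr 1
    have h1 := K_image σ.S.toEG σ.S.toEG {t.p} (fun _ => t.w 0)
      (by
        intro a ha b hb _
        simp only [coe_singleton, Set.mem_singleton_iff] at ha hb
        rw [ha, hb])
      (by
        intro a ha b hb
        rw [mem_singleton] at ha hb
        subst ha
        subst hb
        constructor
        · intro h
          have := σ.S.lab_s h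
          omega
        · intro h
          have := σ.S.lab_s h
          omega)
      (by
        intro a ha b hb
        rw [mem_singleton] at ha hb
        subst ha
        subst hb
        constructor
        · intro h
          have := σ.S.lab_w h
          omega
        · intro h
          have := σ.S.lab_w h
          omega)
    rw [h1, image_singleton]
  · rw [disjoint_singleton_left]
    exact fun h => (hmemH _ h).2.2.2.2 rfl
  · intro x hx z hz
    rw [mem_singleton] at hx
    subst hx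
    refine ⟨t.wmax 0 (Nat.zero_le _) z, ?_⟩
    rintro (h | h)
    · have h2 := t.wN z
      rw [hk] at h2
      exact h2 h
    · exact (hmemH z hz).2.2.2.1 (σ.S.lw h (t.yw 0 (Nat.zero_le _)))
  · rw [disjoint_singleton_left]
    exact fun h => (hmemH _ h).2.1 rfl
  · intro x hx z hz
    rw [mem_singleton] at hx
    subst hx
    exact ⟨(t.pS z).2, (t.pS z).1⟩

/-- for `k = 0` there is no constraint on `u` -/
theorem dp3_no_ls (hA : σ.LSax) {i : D.ι} (hk : (D.st i).k = 0) (x : M) :
    ¬ σ.LS x (D.st i).u := by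
  intro hx
  have h1 := D.closed i
  have hrho : (D.st i).rho = {(D.st i).p, (D.st i).u, (D.st i).y 0} := by
    unfold JStrip.rho
    rw [hk]
    ext z
    simp
  have h2 := h1.2.2 _ _ hx (by rw [hrho]; simp)
  rw [hrho] at h2
  simp only [mem_insert, mem_singleton] at h2
  rcases h2 with rfl | rfl | rfl
  · exact hA.ne' hx (Relation.ReflTransGen.single (Or.inr (D.st i).dl.1))
  · exact hA.ne hx Relation.ReflTransGen.refl
  · exact hA.ne hx (Relation.ReflTransGen.single (Or.inl (D.st i).yu))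

theorem dp3_tri_inj {i j : D.ι} (h : (D.st i).tri = (D.st j).tri) : i = j := by
  by_contra hne
  have h1 : (D.st i).u ∈ (D.st j).tri := by rw [← h, JStrip.tri]; simp
  rw [JStrip.tri] at h1
  simp only [mem_insert, mem_singleton] at h1
  have hdis := D.kap_disjoint hne
  rw [disjoint_left] at hdis
  have hui : (D.st i).u ∈ (D.st i).kap := by unfold JStrip.kap; exact mem_insert_self _ _
  rcases h1 with h1 | h1 | h1
  · exact D.p_notMem_kap j i (h1 ▸ hui)
  · exact hne (D.inj h1)
  · refine hdis hui ?_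
    rw [h1]
    unfold JStrip.kap
    exact mem_insert_of_mem (mem_union_left _ (mem_image_of_mem _ (mem_range.2 (by omega))))

/-- sum of `p3_term`; for `k = 0` there is no constraint on `u` (`closed`: the source is `p` or `y 0`, excluded by `ne`, `ne'`) and
`G \ {u, y 0, w 0}`, `G \ {p, u, y 0}` have the same `K` (remaining point `p`, resp. `w 0`, isolated) -/
theorem p3 (hL : σ.Links) (hA : σ.LSax) {G : Finset M} (hG : D.Stage G) :
    ∑ i ∈ D.badIn G, K σ.S.toEG (G \ (D.st i).tri) =
      ∑ q ∈ σ.trip G, K σ.S.toEG (G \ {q.1, q.2.1, q.2.2}) := by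
  have hw := Sys0.p3_word hG.jj hG.star
  obtain ⟨F, hF⟩ : ∃ F : Finset (Finset M), F = (univ : Finset (Finset M)).filter
    (fun L => σ.S.Low L ∧ L ⊆ G ∧ L.card = 3) := ⟨_, rfl⟩
  have hmemF : ∀ L, L ∈ F ↔ (σ.S.Low L ∧ L ⊆ G ∧ L.card = 3) := by
    intro L
    rw [hF, mem_filter]
    exact ⟨fun h => h.2, fun h => ⟨mem_univ _, h⟩⟩
  have hJF : (univ : Finset (Finset M)).filter (fun L => σ.JJ L ∧ L ⊆ G ∧ L.card = 3) =
      F.filter σ.JJ := by
    ext L
    rw [mem_filter, mem_filter, hmemF]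
    constructor
    · rintro ⟨_, h1, h2, h3⟩
      exact ⟨⟨h1.1, h2, h3⟩, h1⟩
    · rintro ⟨⟨_, h2, h3⟩, h1⟩
      exact ⟨mem_univ _, h1, h2, h3⟩
  rw [hJF, ← hF, sum_filter] at hw
  have hmain : ∑ L ∈ F, C ((if ∃ q ∈ σ.trip G, L = {q.1, q.2.1, q.2.2} then (1 : ℚ) else 0) +
      (if ∃ i ∈ D.stripsIn G, (D.st i).k = 0 ∧
        L = {(D.st i).u, (D.st i).y 0, (D.st i).w 0} then 1 else 0) -
      (if ∃ i ∈ D.stripsIn G, (∀ x, ¬ σ.LS x (D.st i).u) ∧ L = (D.st i).tri then 1 else 0)) *
        K σ.S.toEG (G \ L) = 0 := by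
    have h1 : ∀ L ∈ F, C ((if ∃ q ∈ σ.trip G, L = {q.1, q.2.1, q.2.2} then (1 : ℚ) else 0) +
      (if ∃ i ∈ D.stripsIn G, (D.st i).k = 0 ∧
        L = {(D.st i).u, (D.st i).y 0, (D.st i).w 0} then 1 else 0) -
      (if ∃ i ∈ D.stripsIn G, (∀ x, ¬ σ.LS x (D.st i).u) ∧ L = (D.st i).tri then 1 else 0)) *
        K σ.S.toEG (G \ L) =
        (if σ.JJ L then C (σ.R.cr L) * K σ.S.toEG (G \ L) else 0) -
          C (σ.S.cr L) * K σ.S.toEG (G \ L) := by
      intro L hLF
      obtain ⟨a1, a2, a3⟩ := (hmemF L).1 hLF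
      rw [← D.p3_term hL hA hG a1 a2 a3, C_sub, sub_mul]
      congr 1
      split_ifs
      · rfl
      · rw [C_0, zero_mul]
    rw [sum_congr rfl h1, sum_sub_distrib, hw, sub_self]
  simp only [C_sub, C_add, sub_mul, add_mul, sum_sub_distrib, sum_add_distrib] at hmain
  have hstr : ∀ i, i ∈ D.stripsIn G ↔ (D.st i).u ∈ G := by
    intro i
    unfold DSys.stripsIn
    rw [mem_filter]
    exact ⟨fun h => h.2, fun h => ⟨mem_univ _, h⟩⟩
  have hGlow : σ.S.Low G := hG.jj.1
  have hukap : ∀ j : D.ι, (D.st j).u ∈ (D.st j).kap := by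
    intro j
    unfold JStrip.kap
    exact mem_insert_self _ _
  have hykap : ∀ (j : D.ι), (D.st j).y 0 ∈ (D.st j).kap := by
    intro j
    unfold JStrip.kap
    refine mem_insert_of_mem (mem_union_left _ (mem_image_of_mem _ (mem_range.2 (by omega))))
  have hwkap : ∀ (j : D.ι), (D.st j).w 0 ∈ (D.st j).kap := by
    intro j
    unfold JStrip.kap
    refine mem_insert_of_mem (mem_union_right _ (mem_image_of_mem _ (mem_range.2 (by omega))))
  -- first sum
  have s1 := dp3_sum (σ.trip G) (fun q => ({q.1, q.2.1, q.2.2} : Finset M)) F ?_ ?_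
    (fun L => K σ.S.toEG (G \ L))
  rotate_left
  · rintro ⟨t, n, r⟩ hq ⟨t', n', r'⟩ hq' he
    simp only [Sys0.trip, mem_filter, mem_univ, true_and] at hq hq' he
    obtain ⟨-, -, h1, h2, h3, h4⟩ := hq
    obtain ⟨-, -, h1', h2', h3', h4'⟩ := hq'
    have ht : t = t' := by
      have : t' ∈ ({t, n, r} : Finset M) := by rw [he]; simp
      simp only [mem_insert, mem_singleton] at this
      rcases this with h | h | h
      · exact h.symm
      · rw [h] at h1'
        exact absurd (Or.inl h1') (h3 _)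
      · rw [h] at h1'
        exact absurd (Or.inl h1') (h4 _)
    subst ht
    rw [σ.S.ls h1 h1', σ.S.lw h2 h2']
  · rintro ⟨t, n, r⟩ hq
    simp only [Sys0.trip, mem_filter, mem_univ, true_and] at hq
    obtain ⟨h0, -, h1, h2, h3, h4⟩ := hq
    rw [hmemF]
    have l1 := σ.S.lab_s h1
    have l2 := σ.S.lab_w h2
    refine ⟨?_, ?_, ?_⟩
    · intro x y hxy hy
      simp only [mem_insert, mem_singleton] at hy ⊢
      rcases hy with rfl | rfl | rfl
      · rcases hxy with h | h
        · exact Or.inr (Or.inl (σ.S.ls h h1))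
        · exact Or.inr (Or.inr (σ.S.lw h h2))
      · exact absurd hxy (h3 x)
      · exact absurd hxy (h4 x)
    · intro x hx
      simp only [mem_insert, mem_singleton] at hx
      rcases hx with rfl | rfl | rfl
      · exact h0
      · exact hGlow _ _ (Or.inl h1) h0
      · exact hGlow _ _ (Or.inr h2) h0
    · have a1 : t ≠ n := by rintro rfl; omega
      have a2 : t ≠ r := by rintro rfl; omega
      have a3 : n ≠ r := by rintro rfl; omega
      exact dp3_card3 a1 a2 a3
  -- second sum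
  have s2 := dp3_sum ((D.stripsIn G).filter (fun i => (D.st i).k = 0))
    (fun i => ({(D.st i).u, (D.st i).y 0, (D.st i).w 0} : Finset M)) F ?_ ?_
    (fun L => K σ.S.toEG (G \ L))
  rotate_left
  · intro i _ j _ he
    by_contra hne
    have hdis := D.kap_disjoint hne
    rw [disjoint_left] at hdis
    have h1 : (D.st i).u ∈ ({(D.st j).u, (D.st j).y 0, (D.st j).w 0} : Finset M) := by
      rw [← he]; simp
    simp only [mem_insert, mem_singleton] at h1
    rcases h1 with h1 | h1 | h1
    · exact hne (D.inj h1)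
    · exact hdis (hukap i) (h1 ▸ hykap j)
    · exact hdis (hukap i) (h1 ▸ hwkap j)
  · intro i hi
    obtain ⟨hi1, hk⟩ := mem_filter.1 hi
    rw [hstr] at hi1
    rw [hmemF]
    have hcls := hG.cls_subset hi1
    refine ⟨?_, ?_, ?_⟩
    · intro x y hxy hy
      simp only [mem_insert, mem_singleton] at hy ⊢
      rcases hy with rfl | rfl | rfl
      · rcases hxy with h | h
        · exact Or.inr (Or.inl (σ.S.ls h (D.st i).yu))
        · exact absurd h ((D.st i).uW x)
      · exact absurd hxy ((D.st i).ymin 0 (Nat.zero_le _) x)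
      · rcases hxy with h | h
        · have h2 := (D.st i).wN x
          rw [hk] at h2
          exact absurd h h2
        · exact Or.inr (Or.inl (σ.S.lw h ((D.st i).yw 0 (Nat.zero_le _))))
    · intro x hx
      apply hcls
      unfold JStrip.cls
      apply mem_insert_of_mem
      simp only [mem_insert, mem_singleton] at hx
      rcases hx with rfl | rfl | rfl
      · exact hukap i
      · exact hykap i
      · exact hwkap i
    · exact dp3_card3 ((D.st i).u_ne_y (Nat.zero_le _)) ((D.st i).u_ne_w (Nat.zero_le _))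
        ((D.st i).y_ne_w (Nat.zero_le _) (Nat.zero_le _))
  -- third sum
  have s3 := dp3_sum ((D.stripsIn G).filter (fun i => ∀ x, ¬ σ.LS x (D.st i).u))
    (fun i => (D.st i).tri) F ?_ ?_ (fun L => K σ.S.toEG (G \ L))
  rotate_left
  · intro i _ j _ he
    exact D.dp3_tri_inj he
  · intro i hi
    obtain ⟨hi1, -⟩ := mem_filter.1 hi
    rw [hstr] at hi1
    rw [hmemF]
    have hcls := hG.cls_subset hi1
    have hpk := D.p_notMem_kap i i
    refine ⟨?_, ?_, ?_⟩
    · intro x y hxy hy
      rw [JStrip.tri] at hy ⊢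
      simp only [mem_insert, mem_singleton] at hy ⊢
      rcases hy with rfl | rfl | rfl
      · exact absurd hxy ((D.st i).pS x).1
      · rcases hxy with h | h
        · exact Or.inr (Or.inr (σ.S.ls h (D.st i).yu))
        · exact absurd h ((D.st i).uW x)
      · exact absurd hxy ((D.st i).ymin 0 (Nat.zero_le _) x)
    · intro x hx
      apply hcls
      rw [JStrip.tri] at hx
      unfold JStrip.cls
      simp only [mem_insert, mem_singleton] at hx
      rcases hx with rfl | rfl | rfl
      · exact mem_insert_self _ _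
      · exact mem_insert_of_mem (hukap i)
      · exact mem_insert_of_mem (hykap i)
    · rw [JStrip.tri]
      exact dp3_card3 (fun h => hpk (h ▸ hukap i)) (fun h => hpk (h ▸ hykap i))
        ((D.st i).u_ne_y (Nat.zero_le _))
  have e2 : ∀ L : Finset M, (∃ i ∈ D.stripsIn G, (D.st i).k = 0 ∧
      L = {(D.st i).u, (D.st i).y 0, (D.st i).w 0}) ↔
      (∃ i ∈ (D.stripsIn G).filter (fun i => (D.st i).k = 0),
        L = {(D.st i).u, (D.st i).y 0, (D.st i).w 0}) := by
    intro L
    constructor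
    · rintro ⟨i, h1, h2, h3⟩
      exact ⟨i, mem_filter.2 ⟨h1, h2⟩, h3⟩
    · rintro ⟨i, h1, h3⟩
      obtain ⟨h1, h2⟩ := mem_filter.1 h1
      exact ⟨i, h1, h2, h3⟩
  have e3 : ∀ L : Finset M, (∃ i ∈ D.stripsIn G, (∀ x, ¬ σ.LS x (D.st i).u) ∧
      L = (D.st i).tri) ↔
      (∃ i ∈ (D.stripsIn G).filter (fun i => ∀ x, ¬ σ.LS x (D.st i).u),
        L = (D.st i).tri) := by
    intro L
    constructor
    · rintro ⟨i, h1, h2, h3⟩
      exact ⟨i, mem_filter.2 ⟨h1, h2⟩, h3⟩
    · rintro ⟨i, h1, h3⟩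
      obtain ⟨h1, h2⟩ := mem_filter.1 h1
      exact ⟨i, h1, h2, h3⟩
  simp only [e2, e3] at hmain
  rw [s1, s2, s3] at hmain
  -- split the third sum
  have hbad : ∀ i, i ∈ D.badIn G ↔ i ∈ D.stripsIn G ∧ 1 ≤ (D.st i).k ∧
      ∀ x, ¬ σ.LS x (D.st i).u := by
    intro i
    unfold DSys.badIn
    rw [mem_filter]
    exact Iff.rfl
  have hsplit : (D.stripsIn G).filter (fun i => ∀ x, ¬ σ.LS x (D.st i).u) =
      (D.stripsIn G).filter (fun i => (D.st i).k = 0) ∪ D.badIn G := by
    ext i
    rw [mem_union, hbad, mem_filter, mem_filter]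
    constructor
    · rintro ⟨h1, h2⟩
      rcases Nat.eq_zero_or_pos (D.st i).k with hk | hk
      · exact Or.inl ⟨h1, hk⟩
      · exact Or.inr ⟨h1, hk, h2⟩
    · rintro (⟨h1, h2⟩ | ⟨h1, _, h2⟩)
      · exact ⟨h1, D.dp3_no_ls hA h2⟩
      · exact ⟨h1, h2⟩
  have hdisj : Disjoint ((D.stripsIn G).filter (fun i => (D.st i).k = 0)) (D.badIn G) := by
    rw [disjoint_left]
    intro i h1 h2
    have a1 := (mem_filter.1 h1).2
    have a2 := ((hbad i).1 h2).2.1
    omega
  rw [hsplit, sum_union hdisj] at hmain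
  have hK : ∑ i ∈ (D.stripsIn G).filter (fun i => (D.st i).k = 0),
      K σ.S.toEG (G \ {(D.st i).u, (D.st i).y 0, (D.st i).w 0}) =
      ∑ i ∈ (D.stripsIn G).filter (fun i => (D.st i).k = 0), K σ.S.toEG (G \ (D.st i).tri) := by
    refine sum_congr rfl fun i hi => ?_
    obtain ⟨hi1, hk⟩ := mem_filter.1 hi
    exact D.dp3_K_zero hG ((hstr i).1 hi1) hk
  rw [hK] at hmain
  have := sub_eq_zero.1 hmain
  rw [add_comm] at this
  exact (add_left_cancel this).symm

end DSys

end Pool.PP2
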