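import Pool.Agent.Lib.PP2.S0

/-!
# Chunk D-Peel: peeling the top strips of the components of `S`
-/

namespace Pool.PP2

open Finset Classical MvPolynomial

namespace Sys0

variable {M : Type*} (σ : Sys0 M) [Fintype M]

/-- a linear map in the right alphabet, applied to the identity on `G`. (`exists_right`-type argument; here for derivations: `pderiv (Sum.inr N)` of
`rename inl f * rename inr g` is `rename inl f * rename inr (pderiv N g)`.) -/
theorem pderiv_inr (N n : ℕ) (f g : Lam ℚ) :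
    (pderiv (Sum.inr N : ℕ ⊕ ℕ))^[n] (rename (Sum.inl : ℕ → ℕ ⊕ ℕ) f * rename (Sum.inr : ℕ → ℕ ⊕ ℕ) g) =
      rename (Sum.inl : ℕ → ℕ ⊕ ℕ) f * rename (Sum.inr : ℕ → ℕ ⊕ ℕ) ((pderiv N)^[n] g) := by
  induction n generalizing g with
  | zero => rfl
  | succ n ih =>
    rw [Function.iterate_succ_apply, Function.iterate_succ_apply]
    have h1 : pderiv (Sum.inr N : ℕ ⊕ ℕ) (rename (Sum.inl : ℕ → ℕ ⊕ ℕ) f *
        rename (Sum.inr : ℕ → ℕ ⊕ ℕ) g) =
        rename (Sum.inl : ℕ → ℕ ⊕ ℕ) f * rename (Sum.inr : ℕ → ℕ ⊕ ℕ) (pderiv N g) := by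
      rw [pderiv_mul, pderiv_rename Sum.inr_injective]
      have h2 : pderiv (Sum.inr N : ℕ ⊕ ℕ) (rename (Sum.inl : ℕ → ℕ ⊕ ℕ) f) = 0 := by
        apply pderiv_eq_zero_of_notMem_vars
        intro h
        have h3 := vars_rename _ _ h
        rw [mem_image] at h3
        obtain ⟨a, -, ha⟩ := h3
        cases ha
      rw [h2, zero_mul, zero_add]
    rw [h1, ih]

theorem dpeel_lowIn {Q : Skew M} {G L : Finset M} (hL : Q.Low L) (hLG : L ⊆ G) : Q.LowIn G L :=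
  ⟨hLG, fun x _ y hy h => hL x y h hy⟩

/-- the strip of an end is connected -/
theorem dpeel_strip_conn {Q : Skew M} {G : Finset M} (hG : Q.Cvx G) {z x : M} (hz : z ∈ Q.ends G)
    (hx : x ∈ Q.comp G z ∩ Q.B1 G) : Q.conn (Q.comp G z ∩ Q.B1 G) z x := by
  have hc := Q.e6_cvx_comp hG z
  have hzG : z ∈ G := (mem_filter.1 hz).1
  have hB := Q.B1_comp hG z
  rw [← hB] at hx ⊢
  have hcv : Q.Cvx (Q.B1 (Q.comp G z)) := by
    have h1 := hc.up (Q.sdiff_B1_lowIn hc)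
    have h2 : Q.comp G z \ (Q.comp G z \ Q.B1 (Q.comp G z)) = Q.B1 (Q.comp G z) := by
      rw [Finset.sdiff_sdiff_eq_self]
      exact filter_subset _ _
    rwa [h2] at h1
  have h3 := Q.e6_ends_comp hG hzG
  obtain ⟨e, he⟩ := card_eq_one.1 h3
  -- `z` is the end
  have hze : z ∈ Q.ends (Q.comp G z) := by
    rw [EG.ends, mem_filter] at hz ⊢
    refine ⟨EG.mem_comp.2 ⟨hzG, EG.conn_refl _ _⟩, ?_, ?_⟩
    · rintro ⟨y, hy, h⟩
      exact hz.2.1 ⟨y, (EG.mem_comp.1 hy).1, h⟩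
    · rintro ⟨y, hy, h⟩
      exact hz.2.2 ⟨y, (EG.mem_comp.1 hy).1, h⟩
  obtain ⟨z', hz', h4⟩ := Q.exists_end hcv hx
  rw [Q.ends_B1 hc] at hz'
  rw [he, mem_singleton] at hz' hze
  rw [hz', ← hze] at h4
  exact EG.conn_symm h4

theorem dpeel_ends_sdiff {Q : Skew M} {G L : Finset M} {z : M} (hz : z ∈ Q.ends G) (hzL : z ∉ L) :
    z ∈ Q.ends (G \ L) := by
  rw [EG.ends, mem_filter] at hz ⊢
  refine ⟨mem_sdiff.2 ⟨hz.1, hzL⟩, ?_, ?_⟩
  · rintro ⟨y, hy, h⟩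
    exact hz.2.1 ⟨y, (mem_sdiff.1 hy).1, h⟩
  · rintro ⟨y, hy, h⟩
    exact hz.2.2 ⟨y, (mem_sdiff.1 hy).1, h⟩

theorem dpeel_strip_sub {Q : Skew M} {G L : Finset M} (hG : Q.Low G) (hL : Q.Low L) (hLG : L ⊆ G)
    (x : M) : Q.comp (G \ L) x ∩ Q.B1 (G \ L) ⊆ Q.comp G x ∩ Q.B1 G := by
  intro y hy
  rw [Q.B1_sdiff hG.cvx (dpeel_lowIn hL hLG)] at hy
  have h1 := EG.mem_comp.1 (mem_inter.1 hy).1
  have h2 := mem_sdiff.1 (mem_inter.1 hy).2
  exact mem_inter.2 ⟨EG.mem_comp.2 ⟨(mem_sdiff.1 h1.1).1, EG.conn_mono sdiff_subset h1.2⟩, h2.1⟩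

/-- an end of `G \ L` with a strip of size `N` is an end of `G`, with the same strip -/
theorem dpeel_tops_sub {Q : Skew M} {G L : Finset M} (hG : Q.Low G) (hL : Q.Low L) (hLG : L ⊆ G)
    {N : ℕ} (h : ∀ x ∈ G, (Q.comp G x ∩ Q.B1 G).card ≤ N) {z : M} (hz : z ∈ Q.tops (G \ L) N) :
    z ∈ Q.tops G N ∧ Q.comp (G \ L) z ∩ Q.B1 (G \ L) = Q.comp G z ∩ Q.B1 G := by
  have hlow := dpeel_lowIn hL hLG
  rw [Skew.tops, mem_filter] at hz
  obtain ⟨hz1, hz2⟩ := hz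
  have hzG : z ∈ G \ L := (mem_filter.1 hz1).1
  have heq : Q.comp (G \ L) z ∩ Q.B1 (G \ L) = Q.comp G z ∩ Q.B1 G := by
    apply eq_of_subset_of_card_le (dpeel_strip_sub hG hL hLG z)
    rw [hz2]
    exact h z (mem_sdiff.1 hzG).1
  obtain ⟨z', hz', hc⟩ := Q.exists_end hG.cvx (mem_sdiff.1 hzG).1
  have hm : z' ∈ Q.comp G z ∩ Q.B1 G :=
    mem_inter.2 ⟨EG.mem_comp.2 ⟨(mem_filter.1 hz').1, hc⟩, (Q.end_mem_B0 hG.cvx hz').2⟩
  rw [← heq, mem_inter, EG.mem_comp] at hm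
  have hz'' := dpeel_ends_sdiff hz' (mem_sdiff.1 hm.1.1).2
  have he := Q.end_unique (hG.cvx.up hlow) hz1 hz'' hm.1.2
  rw [← he] at hz'
  refine ⟨?_, heq⟩
  rw [Skew.tops, mem_filter]
  exact ⟨hz', by rw [← heq, hz2]⟩

/-- For `L` lower in `G` (a lower set of a skew graph `Q`) all of whose strips have size `≤ N`, with `n` strips of size `N`: if `L` avoids `topStrips G N`
then `tops (G \ L) N` has `n` elements and `topStrips (G \ L) N = topStrips G N`, otherwise `tops (G \ L) N` has less than `n` elements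
(`B1_sdiff`: `B1 (G \ L) = B1 G \ L`; every component of `G \ L` is inside a component of `G`, so a strip of size `N` of `G \ L` is a whole strip of
size `N` of `G`, and the ends are the same). -/
theorem peel_tops {Q : Skew M} {G L : Finset M} (hG : Q.Low G) (hL : Q.Low L) (hLG : L ⊆ G) {N : ℕ} (hN : 1 ≤ N)
    (h : ∀ x ∈ G, (Q.comp G x ∩ Q.B1 G).card ≤ N) :
    (∀ x ∈ G \ L, (Q.comp (G \ L) x ∩ Q.B1 (G \ L)).card ≤ N) ∧
    (Disjoint L (Q.topStrips G N) → Q.tops (G \ L) N = Q.tops G N ∧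
      (∀ z ∈ Q.tops G N, Q.comp (G \ L) z ∩ Q.B1 (G \ L) = Q.comp G z ∩ Q.B1 G)) ∧
    (¬ Disjoint L (Q.topStrips G N) → (Q.tops (G \ L) N).card < (Q.tops G N).card) := by
  have hlow := dpeel_lowIn hL hLG
  refine ⟨?_, ?_, ?_⟩
  · intro x hx
    exact (card_le_card (dpeel_strip_sub hG hL hLG x)).trans (h x (mem_sdiff.1 hx).1)
  · intro hd
    have key : ∀ z ∈ Q.tops G N, z ∈ Q.tops (G \ L) N := by
      intro z hz
      have hz' := hz
      rw [Skew.tops, mem_filter] at hz'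
      obtain ⟨hz1, hz2⟩ := hz'
      have hzG : z ∈ G := (mem_filter.1 hz1).1
      have hstrip : Q.comp G z ∩ Q.B1 G ⊆ Q.topStrips G N := by
        intro x hx
        rw [Skew.topStrips, mem_biUnion]
        exact ⟨z, hz, hx⟩
      have hnL : ∀ x ∈ Q.comp G z ∩ Q.B1 G, x ∉ L := fun x hx hxL =>
        (Finset.disjoint_left.1 hd) hxL (hstrip hx)
      have hzs : z ∈ Q.comp G z ∩ Q.B1 G :=
        mem_inter.2 ⟨EG.mem_comp.2 ⟨hzG, EG.conn_refl _ _⟩, (Q.end_mem_B0 hG.cvx hz1).2⟩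
      have hze := dpeel_ends_sdiff hz1 (hnL z hzs)
      have heq : Q.comp (G \ L) z ∩ Q.B1 (G \ L) = Q.comp G z ∩ Q.B1 G := by
        apply Subset.antisymm (dpeel_strip_sub hG hL hLG z)
        intro x hx
        have h1 := dpeel_strip_conn hG.cvx hz1 hx
        have h2 : Q.comp G z ∩ Q.B1 G ⊆ G \ L := by
          intro y hy
          exact mem_sdiff.2 ⟨(EG.mem_comp.1 (mem_inter.1 hy).1).1, hnL y hy⟩
        rw [Q.B1_sdiff hG.cvx hlow]
        exact mem_inter.2 ⟨EG.mem_comp.2 ⟨h2 hx, EG.conn_mono h2 h1⟩,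
          mem_sdiff.2 ⟨(mem_inter.1 hx).2, hnL x hx⟩⟩
      rw [Skew.tops, mem_filter]
      exact ⟨hze, by rw [heq, hz2]⟩
    refine ⟨?_, fun z hz => (dpeel_tops_sub hG hL hLG h (key z hz)).2⟩
    ext z
    exact ⟨fun hz => (dpeel_tops_sub hG hL hLG h hz).1, fun hz => key z hz⟩
  · intro hd
    rw [Finset.not_disjoint_iff] at hd
    obtain ⟨x, hxL, hx⟩ := hd
    rw [Skew.topStrips, mem_biUnion] at hx
    obtain ⟨z, hz, hxz⟩ := hx
    apply card_lt_card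
    rw [Finset.ssubset_iff_of_subset (fun z hz => (dpeel_tops_sub hG hL hLG h hz).1)]
    refine ⟨z, hz, fun hz' => ?_⟩
    have h1 := (dpeel_tops_sub hG hL hLG h hz').2
    rw [← h1, mem_inter, EG.mem_comp] at hxz
    exact (mem_sdiff.1 hxz.1.1).2 hxL

/-- `G \ topStrips G N` is a lower set: `G \ B1 G` is lower, and components -/
theorem topStrips_low {Q : Skew M} {G : Finset M} (hG : Q.Low G) (N : ℕ) : Q.Low (G \ Q.topStrips G N) := by
  intro x y hxy hy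
  rw [mem_sdiff] at hy ⊢
  have hxG := hG x y hxy hy.1
  refine ⟨hxG, fun hx => hy.2 ?_⟩
  rw [Skew.topStrips, mem_biUnion] at hx ⊢
  obtain ⟨z, hz, hxz⟩ := hx
  refine ⟨z, hz, ?_⟩
  rw [mem_inter] at hxz ⊢
  refine ⟨EG.comp_edge hxz.1 hy.1 (Or.inl hxy), ?_⟩
  by_contra hyB
  have h1 := (Q.sdiff_B1_lowIn hG.cvx).2 x hxG y (mem_sdiff.2 ⟨hy.1, hyB⟩) hxy
  exact (mem_sdiff.1 h1).2 hxz.2

/-- **Peel.** Apply the `n`-fold derivative in the right variable `N` to `StarOn G`, `n = #tops`. By `K_pderiv_iter` and `peel_tops` only the `L ⊆ G \ topStrips` remain, all with the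
same constant `≠ 0` (`cr_strip1`). This is `StarOn (G \ topStrips)`. Then put the right alphabet to `0`: on the right side `L = G \ topStrips` gives `K ≠ 0`, hence this set is in `𝓙`. -/
theorem peel {G : Finset M} (hG : σ.JJ G) (hS : σ.StarOn G) {N : ℕ} (hN : 1 ≤ N)
    (h : ∀ x ∈ G, (σ.S.comp G x ∩ σ.S.B1 G).card ≤ N) :
    σ.JJ (G \ σ.S.topStrips G N) ∧ σ.StarOn (G \ σ.S.topStrips G N) := by
  set U := σ.S.topStrips G N with hU
  set n := (σ.S.tops G N).card with hn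
  obtain ⟨c0, hc0⟩ : ∃ c : ℚ, c = (n.factorial : ℚ) * ∏ z ∈ σ.S.tops G N,
    (σ.S.cr (σ.S.comp G z ∩ σ.S.B1 G) / (N : ℚ)) := ⟨_, rfl⟩
  have hGl := hG.1
  have hUl : σ.S.Low (G \ U) := topStrips_low hGl N
  have hc0' : c0 ≠ 0 := by
    rw [hc0]
    apply mul_ne_zero
    · exact_mod_cast n.factorial_ne_zero
    · rw [prod_ne_zero_iff]
      intro z hz
      rw [Skew.tops, mem_filter] at hz
      rw [σ.S.cr_strip1 hGl.cvx (mem_filter.1 hz.1).1]
      apply div_ne_zero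
      · exact pow_ne_zero _ (by norm_num)
      · exact_mod_cast (by omega : N ≠ 0)
  -- the derivative of `K (G \ L)`
  have hder : ∀ L : Finset M, σ.S.Low L → L ⊆ G → (pderiv N)^[n] (K σ.S.toEG (G \ L)) =
      if L ⊆ G \ U then C c0 * K σ.S.toEG ((G \ U) \ L) else 0 := by
    intro L hL hLG
    have hlow := dpeel_lowIn hL hLG
    obtain ⟨h1, h2, h3⟩ := peel_tops hGl hL hLG hN h
    by_cases hd : Disjoint L U
    · obtain ⟨h4, h5⟩ := h2 hd
      rw [σ.S.K_pderiv_iter (hGl.cvx.up hlow) hN h1 (by rw [h4]), if_pos (by rw [h4]), if_pos]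
      · have h6 : σ.S.topStrips (G \ L) N = U := by
          rw [hU, Skew.topStrips, Skew.topStrips, h4]
          apply Finset.biUnion_congr rfl
          intro z hz
          exact h5 z hz
        have h7 : (G \ L) \ U = (G \ U) \ L := by
          ext x
          simp only [mem_sdiff]
          tauto
        rw [h6, h7, h4, hc0]
        congr 3
        apply prod_congr rfl
        intro z hz
        rw [h5 z hz]
      · intro x hx
        exact mem_sdiff.2 ⟨hLG hx, Finset.disjoint_left.1 hd hx⟩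
    · have h4 := h3 hd
      rw [σ.S.K_pderiv_iter (hGl.cvx.up hlow) hN h1 h4.le, if_neg (by omega), if_neg]
      intro h5
      apply hd
      rw [Finset.disjoint_left]
      intro x hx
      exact (mem_sdiff.1 (h5 hx)).2
  have hiter_sum : ∀ (s : Finset (Finset M)) (f : Finset M → MvPolynomial (ℕ ⊕ ℕ) ℚ) (n : ℕ),
      (pderiv (Sum.inr N : ℕ ⊕ ℕ))^[n] (∑ L ∈ s, f L) =
        ∑ L ∈ s, (pderiv (Sum.inr N : ℕ ⊕ ℕ))^[n] (f L) := by
    intro s f n
    induction n with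
    | zero => rfl
    | succ n ih =>
      rw [Function.iterate_succ_apply', ih, map_sum]
      apply sum_congr rfl
      intro L _
      rw [Function.iterate_succ_apply']
  have hS' := congrArg ((pderiv (Sum.inr N : ℕ ⊕ ℕ))^[n]) hS
  have hside : ∀ (P : Finset M → Prop) (g : Finset M → Lam ℚ), (∀ L, P L → σ.S.Low L) →
      (pderiv (Sum.inr N : ℕ ⊕ ℕ))^[n] (∑ L ∈ (univ : Finset (Finset M)).filter (fun L => P L ∧ L ⊆ G),
        rename (Sum.inl : ℕ → ℕ ⊕ ℕ) (g L) * rename (Sum.inr : ℕ → ℕ ⊕ ℕ) (K σ.S.toEG (G \ L))) =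
      C c0 * ∑ L ∈ (univ : Finset (Finset M)).filter (fun L => P L ∧ L ⊆ G \ U),
        rename (Sum.inl : ℕ → ℕ ⊕ ℕ) (g L) *
          rename (Sum.inr : ℕ → ℕ ⊕ ℕ) (K σ.S.toEG ((G \ U) \ L)) := by
    intro P g hP
    rw [hiter_sum, mul_sum]
    have hsub : (univ : Finset (Finset M)).filter (fun L => P L ∧ L ⊆ G \ U) ⊆
        (univ : Finset (Finset M)).filter (fun L => P L ∧ L ⊆ G) := by
      intro L hL
      rw [mem_filter] at hL ⊢
      exact ⟨mem_univ _, hL.2.1, hL.2.2.trans sdiff_subset⟩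
    symm
    rw [← sum_subset_zero_on_sdiff hsub (g := fun L => (pderiv (Sum.inr N : ℕ ⊕ ℕ))^[n]
      (rename (Sum.inl : ℕ → ℕ ⊕ ℕ) (g L) * rename (Sum.inr : ℕ → ℕ ⊕ ℕ) (K σ.S.toEG (G \ L))))]
    · intro L hL
      rw [mem_sdiff, mem_filter, mem_filter] at hL
      obtain ⟨⟨-, h1, h2⟩, h3⟩ := hL
      rw [pderiv_inr, hder L (hP L h1) h2, if_neg (fun h4 => h3 ⟨mem_univ _, h1, h4⟩), map_zero,
        mul_zero]
    · intro L hL
      rw [mem_filter] at hL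
      obtain ⟨-, h1, h2⟩ := hL
      rw [pderiv_inr, hder L (hP L h1) (h2.trans sdiff_subset), if_pos h2, map_mul, rename_C]
      ring
  rw [hside (fun L => σ.JJ L) (fun L => K σ.R.toEG L) (fun L hL => hL.1),
    hside (fun L => σ.S.Low L) (fun L => K σ.S.toEG L) (fun L hL => hL)] at hS'
  have hC : (C c0 : MvPolynomial (ℕ ⊕ ℕ) ℚ) ≠ 0 := by
    rw [Ne, C_eq_zero]
    exact hc0'
  have hstar : σ.StarOn (G \ U) := mul_left_cancel₀ hC hS'
  refine ⟨?_, hstar⟩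
  -- the right alphabet is `0`
  have hev := congrArg (aeval (Sum.elim (fun j => (X j : Lam ℚ)) (fun _ => (0 : Lam ℚ)))) hstar
  rw [map_sum, map_sum] at hev
  have hterm : ∀ (f g : Lam ℚ), aeval (Sum.elim (fun j => (X j : Lam ℚ)) (fun _ => (0 : Lam ℚ)))
      (rename (Sum.inl : ℕ → ℕ ⊕ ℕ) f * rename (Sum.inr : ℕ → ℕ ⊕ ℕ) g) = f * C (constantCoeff g) := by
    intro f g
    rw [map_mul, aeval_rename, aeval_rename, Sum.elim_comp_inl, Sum.elim_comp_inr]
    congr 1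
    · exact aeval_X_left_apply f
    · exact aeval_zero' g
  have hterm2 : ∀ L ⊆ G \ U, (C (constantCoeff (K σ.S.toEG ((G \ U) \ L))) : Lam ℚ) =
      if L = G \ U then 1 else 0 := by
    intro L hL
    by_cases h1 : L = G \ U
    · rw [if_pos h1, h1, Finset.sdiff_self, K_empty, map_one, C_1]
    · rw [if_neg h1, K_const, C_0]
      intro h2
      exact h1 (Subset.antisymm hL (Finset.sdiff_eq_empty_iff_subset.1 h2))
  by_contra hJ
  have hL0 : ∑ L ∈ (univ : Finset (Finset M)).filter (fun L => σ.JJ L ∧ L ⊆ G \ U),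
      aeval (Sum.elim (fun j => (X j : Lam ℚ)) (fun _ => (0 : Lam ℚ)))
      (rename (Sum.inl : ℕ → ℕ ⊕ ℕ) (K σ.R.toEG L) *
        rename (Sum.inr : ℕ → ℕ ⊕ ℕ) (K σ.S.toEG ((G \ U) \ L))) = 0 := by
    apply sum_eq_zero
    intro L hL
    rw [mem_filter] at hL
    rw [hterm, hterm2 L hL.2.2, if_neg, mul_zero]
    intro h1
    exact hJ (h1 ▸ hL.2.1)
  have hR0 : ∑ L ∈ (univ : Finset (Finset M)).filter (fun L => σ.S.Low L ∧ L ⊆ G \ U),
      aeval (Sum.elim (fun j => (X j : Lam ℚ)) (fun _ => (0 : Lam ℚ)))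
      (rename (Sum.inl : ℕ → ℕ ⊕ ℕ) (K σ.S.toEG L) *
        rename (Sum.inr : ℕ → ℕ ⊕ ℕ) (K σ.S.toEG ((G \ U) \ L))) = K σ.S.toEG (G \ U) := by
    rw [sum_eq_single (G \ U)]
    · rw [hterm, hterm2 _ Subset.rfl, if_pos rfl, mul_one]
    · intro L hL hne
      rw [mem_filter] at hL
      rw [hterm, hterm2 L hL.2.2, if_neg hne, mul_zero]
    · intro h1
      exact absurd (mem_filter.2 ⟨mem_univ _, hUl, Subset.rfl⟩) h1
  rw [hL0, hR0] at hev
  exact K_ne_zero _ _ hev.symm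

end Sys0

end Pool.PP2
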