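import Pool.Agent.Lib.PP2.D.Geo
import Pool.Agent.Lib.PP2.D.Peel

/-!
# Chunk D-Stage: stages
-/

namespace Pool.PP2

open Finset Classical MvPolynomial

/-- a component which is contained in `G` -/
theorem D_Stage_comp {M : Type*} [Fintype M] {Q : EG M} {G : Finset M} {x : M}
    (h : Q.comp univ x ⊆ G) : Q.comp G x = Q.comp univ x := by
  ext y
  constructor
  · intro hy
    rw [EG.mem_comp] at hy ⊢
    exact ⟨mem_univ _, EG.conn_mono (subset_univ _) hy.2⟩
  · intro hy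
    rw [EG.mem_comp]
    refine ⟨h hy, ?_⟩
    have hc := (EG.mem_comp.1 hy).2
    unfold EG.conn at hc
    clear hy
    induction hc with
    | refl => exact EG.conn_refl _ _
    | tail h1 h2 ih =>
      refine Relation.ReflTransGen.tail ih ⟨h ?_, h ?_, h2.2.2⟩
      · exact EG.mem_comp.2 ⟨mem_univ _, h1⟩
      · exact EG.mem_comp.2 ⟨mem_univ _, h1.tail h2⟩

theorem D_Stage_mem_top {M : Type*} {Q : Skew M} {G : Finset M} {N : ℕ} {x : M} :
    x ∈ Q.topStrips G N ↔ ∃ z ∈ Q.tops G N, x ∈ Q.comp G z ∧ x ∈ Q.B1 G := by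
  rw [Skew.topStrips, mem_biUnion]
  simp only [mem_inter]

/-- an element of a component in which there is an element of a top strip -/
theorem D_Stage_top_of {M : Type*} {Q : Skew M} {G : Finset M} {N : ℕ} {x y : M}
    (hy : y ∈ Q.topStrips G N) (hxy : Q.conn G x y) (hx : x ∈ Q.B1 G) : x ∈ Q.topStrips G N := by
  obtain ⟨z, hz, h1, -⟩ := D_Stage_mem_top.1 hy
  have hxG : x ∈ G := (mem_filter.1 hx).1
  refine D_Stage_mem_top.2 ⟨z, hz, ?_, hx⟩
  rw [EG.mem_comp] at h1 ⊢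
  exact ⟨hxG, EG.conn_trans h1.2 (EG.conn_symm hxy)⟩

theorem D_Stage_card {M : Type*} {Q : Skew M} {G : Finset M} {N : ℕ} {x : M}
    (hx : x ∈ Q.topStrips G N) : (Q.comp G x ∩ Q.B1 G).card = N := by
  obtain ⟨z, hz, h1, -⟩ := D_Stage_mem_top.1 hx
  rw [Skew.tops, mem_filter] at hz
  rw [← hz.2, EG.comp_eq (EG.mem_comp.1 h1).2]

namespace DSys

variable {M : Type*} {σ : Sys0 M} (D : DSys σ) [Fintype M]

/-- everything is in `𝓙` -/
theorem stage_univ (hs : σ.Star) : D.Stage univ := by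
  refine ⟨⟨fun _ _ _ _ => mem_univ _, fun _ _ _ _ => mem_univ _, fun _ _ _ _ => mem_univ _⟩,
    σ.starOn_univ.2 hs, fun _ _ _ => subset_univ _, fun _ _ _ _ => subset_univ _⟩

theorem D_Stage_kap_B1 (i : D.ι) {G : Finset M} (hG : (D.st i).kap ⊆ G) {x : M}
    (hx : x ∈ (D.st i).kap) : x ∈ σ.S.B1 G := by
  rw [EG.e6_mem_B1]
  refine ⟨hG hx, fun y _ z _ h1 h2 => ?_⟩
  have hy := (D.st i).kap_closed hx (Or.inl (Or.inl h1))
  rcases (D.st i).dgeo_mem_kap.1 hy with rfl | ⟨j, hj, rfl⟩ | ⟨j, hj, rfl⟩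
  · exact (D.st i).umax _ (Or.inr h2)
  · exact (D.st i).ymin j hj _ (Or.inl h1)
  · exact (D.st i).wmax j hj _ (Or.inr h2)

theorem D_Stage_kap_conn (i : D.ι) {G : Finset M} (hG : (D.st i).kap ⊆ G) {x y : M}
    (hx : x ∈ (D.st i).kap) (hy : y ∈ (D.st i).kap) : σ.S.conn G x y := by
  have h1 : σ.S.comp univ (D.st i).u ⊆ G := by
    have := (D.st i).kap_eq_comp
    unfold Sys0.kS at this
    rwa [← this]
  have h2 := D_Stage_comp h1
  have h3 : ∀ z ∈ (D.st i).kap, σ.S.conn G (D.st i).u z := by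
    intro z hz
    rw [(D.st i).kap_eq_comp] at hz
    unfold Sys0.kS at hz
    rw [← h2, EG.mem_comp] at hz
    exact hz.2
  exact EG.conn_trans (EG.conn_symm (h3 x hx)) (h3 y hy)

/-- the next stage. `N` = largest strip size of the components of `S` in `G` (`≥ 1`: `end_mem_B0`). A maximal `x ∈ G` is in `B1`; if it survives, the strip of its component
(`comp G x = kS x` because `kS x ⊆ G`) has size `< N`, so the component survives. The same for the components `kap` (they are components which are their own strips: `kap ⊆ B1`).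
Moreover the LS targets in the new stage are exactly those in components with strip size `< N`. -/
theorem exists_peel (hL : σ.Links) {G : Finset M} (hG : D.Stage G) (hne : G.Nonempty) :
    ∃ (N : ℕ) (G' : Finset M), 1 ≤ N ∧ G' ⊂ G ∧ D.Stage G' ∧
      (∀ x ∈ G, (σ.S.comp G x ∩ σ.S.B1 G).card ≤ N) ∧
      (∀ x ∈ G, σ.maxS x → x ∉ G' → (σ.S.comp G x ∩ σ.S.B1 G).card = N) ∧
      (∀ i, (D.st i).u ∈ G → (D.st i).u ∉ G' → 2 * (D.st i).k + 3 = N) := by
  obtain ⟨x0, hx0, hmax⟩ := exists_max_image G (fun x => (σ.S.comp G x ∩ σ.S.B1 G).card) hne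
  set N := (σ.S.comp G x0 ∩ σ.S.B1 G).card with hN
  have hcv : σ.S.Cvx G := hG.jj.1.cvx
  obtain ⟨z, hz, hcz⟩ := σ.S.exists_end hcv hx0
  have hzG : z ∈ G := (mem_filter.1 hz).1
  have hzB : z ∈ σ.S.B1 G := (σ.S.end_mem_B0 hcv hz).2
  have hcomp : σ.S.comp G z = σ.S.comp G x0 := (EG.comp_eq hcz).symm
  have hztop : z ∈ σ.S.topStrips G N := by
    refine D_Stage_mem_top.2 ⟨z, ?_, EG.mem_comp.2 ⟨hzG, EG.conn_refl _ _⟩, hzB⟩
    rw [Skew.tops, mem_filter]
    exact ⟨hz, by rw [hcomp]⟩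
  have hN1 : 1 ≤ N := by
    rw [hN, Nat.one_le_iff_ne_zero, Finset.card_ne_zero]
    exact ⟨z, mem_inter.2 ⟨EG.mem_comp.2 ⟨hzG, hcz⟩, hzB⟩⟩
  obtain ⟨hJ, hS⟩ := σ.peel hG.jj hG.star hN1 hmax
  have hG' : ∀ x ∈ G, x ∉ G \ σ.S.topStrips G N → x ∈ σ.S.topStrips G N := by
    intro x hx h
    by_contra hc
    exact h (mem_sdiff.2 ⟨hx, hc⟩)
  refine ⟨N, G \ σ.S.topStrips G N, hN1, ?_, ⟨hJ, hS, ?_, ?_⟩, hmax, ?_, ?_⟩
  · rw [Finset.ssubset_iff_of_subset sdiff_subset]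
    exact ⟨z, hzG, fun h => (mem_sdiff.1 h).2 hztop⟩
  · -- components of maximal elements
    intro x hx hxm
    obtain ⟨hxG, hxt⟩ := mem_sdiff.1 hx
    have hk := hG.max x hxG hxm
    have hk' : σ.S.comp univ x ⊆ G := hk
    intro y hy
    have hyG : y ∈ G := hk hy
    refine mem_sdiff.2 ⟨hyG, fun hyt => hxt ?_⟩
    have hc : σ.S.conn G x y := by
      have h1 : y ∈ σ.S.comp G x := by
        rw [D_Stage_comp hk']
        exact hy
      exact (EG.mem_comp.1 h1).2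
    refine D_Stage_top_of hyt hc ?_
    rw [EG.e6_mem_B1]
    exact ⟨hxG, fun y' _ z' _ h1 _ => hxm _ (Or.inl h1)⟩
  · -- strips
    intro i x hx hxG'
    obtain ⟨hxG, hxt⟩ := mem_sdiff.1 hxG'
    have hk := hG.strip i x hx hxG
    intro y hy
    refine mem_sdiff.2 ⟨hk hy, fun hyt => hxt ?_⟩
    exact D_Stage_top_of hyt (D.D_Stage_kap_conn i hk hx hy) (D.D_Stage_kap_B1 i hk hx)
  · intro x hx _ hxG'
    exact D_Stage_card (hG' x hx hxG')
  · intro i hu hu'
    have hk := hG.strip i _ (D.st i).dgeo_u_mem hu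
    have h1 := D_Stage_card (hG' _ hu hu')
    rw [← h1, ← (D.st i).kap_card]
    congr 1
    have h2 : σ.S.comp G (D.st i).u = (D.st i).kap := by
      have h3 := (D.st i).kap_eq_comp
      unfold Sys0.kS at h3
      rw [D_Stage_comp (by rw [← h3]; exact hk), ← h3]
    rw [h2]
    ext y
    rw [mem_inter]
    exact ⟨fun hy => ⟨hy, D.D_Stage_kap_B1 i hk hy⟩, fun hy => hy.1⟩

variable {D}

theorem Stage.cls_subset {G : Finset M} (hG : D.Stage G) {i : D.ι} (hu : (D.st i).u ∈ G) :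
    (D.st i).cls ⊆ G := by
  intro x hx
  unfold JStrip.cls at hx
  rw [mem_insert] at hx
  rcases hx with rfl | hx
  · exact hG.jj.2.1 _ _ (Or.inr (D.st i).dl.1) hu
  · exact hG.strip i _ (D.st i).dgeo_u_mem hu hx

end DSys

end Pool.PP2
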