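import Pool.Agent.Lib.PP2.D.Stage
import Pool.Agent.Lib.PP2.S2

/-!
# Chunk D-Theta: the sources of the constraints on `u`
-/

namespace Pool.PP2

open Finset Classical MvPolynomial

namespace Sys0

variable {M : Type*} {σ : Sys0 M} [Fintype M]

theorem dth_mem_Top {G : Finset M} {x : M} :
    x ∈ σ.Top G ↔ x ∈ G ∧ ∀ z, ¬ σ.S.s z x := by
  unfold Top
  rw [mem_filter]

/-- if `S.w y x` and `y` has a north neighbour so has `x` (`sw`) -/
theorem Top_low {G : Finset M} (hG : σ.JJ G) : σ.S.Low (σ.Top G) ∧ σ.R.Low (σ.Top G) := by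
  constructor
  · intro x y hxy hy
    rw [dth_mem_Top] at hy ⊢
    refine ⟨hG.1 x y hxy hy.1, fun z hz => ?_⟩
    rcases hxy with h | h
    · exact hy.2 _ h
    · obtain ⟨t, _, ht⟩ := σ.S.sw hz h
      exact hy.2 _ ht
  · intro x y hxy hy
    rw [dth_mem_Top] at hy ⊢
    refine ⟨hG.2.1 x y hxy hy.1, fun z hz => ?_⟩
    rcases hxy with h | h
    · exact hy.2 _ ((σ.s_iff _ _).2 h)
    · obtain ⟨t, _, ht⟩ := σ.R.sw ((σ.s_iff _ _).1 hz) h
      exact hy.2 _ ((σ.s_iff _ _).2 ht)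

/-- a lower weak-only subset of `R` or `S` inside `G` is inside `Top G` (a north neighbour would be in it) -/
theorem subset_Top {G L : Finset M} (hG : σ.JJ G) (hLG : L ⊆ G) (hL : σ.S.Low L ∨ σ.R.Low L)
    (hW : σ.S.WO L) : L ⊆ σ.Top G := by
  intro x hx
  rw [dth_mem_Top]
  refine ⟨hLG hx, fun z hz => ?_⟩
  rcases hL with h | h
  · exact hW z (h z x (Or.inl hz) hx) x hx hz
  · exact hW z (h z x (Or.inl ((σ.s_iff _ _).1 hz)) hx) x hx hz

theorem dth_Top_nonempty {G : Finset M} (hG : σ.JJ G) (h : G.Nonempty) :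
    (σ.Top G).Nonempty := by
  obtain ⟨x, hx, hmin⟩ := exists_min_image G σ.S.rk h
  refine ⟨x, dth_mem_Top.2 ⟨hx, fun z hz => ?_⟩⟩
  have h1 := hmin z (hG.1 z x (Or.inl hz) hx)
  have h2 := σ.S.rk_s hz
  omega

theorem dth_sum (Q : Skew M) (hs : ∀ x y, Q.s x y ↔ σ.S.s x y) {G : Finset M} (hG : σ.JJ G)
    (P : Finset M → Prop) (hP : ∀ L, P L → Q.Low L)
    (hQL : ∀ L, Q.Low L → L ⊆ G → Q.WO L → L ⊆ σ.Top G) (g : Finset M → Lam ℚ) :
    ∑ L ∈ (univ : Finset (Finset M)).filter (fun L => P L ∧ L ⊆ G),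
        C (wd Q.toEG [(σ.Top G).card - 1, 1] L) * g L =
      ∑ r ∈ (univ : Finset (M × M)).filter (fun r => r.1 ∈ σ.Top G ∧ r.2 ∈ G ∧
        r.2 ∉ (σ.Top G).erase r.1 ∧ Q.Low ((σ.Top G).erase r.1) ∧
        P (insert r.2 ((σ.Top G).erase r.1))), g (insert r.2 ((σ.Top G).erase r.1)) := by
  obtain ⟨T, hT⟩ : ∃ T, T = σ.Top G := ⟨_, rfl⟩
  have hTG : T ⊆ G := by
    intro x hx
    rw [hT, dth_mem_Top] at hx
    exact hx.1
  have hWO : ∀ L, L ⊆ T → Q.WO L := by
    intro L hL x hx y hy hxy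
    have := hL hy
    rw [hT, dth_mem_Top] at this
    exact this.2 x ((hs x y).1 hxy)
  rw [← hT]
  have h1 : ∀ L : Finset M, C (wd Q.toEG [T.card - 1, 1] L) * g L =
      ∑ L₁ ∈ (Q.lows L).filter (fun L₁ => Q.WO L₁ ∧ L₁.card = T.card - 1 ∧ (L \ L₁).card = 1),
        g L := by
    intro L
    have h2 : wd Q.toEG [T.card - 1, 1] L = ∑ L₁ ∈ Q.lows L,
        (if Q.WO L₁ ∧ L₁.card = T.card - 1 then (1 : ℚ) else 0) * wd Q.toEG [1] (L \ L₁) := rfl
    rw [h2, map_sum, sum_mul, sum_filter]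
    refine sum_congr rfl fun L₁ _ => ?_
    rw [E9_wd_one]
    unfold E9_W
    have h3 : (Q.WO (L \ L₁) ∧ (L \ L₁).card = 1) ↔ (L \ L₁).card = 1 := by
      constructor
      · exact fun h => h.2
      · intro h
        refine ⟨?_, h⟩
        obtain ⟨c, hc⟩ := card_eq_one.1 h
        rw [hc]
        intro x hx y hy hxy
        rw [mem_singleton] at hx hy
        subst hx
        subst hy
        have := Q.lab_s hxy
        omega
    by_cases ha : Q.WO L₁ ∧ L₁.card = T.card - 1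
    · by_cases hb : (L \ L₁).card = 1
      · rw [if_pos ha, if_pos (h3.2 hb), if_pos ⟨ha.1, ha.2, hb⟩, mul_one, C_1, one_mul]
      · have hc1 : ¬ (Q.WO (L \ L₁) ∧ (L \ L₁).card = 1) := fun h => hb (h3.1 h)
        have hc2 : ¬ (Q.WO L₁ ∧ L₁.card = T.card - 1 ∧ (L \ L₁).card = 1) := fun h => hb h.2.2
        rw [if_neg hc1, if_neg hc2, mul_zero, C_0, zero_mul]
    · have hc2 : ¬ (Q.WO L₁ ∧ L₁.card = T.card - 1 ∧ (L \ L₁).card = 1) :=
        fun h => ha ⟨h.1, h.2.1⟩
      rw [if_neg ha, if_neg hc2, zero_mul, C_0, zero_mul]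
  rw [sum_congr rfl fun L _ => h1 L, sum_sigma']
  symm
  refine sum_bij (fun r _ => (⟨insert r.2 (T.erase r.1), T.erase r.1⟩ :
    Σ _ : Finset M, Finset M)) ?_ ?_ ?_ ?_
  · rintro ⟨t, c⟩ hr
    simp only [mem_filter, mem_univ, true_and] at hr
    obtain ⟨ht, hc, hcT, hlow, hPL⟩ := hr
    rw [mem_sigma, mem_filter, mem_filter, e4_mem_lows]
    refine ⟨⟨mem_univ _, hPL, ?_⟩, ⟨subset_insert _ _, ?_⟩, hWO _ (erase_subset _ _),
      card_erase_of_mem ht, ?_⟩
    · intro x hx
      rcases mem_insert.1 hx with rfl | hx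
      · exact hc
      · exact hTG (mem_of_mem_erase hx)
    · intro x _ y hy hxy
      exact hlow x y hxy hy
    · have : insert c (T.erase t) \ T.erase t = {c} := by
        ext x
        rw [mem_sdiff, mem_insert, mem_singleton]
        constructor
        · rintro ⟨h | h, h'⟩
          · exact h
          · exact absurd h h'
        · rintro rfl
          exact ⟨Or.inl rfl, hcT⟩
      show (insert c (T.erase t) \ T.erase t).card = 1
      rw [this, card_singleton]
  · rintro ⟨t, c⟩ hr ⟨t', c'⟩ hr' he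
    simp only [mem_filter, mem_univ, true_and] at hr hr'
    obtain ⟨ht, hc, hcT, -, -⟩ := hr
    obtain ⟨ht', hc', hcT', -, -⟩ := hr'
    rw [Sigma.mk.injEq] at he
    obtain ⟨he1, he2⟩ := he
    have he2' : T.erase t = T.erase t' := eq_of_heq he2
    have htt : t = t' := by
      by_contra hne
      have : t ∈ T.erase t' := mem_erase.2 ⟨hne, ht⟩
      rw [← he2'] at this
      exact (notMem_erase t T) this
    subst htt
    have hcc : c = c' := by
      have : c ∈ insert c' (T.erase t) := by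
        have h5 : c ∈ insert c (T.erase t) := mem_insert_self _ _
        have h6 : insert c (T.erase t) = insert c' (T.erase t) := he1
        rw [← h6]
        exact h5
      rcases mem_insert.1 this with h | h
      · exact h
      · exact absurd h hcT
    rw [hcc]
  · rintro ⟨L, L₁⟩ hL
    rw [mem_sigma, mem_filter, mem_filter, e4_mem_lows] at hL
    obtain ⟨⟨-, hPL, hLG⟩, ⟨hsub, hlow⟩, hWL, hcard, hone⟩ := hL
    simp only at hPL hLG hsub hlow hWL hcard hone
    obtain ⟨c, hc⟩ := card_eq_one.1 hone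
    have hcL : c ∈ L \ L₁ := by rw [hc]; exact mem_singleton_self _
    obtain ⟨hcL1, hcL2⟩ := mem_sdiff.1 hcL
    have hlow1 : Q.Low L₁ := by
      intro x y hxy hy
      exact hlow x (hP L hPL x y hxy (hsub hy)) y hy hxy
    have hL₁T : L₁ ⊆ T := by
      rw [hT]
      exact hQL L₁ hlow1 (hsub.trans hLG) hWL
    have hTne : T.Nonempty := by
      rw [hT]
      exact dth_Top_nonempty hG ⟨c, hLG hcL1⟩
    have hTc : 0 < T.card := card_pos.2 hTne
    have h5 : (T \ L₁).card = 1 := by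
      rw [card_sdiff_of_subset hL₁T]
      omega
    obtain ⟨t, ht⟩ := card_eq_one.1 h5
    have htT : t ∈ T \ L₁ := by rw [ht]; exact mem_singleton_self _
    obtain ⟨htT1, htT2⟩ := mem_sdiff.1 htT
    have he : T.erase t = L₁ := by
      ext x
      rw [mem_erase]
      constructor
      · rintro ⟨h6, h7⟩
        by_contra h8
        have : x ∈ T \ L₁ := mem_sdiff.2 ⟨h7, h8⟩
        rw [ht, mem_singleton] at this
        exact h6 this
      · intro h6
        refine ⟨?_, hL₁T h6⟩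
        rintro rfl
        exact htT2 h6
    have hins : insert c (T.erase t) = L := by
      rw [he]
      ext x
      rw [mem_insert]
      constructor
      · rintro (rfl | h6)
        · exact hcL1
        · exact hsub h6
      · intro h6
        by_cases h7 : x ∈ L₁
        · exact Or.inr h7
        · have : x ∈ L \ L₁ := mem_sdiff.2 ⟨h6, h7⟩
          rw [hc, mem_singleton] at this
          exact Or.inl this
    refine ⟨(t, c), ?_, ?_⟩
    · rw [mem_filter]
      refine ⟨mem_univ _, htT1, hLG hcL1, ?_, ?_, ?_⟩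
      · show c ∉ T.erase t
        rw [he]
        exact hcL2
      · show Q.Low (T.erase t)
        rw [he]
        exact hlow1
      · show P (insert c (T.erase t))
        rw [hins]
        exact hPL
    · show (⟨insert c (T.erase t), T.erase t⟩ : Σ _ : Finset M, Finset M) = ⟨L, L₁⟩
      rw [hins, he]
  · intro r _
    rfl

/-- the left alphabet evaluated by the word functional `(n - 1, 1)`, `n = #Top`. A chain `L₁ ⊂ L` counted by the functional is `L₁ = Top \ t`, `L = L₁ ∪ {c}`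
(`exists_wdm` or `exists_strip_op` with `exists_left`, `subset_Top`; reindex the double sum by `(t, c)`, `t ∈ Top`, `c ∈ G`, `c = t` or `c ∉ Top`). -/
theorem theta_word {G : Finset M} (hG : σ.JJ G) (hS : σ.StarOn G) :
    ∑ r ∈ (univ : Finset (M × M)).filter (fun r => r.1 ∈ σ.Top G ∧ r.2 ∈ G ∧ r.2 ∉ (σ.Top G).erase r.1 ∧
        σ.R.Low ((σ.Top G).erase r.1) ∧ σ.JJ (insert r.2 ((σ.Top G).erase r.1))),
        K σ.S.toEG (G \ insert r.2 ((σ.Top G).erase r.1)) =
      ∑ r ∈ (univ : Finset (M × M)).filter (fun r => r.1 ∈ σ.Top G ∧ r.2 ∈ G ∧ r.2 ∉ (σ.Top G).erase r.1 ∧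
        σ.S.Low ((σ.Top G).erase r.1) ∧ σ.S.Low (insert r.2 ((σ.Top G).erase r.1))),
        K σ.S.toEG (G \ insert r.2 ((σ.Top G).erase r.1)) := by
  obtain ⟨Ψ, hΨ⟩ := exists_left (A := ℚ) (E9opw [(σ.Top G).card - 1, 1])
  have h1 := congrArg Ψ hS
  rw [map_sum, map_sum] at h1
  simp only [hΨ] at h1
  have e : ∀ (Q : Skew M) (P : Finset M → Prop) (_ : ∀ L, P L → Q.Low L),
      ∑ L ∈ (univ : Finset (Finset M)).filter (fun L => P L ∧ L ⊆ G),
        C (E9opw [(σ.Top G).card - 1, 1] (K Q.toEG L)) *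
          MvPolynomial.map (algebraMap ℚ ℚ) (K σ.S.toEG (G \ L)) =
      ∑ L ∈ (univ : Finset (Finset M)).filter (fun L => P L ∧ L ⊆ G),
        C (wd Q.toEG [(σ.Top G).card - 1, 1] L) * K σ.S.toEG (G \ L) := by
    intro Q P hP
    refine sum_congr rfl fun L hL => ?_
    rw [E9opw_K Q _ (EG.Low.cvx (hP L (mem_filter.1 hL).2.1)), Algebra.algebraMap_self,
      MvPolynomial.map_id]
  rw [e σ.R σ.JJ (fun L hL => hL.2.1), e σ.S σ.S.Low (fun L hL => hL)] at h1
  have hR := dth_sum (σ := σ) σ.R (fun x y => (σ.s_iff x y).symm) hG σ.JJ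
    (fun L hL => hL.2.1) (fun L hL hLG hW => subset_Top hG hLG (Or.inr hL)
      (fun x hx y hy hxy => hW x hx y hy ((σ.s_iff x y).1 hxy)))
    (fun L => K σ.S.toEG (G \ L))
  have hS' := dth_sum (σ := σ) σ.S (fun x y => Iff.rfl) hG σ.S.Low
    (fun L hL => hL) (fun L hL hLG hW => subset_Top hG hLG (Or.inl hL) hW)
    (fun L => K σ.S.toEG (G \ L))
  rw [hR, hS'] at h1
  exact h1

end Sys0

namespace DSys

variable {M : Type*} {σ : Sys0 M} (D : DSys σ) [Fintype M]

theorem dth_strips {G : Finset M} {i : D.ι} : i ∈ D.stripsIn G ↔ (D.st i).u ∈ G := by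
  unfold DSys.stripsIn
  rw [mem_filter]
  exact ⟨fun h => h.2, fun h => ⟨mem_univ _, h⟩⟩

theorem dth_kap (j : D.ι) : (D.st j).u ∈ (D.st j).kap ∧
    (∀ m ≤ (D.st j).k, (D.st j).y m ∈ (D.st j).kap) ∧
    (∀ m ≤ (D.st j).k, (D.st j).w m ∈ (D.st j).kap) := by
  unfold JStrip.kap
  refine ⟨mem_insert_self _ _, fun m hm => ?_, fun m hm => ?_⟩
  · exact mem_insert_of_mem (mem_union_left _ (mem_image_of_mem _ (mem_range.2 (by omega))))
  · exact mem_insert_of_mem (mem_union_right _ (mem_image_of_mem _ (mem_range.2 (by omega))))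

variable {D}

/-- the elements of a strip in `G` -/
theorem dth_inG {G : Finset M} (hG : D.Stage G) {i : D.ι} (hu : (D.st i).u ∈ G) :
    (D.st i).p ∈ G ∧ (∀ m ≤ (D.st i).k, (D.st i).y m ∈ G) ∧
      (∀ m ≤ (D.st i).k, (D.st i).w m ∈ G) := by
  have h := hG.cls_subset hu
  obtain ⟨_, h2, h3⟩ := D.dth_kap i
  refine ⟨h ?_, fun m hm => h ?_, fun m hm => h ?_⟩
  · unfold JStrip.cls; exact mem_insert_self _ _
  · unfold JStrip.cls; exact mem_insert_of_mem (h2 m hm)
  · unfold JStrip.cls; exact mem_insert_of_mem (h3 m hm)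

theorem dth_y_Top {G : Finset M} (hG : D.Stage G) {i : D.ι} (hu : (D.st i).u ∈ G) {m : ℕ}
    (hm : m ≤ (D.st i).k) : (D.st i).y m ∈ σ.Top G :=
  Sys0.dth_mem_Top.2 ⟨(dth_inG hG hu).2.1 m hm, fun z hz =>
    (D.st i).ymin m hm z (Or.inl hz)⟩

theorem dth_p_Top {G : Finset M} (hG : D.Stage G) {i : D.ι} (hu : (D.st i).u ∈ G) :
    (D.st i).p ∈ σ.Top G :=
  Sys0.dth_mem_Top.2 ⟨(dth_inG hG hu).1, fun z hz => ((D.st i).pS z).1 (Or.inl hz)⟩

theorem dth_u_Top (i : D.ι) {G : Finset M} : (D.st i).u ∉ σ.Top G := by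
  intro h
  exact (Sys0.dth_mem_Top.1 h).2 _ (D.st i).yu

/-- lowness of `Top \ t` -/
theorem dth_low_erase {G : Finset M} (hG : σ.JJ G) {t : M} :
    σ.S.Low ((σ.Top G).erase t) ↔ ∀ y ∈ σ.Top G, y ≠ t → t ∈ σ.Top G → ¬ σ.S.w t y := by
  constructor
  · intro h y hy hyt _ hw
    have := h t y (Or.inr hw) (mem_erase.2 ⟨hyt, hy⟩)
    exact (notMem_erase _ _) this
  · intro h x y hxy hy
    obtain ⟨h1, h2⟩ := mem_erase.1 hy
    have hx : x ∈ σ.Top G := (Sys0.Top_low hG).1 x y hxy h2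
    refine mem_erase.2 ⟨?_, hx⟩
    rintro rfl
    rcases hxy with h3 | h3
    · exact (Sys0.dth_mem_Top.1 h2).2 _ h3
    · exact h y h2 h1 hx h3

theorem dth_lowR_erase {G : Finset M} (hG : σ.JJ G) {t : M} :
    σ.R.Low ((σ.Top G).erase t) ↔ ∀ y ∈ σ.Top G, y ≠ t → t ∈ σ.Top G → ¬ σ.R.w t y := by
  constructor
  · intro h y hy hyt _ hw
    have := h t y (Or.inr hw) (mem_erase.2 ⟨hyt, hy⟩)
    exact (notMem_erase _ _) this
  · intro h x y hxy hy
    obtain ⟨h1, h2⟩ := mem_erase.1 hy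
    have hx : x ∈ σ.Top G := (Sys0.Top_low hG).2 x y hxy h2
    refine mem_erase.2 ⟨?_, hx⟩
    rintro rfl
    rcases hxy with h3 | h3
    · exact (Sys0.dth_mem_Top.1 h2).2 _ ((σ.s_iff _ _).2 h3)
    · exact h y h2 h1 hx h3

theorem dth_S_R {G : Finset M} (hG : σ.JJ G) {t : M} (D : DSys σ)
    (h : σ.S.Low ((σ.Top G).erase t)) : σ.R.Low ((σ.Top G).erase t) := by
  rw [dth_low_erase hG] at h
  rw [dth_lowR_erase hG]
  intro y hy hyt ht hw
  by_cases h2 : σ.S.w t y
  · exact h y hy hyt ht h2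
  · obtain ⟨i, _, rfl⟩ := D.hD t y ⟨hw, h2⟩
    exact dth_u_Top i hy

/-- `Top G` is in `𝓙` -/
theorem dth_JJ_Top {G : Finset M} (hG : σ.JJ G) (D : DSys σ) : σ.JJ (σ.Top G) := by
  refine ⟨(Sys0.Top_low hG).1, (Sys0.Top_low hG).2, fun x y hxy hy => ?_⟩
  obtain ⟨q, hq⟩ := D.lsN hxy
  exact absurd hq ((Sys0.dth_mem_Top.1 hy).2 q)

variable (D)

/-- Compare the two index sets of `theta_word`.
(1) `r.2 = r.1 = t`: the condition on the left is `R.Low (Top \ t)` (`Top G ∈ 𝓙` because targets have a north neighbour, `lsN`), on the right `S.Low (Top \ t)`. The right condition implies the left one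
(a D-target is not in `Top`); the left ones not on the right are the `t = y_k` of the strips in `G` (`w_k ∈ Top`).
(2) `r.2 = c ∉ Top`: left pairs are right pairs (if `Top \ t` is not lower in `S` then `t = y_k`, `w_k ∈ L`, `L` not lower). The right pairs which are not left pairs: `R`-lowness fails only
for `(t, c) = (p, u)`; the constraints fail only for `LS t c` (a source is in `Top`). `(p, u)` is not a constraint by `ne'`.
So: number of strips times `K (G \ Top)` = sum over strips of `K (G \ ((Top \ p) ∪ u))` + sum over the violated constraints. -/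
theorem theta_id (hL : σ.Links) (hA : σ.LSax) {G : Finset M} (hG : D.Stage G) :
    ∑ _i ∈ D.stripsIn G, K σ.S.toEG (G \ σ.Top G) =
      ∑ i ∈ D.stripsIn G, K σ.S.toEG (G \ insert (D.st i).u ((σ.Top G).erase (D.st i).p)) +
      ∑ r ∈ (univ : Finset (M × M)).filter (fun r => r.2 ∈ G ∧ σ.LS r.1 r.2 ∧
        σ.S.Low ((σ.Top G).erase r.1) ∧ σ.S.Low (insert r.2 ((σ.Top G).erase r.1))),
        K σ.S.toEG (G \ insert r.2 ((σ.Top G).erase r.1)) := by
  have hw := Sys0.theta_word hG.jj hG.star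
  obtain ⟨T, hT⟩ : ∃ T, T = σ.Top G := ⟨_, rfl⟩
  have hJG := hG.jj
  have hlow := @dth_low_erase M σ _ G hJG
  have hlowR := @dth_lowR_erase M σ _ G hJG
  have hSR : ∀ t, σ.S.Low ((σ.Top G).erase t) → σ.R.Low ((σ.Top G).erase t) :=
    fun t h => dth_S_R hJG D h
  have hJT := dth_JJ_Top hJG D
  have hyT : ∀ i ∈ D.stripsIn G, (D.st i).y (D.st i).k ∈ σ.Top G := fun i hi =>
    dth_y_Top hG (D.dth_strips.1 hi) le_rfl
  have hy0T : ∀ i ∈ D.stripsIn G, (D.st i).y 0 ∈ σ.Top G := fun i hi =>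
    dth_y_Top hG (D.dth_strips.1 hi) (Nat.zero_le _)
  have hwT : ∀ i ∈ D.stripsIn G, (D.st i).w (D.st i).k ∈ σ.Top G := fun i hi =>
    Sys0.dth_mem_Top.2 ⟨(dth_inG hG (D.dth_strips.1 hi)).2.2 _ le_rfl, (D.st i).wN⟩
  have hpT : ∀ i ∈ D.stripsIn G, (D.st i).p ∈ σ.Top G := fun i hi =>
    dth_p_Top hG (D.dth_strips.1 hi)
  have huT : ∀ i, (D.st i).u ∉ σ.Top G := fun i => dth_u_Top i
  have htop : ∀ x ∈ σ.Top G, ∀ z, ¬ σ.S.s z x := fun x hx => (Sys0.dth_mem_Top.1 hx).2
  have hTG : ∀ x ∈ σ.Top G, x ∈ G := fun x hx => (Sys0.dth_mem_Top.1 hx).1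
  have hmemTop : ∀ x, x ∈ G → (∀ z, ¬ σ.S.s z x) → x ∈ σ.Top G := fun x h1 h2 =>
    Sys0.dth_mem_Top.2 ⟨h1, h2⟩
  rw [← hT] at hw hlow hlowR hSR hJT hyT hy0T hwT hpT huT htop hTG hmemTop ⊢
  obtain ⟨AR, hAR⟩ : ∃ AR : Finset (M × M), AR = (univ : Finset (M × M)).filter
    (fun r => r.1 ∈ T ∧ r.2 ∈ G ∧ r.2 ∉ T.erase r.1 ∧
        σ.R.Low (T.erase r.1) ∧ σ.JJ (insert r.2 (T.erase r.1))) := ⟨_, rfl⟩
  obtain ⟨AS, hAS⟩ : ∃ AS : Finset (M × M), AS = (univ : Finset (M × M)).filter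
    (fun r => r.1 ∈ T ∧ r.2 ∈ G ∧ r.2 ∉ T.erase r.1 ∧
        σ.S.Low (T.erase r.1) ∧ σ.S.Low (insert r.2 (T.erase r.1))) := ⟨_, rfl⟩
  obtain ⟨LL, hLL⟩ : ∃ LL : Finset (M × M), LL = (univ : Finset (M × M)).filter
    (fun r => r.2 ∈ G ∧ σ.LS r.1 r.2 ∧
        σ.S.Low (T.erase r.1) ∧ σ.S.Low (insert r.2 (T.erase r.1))) := ⟨_, rfl⟩
  have mAR : ∀ t c, (t, c) ∈ AR ↔ (t ∈ T ∧ c ∈ G ∧ c ∉ T.erase t ∧
      σ.R.Low (T.erase t) ∧ σ.JJ (insert c (T.erase t))) := by
    intro t c
    rw [hAR, mem_filter]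
    exact ⟨fun h => h.2, fun h => ⟨mem_univ _, h⟩⟩
  have mAS : ∀ t c, (t, c) ∈ AS ↔ (t ∈ T ∧ c ∈ G ∧ c ∉ T.erase t ∧
      σ.S.Low (T.erase t) ∧ σ.S.Low (insert c (T.erase t))) := by
    intro t c
    rw [hAS, mem_filter]
    exact ⟨fun h => h.2, fun h => ⟨mem_univ _, h⟩⟩
  have mLL : ∀ x y, (x, y) ∈ LL ↔ (y ∈ G ∧ σ.LS x y ∧
      σ.S.Low (T.erase x) ∧ σ.S.Low (insert y (T.erase x))) := by
    intro t c
    rw [hLL, mem_filter]
    exact ⟨fun h => h.2, fun h => ⟨mem_univ _, h⟩⟩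
  rw [← hAR, ← hAS] at hw
  rw [← hLL]
  have hne_yw : ∀ i, (D.st i).w (D.st i).k ≠ (D.st i).y (D.st i).k := fun i =>
    ((D.st i).y_ne_w le_rfl le_rfl).symm
  -- `AR \ AS`
  have hd1 : AR \ AS = (D.stripsIn G).image
      (fun i => ((D.st i).y (D.st i).k, (D.st i).y (D.st i).k)) := by
    ext ⟨t, c⟩
    rw [mem_sdiff, mem_image, mAR, mAS]
    constructor
    · rintro ⟨⟨h1, h2, h3, h4, h5⟩, h6⟩
      have h7 : ¬ σ.S.Low (T.erase t) := fun h7 => h6 ⟨h1, h2, h3, h7, h5.1⟩
      rw [hlow] at h7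
      push Not at h7
      obtain ⟨y, hy, hyt, -, hty⟩ := h7
      have h8 : ¬ σ.R.w t y := (hlowR.1 h4) y hy hyt h1
      obtain ⟨i, rfl, rfl⟩ := D.hC t y ⟨hty, h8⟩
      have hwG : (D.st i).w (D.st i).k ∈ G := hTG _ hy
      have huG : (D.st i).u ∈ G :=
        hG.strip i _ ((D.dth_kap i).2.2 _ le_rfl) hwG (D.dth_kap i).1
      refine ⟨i, D.dth_strips.2 huG, ?_⟩
      have hc : c = (D.st i).y (D.st i).k := by
        have h9 := h5.1 _ _ (Or.inr hty) (mem_insert_of_mem (mem_erase.2 ⟨hyt, hy⟩))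
        rcases mem_insert.1 h9 with h10 | h10
        · exact h10.symm
        · exact absurd h10 (notMem_erase _ _)
      rw [hc]
    · rintro ⟨i, hi, he⟩
      rw [Prod.mk.injEq] at he
      obtain ⟨rfl, rfl⟩ := he
      have hy := hyT i hi
      refine ⟨⟨hy, hTG _ hy, notMem_erase _ _, ?_, ?_⟩, ?_⟩
      · rw [hlowR]
        intro z _ _ _ hz
        exact D.yk_R i z hz
      · rw [insert_erase hy]
        exact hJT
      · rintro ⟨_, _, _, h4, _⟩
        rw [hlow] at h4
        exact h4 _ (hwT i hi) (hne_yw i) hy (D.st i).cl.1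
  -- `AS \ AR`
  have hd2 : AS \ AR = (D.stripsIn G).image (fun i => ((D.st i).p, (D.st i).u)) ∪ LL := by
    ext ⟨t, c⟩
    rw [mem_sdiff, mem_union, mem_image, mAR, mAS, mLL]
    constructor
    · rintro ⟨⟨h1, h2, h3, h4, h5⟩, h6⟩
      have h7 : ¬ σ.JJ (insert c (T.erase t)) := fun h7 => h6 ⟨h1, h2, h3, hSR t h4, h7⟩
      by_cases h8 : σ.R.Low (insert c (T.erase t))
      · right
        have h9 : ∃ x y, σ.LS x y ∧ y ∈ insert c (T.erase t) ∧ x ∉ insert c (T.erase t) := by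
          by_contra hcon
          push Not at hcon
          exact h7 ⟨h5, h8, fun x y a b => hcon x y a b⟩
        obtain ⟨x, y, hxy, hy, hx⟩ := h9
        have hyc : y = c := by
          rcases mem_insert.1 hy with h10 | h10
          · exact h10
          · obtain ⟨q, hq⟩ := D.lsN hxy
            exact absurd hq (htop _ (mem_of_mem_erase h10) q)
        subst hyc
        have hxT : x ∈ T := by
          refine hmemTop x (hJG.2.2 x y hxy h2) fun z hz => ?_
          exact hA.smin hxy z (Or.inl ((σ.s_iff _ _).1 hz))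
        have hxt : x = t := by
          by_contra hne
          exact hx (mem_insert_of_mem (mem_erase.2 ⟨hne, hxT⟩))
        subst hxt
        exact ⟨h2, hxy, h4, h5⟩
      · left
        unfold EG.Low at h8
        push Not at h8
        obtain ⟨x, y, hxy, hy, hx⟩ := h8
        have hyc : y = c := by
          rcases mem_insert.1 hy with h10 | h10
          · exact h10
          · exact absurd (mem_insert_of_mem (hSR t h4 x y hxy h10)) hx
        subst hyc
        have hS : ¬ σ.S.e x y := fun h => hx (h5 x y h hy)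
        have hDL : σ.DL x y := by
          rcases hxy with h10 | h10
          · exact absurd (Or.inl ((σ.s_iff _ _).2 h10)) hS
          · exact ⟨h10, fun h11 => hS (Or.inr h11)⟩
        obtain ⟨i, rfl, rfl⟩ := D.hD x y hDL
        have hi := D.dth_strips.2 h2
        refine ⟨i, hi, ?_⟩
        have : (D.st i).p = t := by
          by_contra hne
          exact hx (mem_insert_of_mem (mem_erase.2 ⟨hne, hpT i hi⟩))
        rw [this]
    · rintro (⟨i, hi, he⟩ | ⟨h1, h2, h3, h4⟩)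
      · rw [Prod.mk.injEq] at he
        obtain ⟨rfl, rfl⟩ := he
        have huG := D.dth_strips.1 hi
        have hl : σ.S.Low (T.erase (D.st i).p) := by
          rw [hlow]
          intro y _ _ _ hw'
          exact ((D.st i).pS y).2 (Or.inr hw')
        have hpu : (D.st i).p ≠ (D.st i).u := fun h => D.p_notMem_kap i i (h ▸ (D.dth_kap i).1)
        have hpy : (D.st i).y 0 ≠ (D.st i).p := fun h =>
          D.p_notMem_kap i i (h ▸ (D.dth_kap i).2.1 0 (Nat.zero_le _))
        refine ⟨⟨hpT i hi, huG, fun h => huT i (mem_of_mem_erase h), hl, ?_⟩, ?_⟩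
        · intro x y hxy hy
          rcases mem_insert.1 hy with rfl | h10
          · rcases hxy with h11 | h11
            · rw [σ.S.ls h11 (D.st i).yu]
              exact mem_insert_of_mem (mem_erase.2 ⟨hpy, hy0T i hi⟩)
            · exact absurd h11 ((D.st i).uW x)
          · exact mem_insert_of_mem (hl x y hxy h10)
        · rintro ⟨_, _, _, _, h5⟩
          have h6 := h5.2.1 _ _ (Or.inr (D.st i).dl.1) (mem_insert_self _ _)
          rcases mem_insert.1 h6 with h7 | h7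
          · exact hpu h7
          · exact (notMem_erase _ _) h7
      · have htT : t ∈ T := by
          refine hmemTop t (hJG.2.2 t c h2 h1) fun z hz => ?_
          exact hA.smin h2 z (Or.inl ((σ.s_iff _ _).1 hz))
        obtain ⟨q, hq⟩ := D.lsN h2
        refine ⟨⟨htT, h1, fun h => htop _ (mem_of_mem_erase h) q hq, h3, h4⟩, ?_⟩
        rintro ⟨_, _, _, _, h5⟩
        have h6 := h5.2.2 _ _ h2 (mem_insert_self _ _)
        rcases mem_insert.1 h6 with h7 | h7
        · subst h7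
          exact hA.ne h2 Relation.ReflTransGen.refl
        · exact (notMem_erase _ _) h7
  have hdisj : Disjoint ((D.stripsIn G).image (fun i => ((D.st i).p, (D.st i).u))) LL := by
    rw [disjoint_left]
    rintro ⟨t, c⟩ h1 h2
    obtain ⟨i, _, he⟩ := mem_image.1 h1
    rw [Prod.mk.injEq] at he
    obtain ⟨rfl, rfl⟩ := he
    rw [mLL] at h2
    exact hA.ne' h2.2.1 (Relation.ReflTransGen.single (Or.inr (D.st i).dl.1))
  have hs1 : ∑ r ∈ AR, K σ.S.toEG (G \ insert r.2 (T.erase r.1)) =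
      ∑ r ∈ AR \ AS, K σ.S.toEG (G \ insert r.2 (T.erase r.1)) +
      ∑ r ∈ AR ∩ AS, K σ.S.toEG (G \ insert r.2 (T.erase r.1)) := by
    rw [← sum_union (disjoint_sdiff_inter AR AS), sdiff_union_inter]
  have hs2 : ∑ r ∈ AS, K σ.S.toEG (G \ insert r.2 (T.erase r.1)) =
      ∑ r ∈ AS \ AR, K σ.S.toEG (G \ insert r.2 (T.erase r.1)) +
      ∑ r ∈ AS ∩ AR, K σ.S.toEG (G \ insert r.2 (T.erase r.1)) := by
    rw [← sum_union (disjoint_sdiff_inter AS AR), sdiff_union_inter]
  rw [hs1, hs2, inter_comm AS AR] at hw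
  have hw2 := add_right_cancel hw
  rw [hd1, hd2, sum_union hdisj, sum_image, sum_image] at hw2
  · refine Eq.trans ?_ hw2
    refine sum_congr rfl fun i hi => ?_
    show K σ.S.toEG (G \ T) = K σ.S.toEG (G \ insert ((D.st i).y (D.st i).k)
      (T.erase ((D.st i).y (D.st i).k)))
    rw [insert_erase (hyT i hi)]
  · intro i _ j _ he
    simp only [Prod.mk.injEq] at he
    exact D.inj he.2
  · intro i _ j _ he
    simp only [Prod.mk.injEq] at he
    exact D.yk_inj he.1

/-- both sets are `(G \ Top) \ u` plus one isolated point (`u` is isolated in `G \ Top`, `p` in `S`): `K_union`, `K_image` for the points -/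
theorem theta_iso (hL : σ.Links) {G : Finset M} (hG : D.Stage G) {i : D.ι} (hi : (D.st i).u ∈ G) :
    K σ.S.toEG (G \ insert (D.st i).u ((σ.Top G).erase (D.st i).p)) = K σ.S.toEG (G \ σ.Top G) := by
  have hpT := dth_p_Top hG hi
  have huT : (D.st i).u ∉ σ.Top G := dth_u_Top i
  have hpG := (dth_inG hG hi).1
  have hy0T : (D.st i).y 0 ∈ σ.Top G := dth_y_Top hG hi (Nat.zero_le _)
  have hpu : (D.st i).p ≠ (D.st i).u := fun h => D.p_notMem_kap i i (h ▸ (D.dth_kap i).1)
  obtain ⟨H, hH⟩ : ∃ H, H = (G \ σ.Top G).erase (D.st i).u := ⟨_, rfl⟩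
  have e1 : G \ insert (D.st i).u ((σ.Top G).erase (D.st i).p) = {(D.st i).p} ∪ H := by
    rw [hH]
    ext x
    simp only [mem_sdiff, mem_insert, mem_erase, mem_union, mem_singleton, not_or, not_and]
    constructor
    · rintro ⟨h1, h2, h3⟩
      by_cases h4 : x = (D.st i).p
      · exact Or.inl h4
      · exact Or.inr ⟨h2, h1, h3 h4⟩
    · rintro (rfl | ⟨h1, h2, h3⟩)
      · exact ⟨hpG, hpu, fun h => absurd rfl h⟩
      · exact ⟨h2, h1, fun _ => h3⟩
  have e2 : G \ σ.Top G = {(D.st i).u} ∪ H := by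
    rw [hH]
    ext x
    simp only [mem_sdiff, mem_erase, mem_union, mem_singleton]
    constructor
    · rintro ⟨h1, h2⟩
      by_cases h4 : x = (D.st i).u
      · exact Or.inl h4
      · exact Or.inr ⟨h4, h1, h2⟩
    · rintro (rfl | ⟨_, h2, h3⟩)
      · exact ⟨hi, huT⟩
      · exact ⟨h2, h3⟩
  have hmemH : ∀ x ∈ H, x ≠ (D.st i).u ∧ x ∈ G ∧ x ∉ σ.Top G := by
    intro x hx
    rw [hH, mem_erase, mem_sdiff] at hx
    exact hx
  rw [e1, e2, K_union, K_union]
  · congr 1
    have h1 := K_image σ.S.toEG σ.S.toEG {(D.st i).p} (fun _ => (D.st i).u)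
      (by
        intro a ha b hb _
        simp only [coe_singleton, Set.mem_singleton_iff] at ha hb
        rw [ha, hb])
      (by
        intro a ha b hb
        rw [mem_singleton] at ha hb
        subst ha
        subst hb
        constructor
        · intro h
          have := σ.S.lab_s h
          omega
        · intro h
          have := σ.S.lab_s h
          omega)
      (by
        intro a ha b hb
        rw [mem_singleton] at ha hb
        subst ha
        subst hb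
        constructor
        · intro h
          have := σ.S.lab_w h
          omega
        · intro h
          have := σ.S.lab_w h
          omega)
    rw [h1, image_singleton]
  · rw [disjoint_singleton_left]
    exact fun h => (hmemH _ h).1 rfl
  · intro x hx z hz
    rw [mem_singleton] at hx
    subst hx
    refine ⟨(D.st i).umax z, ?_⟩
    rintro (h | h)
    · have h2 := σ.S.ls h (D.st i).yu
      rw [h2] at hz
      exact (hmemH _ hz).2.2 hy0T
    · exact (D.st i).uW z h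
  · rw [disjoint_singleton_left]
    exact fun h => (hmemH _ h).2.2 hpT
  · intro x hx z hz
    rw [mem_singleton] at hx
    subst hx
    exact ⟨((D.st i).pS z).2, ((D.st i).pS z).1⟩

/-- by positivity (`K_pos`) the last sum in `theta_id` is empty. A source `x` of `u` is in `rho` (`closed`) and minimal in `R`, so `x = p` or `x = y j`. The set `Top \ x ∪ {u}` is lower if `Top \ x` is (`x ≠ y 0`
by `ne`); so `Top \ x` is not lower in `S`: `S.w x z` with `z ∈ Top`: `x = y_k`. `k ≥ 1` by `ne`. -/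
theorem theta (hL : σ.Links) (hA : σ.LSax) {G : Finset M} (hG : D.Stage G) {i : D.ι}
    (hi : (D.st i).u ∈ G) {x : M} (hx : σ.LS x (D.st i).u) :
    x = (D.st i).y (D.st i).k ∧ 1 ≤ (D.st i).k := by
  have h1 := D.theta_id hL hA hG
  have h2 : ∑ j ∈ D.stripsIn G, K σ.S.toEG (G \ insert (D.st j).u ((σ.Top G).erase (D.st j).p)) =
      ∑ _j ∈ D.stripsIn G, K σ.S.toEG (G \ σ.Top G) :=
    sum_congr rfl fun j hj => D.theta_iso hL hG (D.dth_strips.1 hj)
  rw [h2] at h1
  have h3 := left_eq_add.1 h1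
  have h4 := K_pos ((univ : Finset (M × M)).filter (fun r => r.2 ∈ G ∧ σ.LS r.1 r.2 ∧
        σ.S.Low ((σ.Top G).erase r.1) ∧ σ.S.Low (insert r.2 ((σ.Top G).erase r.1))))
    (fun _ => (1 : ℚ)) (fun _ => σ.S.toEG) (fun r => G \ insert r.2 ((σ.Top G).erase r.1))
    (fun _ _ => zero_le_one) (by simpa only [C_1, one_mul] using h3)
  -- position of `x`
  have hxr : x ∈ (D.st i).rho := by
    refine (D.closed i).2.2 _ _ hx ?_
    unfold JStrip.rho
    exact mem_insert_of_mem (mem_insert_self _ _)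
  have hcase : ∃ j ≤ (D.st i).k, x = (D.st i).y j := by
    unfold JStrip.rho at hxr
    simp only [mem_insert, mem_union, mem_image, mem_range] at hxr
    rcases hxr with rfl | rfl | ⟨j, hj, rfl⟩ | ⟨j, hj, rfl⟩
    · exact (hA.ne' hx (Relation.ReflTransGen.single (Or.inr (D.st i).dl.1))).elim
    · exact (hA.ne hx Relation.ReflTransGen.refl).elim
    · exact ⟨j, by omega, rfl⟩
    · exact (hA.smin hx _ (Or.inr ((D.st i).ywR j hj))).elim
  obtain ⟨j, hj, rfl⟩ := hcase
  have hj0 : j ≠ 0 := by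
    rintro rfl
    exact hA.ne hx (Relation.ReflTransGen.single (Or.inl (D.st i).yu))
  rcases hj.eq_or_lt with h5 | h5
  · exact ⟨by rw [h5], by omega⟩
  exfalso
  have hl : σ.S.Low ((σ.Top G).erase ((D.st i).y j)) := by
    rw [dth_low_erase hG.jj]
    intro z hz _ _ hw
    have h6 := σ.S.uw hw ((D.st i).yw j hj)
    rw [h6] at hz
    exact (Sys0.dth_mem_Top.1 hz).2 _ ((D.st i).yw' j h5)
  have hy0 : (D.st i).y 0 ≠ (D.st i).y j := fun h => hj0 ((D.st i).y_inj (Nat.zero_le _) hj h).symm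
  have hmem : ((D.st i).y j, (D.st i).u) ∈ (univ : Finset (M × M)).filter (fun r => r.2 ∈ G ∧
      σ.LS r.1 r.2 ∧ σ.S.Low ((σ.Top G).erase r.1) ∧
      σ.S.Low (insert r.2 ((σ.Top G).erase r.1))) := by
    rw [mem_filter]
    refine ⟨mem_univ _, hi, hx, hl, ?_⟩
    intro a b hab hb
    rcases mem_insert.1 hb with rfl | h10
    · rcases hab with h11 | h11
      · rw [σ.S.ls h11 (D.st i).yu]
        exact mem_insert_of_mem (mem_erase.2 ⟨hy0, dth_y_Top hG hi (Nat.zero_le _)⟩)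
      · exact absurd h11 ((D.st i).uW a)
    · exact mem_insert_of_mem (hl a b hab h10)
  have := h4 _ hmem
  norm_num at this

end DSys

end Pool.PP2
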